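import Pool.Agent.Work.MP_218513_lc.SY.FI

/-!
# SY/AG (M): graph properties

PROOF. Apply `sym_main` with `p = 1`, `k = 2`, the constant family `fun _ => n`. For a permutation `σ` of `Fin n` let
`mE σ : Perm {s : Sym2 (Fin n) // ¬ s.IsDiag}` be the map `s ↦ Sym2.map σ s` (`Equiv.subtypeEquiv` of `Sym2.congr`/
`Equiv.sym2Congr`; a map of the nondiagonal pairs into themselves, as `σ` is injective; it is multiplicative). `act g = e.trans ((mE (g 0)).trans e.symm)`
(conjugate by `e`: `act g a = e.symm (mE (g 0) (e a))`), a homomorphism.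
Support: `e a = s(u, v)`, `A 0 = {u, v}`, at most two points. If `g 0` fixes `u` and `v` then `act g a = a`.
Orbits: `R = ∅` if `N = 0`, otherwise `R = {0}` (one element `a₀`): for `e a₀ = s(u, v)`, `e a = s(u', v')` with `u ≠ v`, `u' ≠ v'`
there is a permutation `σ` of `Fin n` with `σ u = u'`, `σ v = v'`: for instance `swap (swap u u' v) v' * swap u u'`
(`swap u u' u = u'`, `(swap u u' v) ≠ u'`, `v' ≠ u'`).
Invariance: for `x' = fun a => x (act g a)` the graph of `x'` is isomorphic to the graph of `x` by `σ = g 0`: adjacency of `u, v` in the graph of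
`x'` is `u ≠ v ∧ x' (e.symm s(u,v)) = true`, `x' (e.symm s(u,v)) = x (e.symm s(σ u, σ v))`. (`SimpleGraph.fromEdgeSet_adj`.)
Conclusion: `R.card * (8 * 2 * (L + 2)) ^ (2 * 1) ≤ (16 * (L + 2)) ^ 2` (`DTle.mono`); second part: the first part of `sym_main`
for `i = 0`; all `a, b` are in one orbit, so the set there is `{b | x b ≠ y b}` (for each `a`), and its cardinality is even iff the numbers of
the true variables of `x` and `y` have the same parity.
-/

set_option autoImplicit false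
set_option linter.unusedSectionVars false

namespace Pool.Agent.XLR.SY

open Pool.Agent.XLR

private def agE {n : ℕ} (σ : Equiv.Perm (Fin n)) :
    Equiv.Perm {s : Sym2 (Fin n) // ¬ s.IsDiag} where
  toFun s := ⟨Sym2.map σ s.1, fun h => s.2 ((Sym2.isDiag_map σ.injective).1 h)⟩
  invFun s := ⟨Sym2.map σ.symm s.1, fun h => s.2 ((Sym2.isDiag_map σ.symm.injective).1 h)⟩
  left_inv s := by
    apply Subtype.ext
    show Sym2.map σ.symm (Sym2.map σ s.1) = s.1
    rw [Sym2.map_map, Equiv.symm_comp_self, Sym2.map_id]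
    rfl
  right_inv s := by
    apply Subtype.ext
    show Sym2.map σ (Sym2.map σ.symm s.1) = s.1
    rw [Sym2.map_map, Equiv.self_comp_symm, Sym2.map_id]
    rfl

private def agAct {n N : ℕ} (e : Fin N ≃ {s : Sym2 (Fin n) // ¬ s.IsDiag}) :
    ((i : Fin 1) → Equiv.Perm (Fin ((fun _ : Fin 1 => n) i))) →* Equiv.Perm (Fin N) where
  toFun g := e.trans ((agE (g 0)).trans e.symm)
  map_one' := by
    apply Equiv.ext
    intro a
    show e.symm (agE 1 (e a)) = a
    have h : agE 1 (e a) = e a := by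
      apply Subtype.ext
      show Sym2.map id (e a).1 = (e a).1
      rw [Sym2.map_id]
      rfl
    rw [h, Equiv.symm_apply_apply]
  map_mul' g h := by
    apply Equiv.ext
    intro a
    show e.symm (agE (g 0 * h 0) (e a)) = e.symm (agE (g 0) (e (e.symm (agE (h 0) (e a)))))
    rw [Equiv.apply_symm_apply]
    congr 1
    apply Subtype.ext
    show Sym2.map (g 0 * h 0) (e a).1 = Sym2.map (g 0) (Sym2.map (h 0) (e a).1)
    rw [Sym2.map_map]
    rfl

private theorem agAct_val {n N : ℕ} (e : Fin N ≃ {s : Sym2 (Fin n) // ¬ s.IsDiag})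
    (g : (i : Fin 1) → Equiv.Perm (Fin n)) (a : Fin N) :
    (e (agAct e g a)).1 = Sym2.map (g 0) (e a).1 := by
  show (e (e.symm (agE (g 0) (e a)))).1 = _
  rw [Equiv.apply_symm_apply]
  rfl

private theorem ag_supp {n N : ℕ} (e : Fin N ≃ {s : Sym2 (Fin n) // ¬ s.IsDiag}) (a : Fin N) :
    ∃ A : (i : Fin 1) → Finset (Fin ((fun _ : Fin 1 => n) i)), (∀ i, (A i).card ≤ 2) ∧
      ∀ g, (∀ i, ∀ v ∈ A i, g i v = v) → agAct e g a = a := by
  obtain ⟨⟨u, v⟩, huv⟩ : ∃ q : Fin n × Fin n, s(q.1, q.2) = (e a).1 :=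
    ⟨(Quot.exists_rep (e a).1).choose, (Quot.exists_rep (e a).1).choose_spec⟩
  refine ⟨fun _ => {u, v}, fun _ => Finset.card_le_two, fun g hg => ?_⟩
  apply e.injective
  apply Subtype.ext
  rw [agAct_val, ← huv, Sym2.map_mk]
  have h1 : g 0 u = u := hg 0 u (by simp)
  have h2 : g 0 v = v := hg 0 v (by simp)
  show s(g 0 u, g 0 v) = s(u, v)
  rw [h1, h2]

private theorem ag_trans {n : ℕ} {u v u' v' : Fin n} (h : u ≠ v) (h' : u' ≠ v') :
    ∃ σ : Equiv.Perm (Fin n), σ u = u' ∧ σ v = v' := by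
  refine ⟨Equiv.swap (Equiv.swap u u' v) v' * Equiv.swap u u', ?_, ?_⟩
  · rw [Equiv.Perm.mul_apply, Equiv.swap_apply_left]
    apply Equiv.swap_apply_of_ne_of_ne
    · intro hc
      have h1 : Equiv.swap u u' u = Equiv.swap u u' v := by
        rw [Equiv.swap_apply_left]
        exact hc
      exact h ((Equiv.swap u u').injective h1)
    · exact h'
  · rw [Equiv.Perm.mul_apply, Equiv.swap_apply_left]

private theorem ag_orb {n N : ℕ} (e : Fin N ≃ {s : Sym2 (Fin n) // ¬ s.IsDiag}) (a b : Fin N) :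
    ∃ g : (i : Fin 1) → Equiv.Perm (Fin ((fun _ : Fin 1 => n) i)), agAct e g a = b := by
  obtain ⟨⟨u, v⟩, huv⟩ : ∃ q : Fin n × Fin n, s(q.1, q.2) = (e a).1 :=
    ⟨(Quot.exists_rep (e a).1).choose, (Quot.exists_rep (e a).1).choose_spec⟩
  obtain ⟨⟨u', v'⟩, huv'⟩ : ∃ q : Fin n × Fin n, s(q.1, q.2) = (e b).1 :=
    ⟨(Quot.exists_rep (e b).1).choose, (Quot.exists_rep (e b).1).choose_spec⟩
  have h : u ≠ v := fun hc => (e a).2 (by rw [← huv, Sym2.mk_isDiag_iff]; exact hc)
  have h' : u' ≠ v' := fun hc => (e b).2 (by rw [← huv', Sym2.mk_isDiag_iff]; exact hc)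
  obtain ⟨σ, h1, h2⟩ := ag_trans h h'
  refine ⟨fun _ => σ, ?_⟩
  apply e.injective
  apply Subtype.ext
  rw [agAct_val, ← huv, ← huv', Sym2.map_mk]
  show s(σ u, σ v) = s(u', v')
  rw [h1, h2]

private theorem ag_inv {n N : ℕ} (e : Fin N ≃ {s : Sym2 (Fin n) // ¬ s.IsDiag})
    (P : SimpleGraph (Fin n) → Bool)
    (hP : ∀ G H : SimpleGraph (Fin n), Nonempty (G ≃g H) → P G = P H)
    (f : (Fin N → Bool) → Bool)
    (hf : ∀ x, f x = P (SimpleGraph.fromEdgeSet {s | ∃ a, x a = true ∧ (e a : Sym2 (Fin n)) = s}))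
    (g : (i : Fin 1) → Equiv.Perm (Fin n)) (x : Fin N → Bool) :
    f (fun a => x (agAct e g a)) = f x := by
  rw [hf, hf]
  apply hP
  refine ⟨⟨g 0, ?_⟩⟩
  intro u v
  rw [SimpleGraph.fromEdgeSet_adj, SimpleGraph.fromEdgeSet_adj]
  constructor
  · rintro ⟨⟨b, hb, hb'⟩, hne⟩
    refine ⟨⟨(agAct e g).symm b, ?_, ?_⟩, fun hc => hne (by rw [hc])⟩
    · show x (agAct e g ((agAct e g).symm b)) = true
      rw [Equiv.apply_symm_apply]
      exact hb
    · apply Sym2.map.injective (g 0).injective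
      rw [← agAct_val, Equiv.apply_symm_apply, hb', Sym2.map_mk]
  · rintro ⟨⟨a, ha, ha'⟩, hne⟩
    refine ⟨⟨agAct e g a, ha, ?_⟩, fun hc => hne ((g 0).injective hc)⟩
    rw [agAct_val, ha', Sym2.map_mk]

private theorem ag_parity {N : ℕ} (x y : Fin N → Bool)
    (h : (Finset.univ.filter fun a => x a = true).card % 2 =
      (Finset.univ.filter fun a => y a = true).card % 2) :
    Even (Finset.univ.filter fun b => x b ≠ y b).card := by
  have hpt : ∀ b : Fin N, ((if x b ≠ y b then 1 else 0 : ℕ) : ZMod 2)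
      = ((if x b = true then 1 else 0 : ℕ) : ZMod 2) + ((if y b = true then 1 else 0 : ℕ) : ZMod 2) := by
    intro b
    generalize x b = p
    generalize y b = q
    revert p q
    decide
  have h1 : ((Finset.univ.filter fun b => x b ≠ y b).card : ZMod 2)
      = ((Finset.univ.filter fun a => x a = true).card : ZMod 2) +
        ((Finset.univ.filter fun a => y a = true).card : ZMod 2) := by
    rw [Finset.card_filter, Finset.card_filter, Finset.card_filter, Nat.cast_sum, Nat.cast_sum,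
      Nat.cast_sum, ← Finset.sum_add_distrib]
    exact Finset.sum_congr rfl fun b _ => hpt b
  have h2 : ((Finset.univ.filter fun a => x a = true).card : ZMod 2) =
      ((Finset.univ.filter fun a => y a = true).card : ZMod 2) :=
    (ZMod.natCast_eq_natCast_iff' _ _ 2).2 h
  rw [h2] at h1
  have h3 : ∀ q : ZMod 2, q + q = 0 := by decide
  rw [h3] at h1
  exact (ZMod.natCast_eq_zero_iff_even).1 h1

theorem graph_main {n N : ℕ} (e : Fin N ≃ {s : Sym2 (Fin n) // ¬ s.IsDiag})
    (P : SimpleGraph (Fin n) → Bool)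
    (hP : ∀ G H : SimpleGraph (Fin n), Nonempty (G ≃g H) → P G = P H)
    (f : (Fin N → Bool) → Bool)
    (hf : ∀ x, f x = P (SimpleGraph.fromEdgeSet {s | ∃ a, x a = true ∧ (e a : Sym2 (Fin n)) = s})) :
    DTle ((16 * (Nat.log 2 (sps f) + 2)) ^ 2) f ∧
    (16 * (Nat.log 2 (sps f) + 2) < n → ∀ x y : Fin N → Bool,
      (Finset.univ.filter fun a => x a = true).card % 2 =
        (Finset.univ.filter fun a => y a = true).card % 2 → f x = f y) := by
  classical
  obtain ⟨R, hR, horb⟩ : ∃ R : Finset (Fin N), R.card ≤ 1 ∧ ∀ x, ∃ y ∈ R, ∃ g, agAct e g y = x := by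
    rcases Nat.eq_zero_or_pos N with h0 | h0
    · subst h0
      exact ⟨∅, by simp, fun x => x.elim0⟩
    · exact ⟨{⟨0, h0⟩}, by simp, fun x => ⟨⟨0, h0⟩, by simp, ag_orb e _ x⟩⟩
  obtain ⟨h1, h2⟩ := sym_main (p := 1) (k := 2) (n := fun _ => n) (by norm_num) (agAct e)
    (ag_supp e) R horb f (ag_inv e P hP f hf)
  constructor
  · apply h2.mono
    rw [show 8 * 2 * (Nat.log 2 (sps f) + 2) = 16 * (Nat.log 2 (sps f) + 2) by ring,
      show 2 * 1 = 2 by rfl]
    calc R.card * (16 * (Nat.log 2 (sps f) + 2)) ^ 2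
        ≤ 1 * (16 * (Nat.log 2 (sps f) + 2)) ^ 2 := Nat.mul_le_mul_right _ hR
      _ = _ := one_mul _
  · intro hn x y hxy
    refine h1 0 (by omega) x y fun a => ?_
    have h3 : (Finset.univ.filter fun b => (∃ π : Equiv.Perm (Fin n),
        agAct e (Pi.mulSingle 0 π) a = b) ∧ x b ≠ y b)
        = Finset.univ.filter fun b => x b ≠ y b := by
      refine Finset.filter_congr fun b _ => ?_
      refine ⟨fun h => h.2, fun h => ⟨?_, h⟩⟩
      obtain ⟨g, hg⟩ := ag_orb e a b
      refine ⟨g 0, ?_⟩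
      have h4 : (Pi.mulSingle 0 (g 0) : (i : Fin 1) → Equiv.Perm (Fin n)) = g := by
        funext i
        have hi : i = 0 := Subsingleton.elim _ _
        subst hi
        exact Pi.mulSingle_eq_same _ _
      have h5 : agAct e (Pi.mulSingle 0 (g 0)) a = agAct e g a := by
        exact congrArg (fun q => agAct e q a) h4
      exact h5.trans hg
    have h6 := ag_parity x y hxy
    rw [← h3] at h6
    exact h6

end Pool.Agent.XLR.SY
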