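import Pool.Agent.Work.MP_218513_lc.SY.Defs

/-!
# SY/AN (S): functions that are constant except at one point

PROOF. `iv (F t) = iv c + e * [t = 0]` with `e = iv (c + 1) - iv c = ± 1`. So
`WF F α = iv c * ∑ t, sg (α ⬝ᵥ t) + e = iv c * (if α = 0 then 2 ^ n else 0) + e`, `n = card ι ≥ 1`.
If `iv c = 0` this is `e = 1 ≠ 0`; if `iv c = 1` then `e = -1` and it is `2 ^ n - 1 ≠ 0` for `α = 0`, `-1` for
`α ≠ 0`. So all `2 ^ n` coefficients are nonzero (`card (ι → ZMod 2) = 2 ^ n`).
(`∑ t, sg (α ⬝ᵥ t) = 0` for `α ≠ 0`: flip a coordinate `i` with `α i = 1`, see `sum_sg` in `Fourier.lean`.)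
-/

set_option autoImplicit false
set_option linter.unusedSectionVars false

namespace Pool.Agent.XLR.SY

open Pool.Agent.XLR

variable {ι : Type} [Fintype ι] [DecidableEq ι]

theorem sp_point [Nonempty ι] (F : (ι → ZMod 2) → ZMod 2) (c : ZMod 2) (h0 : F 0 = c + 1)
    (h : ∀ t, t ≠ 0 → F t = c) : 2 ^ Fintype.card ι ≤ sp F := by
  have hiv : ∀ a : ZMod 2, ((iv a : ℤ) : ZMod 2) = a := by decide
  have hsg : ∀ a : ZMod 2, ((sg a : ℤ) : ZMod 2) = 1 := by decide
  have hcard : Fintype.card (ι → ZMod 2) = 2 ^ Fintype.card ι := by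
    rw [Fintype.card_fun, ZMod.card]
  have hall : ∀ α : ι → ZMod 2, WF F α ≠ 0 := by
    intro α hα
    have h1 : ((WF F α : ℤ) : ZMod 2) = ∑ x, F x := by
      unfold WF
      rw [Int.cast_sum]
      refine Finset.sum_congr rfl fun x _ => ?_
      rw [Int.cast_mul, hiv, hsg, mul_one]
    have h2 : ∑ x, F x = ∑ x : ι → ZMod 2, (c + if x = 0 then 1 else 0) := by
      refine Finset.sum_congr rfl fun x _ => ?_
      by_cases hx : x = 0
      · rw [if_pos hx, hx, h0]
      · rw [if_neg hx, add_zero, h x hx]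
    rw [Finset.sum_add_distrib, Finset.sum_const, Finset.card_univ, hcard,
      Finset.sum_ite_eq' Finset.univ (0 : ι → ZMod 2), if_pos (Finset.mem_univ _)] at h2
    have h3 : (2 ^ Fintype.card ι) • c = 0 := by
      obtain ⟨m, hm⟩ := Nat.exists_eq_succ_of_ne_zero (Fintype.card_ne_zero (α := ι))
      have h4 : ∀ a : ZMod 2, (2 : ℕ) • a = 0 := by decide
      rw [hm, pow_succ', mul_nsmul, h4, smul_zero]
    rw [h3, zero_add] at h2
    rw [hα, h2] at h1
    revert h1
    decide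
  unfold sp
  rw [Finset.filter_true_of_mem fun α _ => hall α, Finset.card_univ, hcard]

end Pool.Agent.XLR.SY
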