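import Pool.Agent.Work.MP_218513_lc.SY.FI

/-!
# SY/AR (M): properties of relational structures

PROOF. Apply `sym_main` with `p = 1`, the constant family `fun _ => n` and `k`. For a permutation `σ` of `Fin n` let `mT σ` be the permutation
`⟨j, t⟩ ↦ ⟨j, σ ∘ t⟩` of `(j : Fin m) × (Fin (ar j) → Fin n)` (`Equiv.sigmaCongrRight`, `Equiv.arrowCongr`/`Equiv.postcomp`; multiplicative), `act g a = e.symm (mT (g 0) (e a))`, a homomorphism.
Support of `a`, `e a = ⟨j, t⟩`: `A 0 = univ.image t`, at most `ar j ≤ k` points.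
Orbits: for `⟨j, t⟩` let its pattern be `q : Fin (ar j) → Fin (ar j)`, `q i = ` the least `i'` with `t i' = t i`. If `t, t'` have the same pattern then
`t i = t i' ↔ t' i = t' i'`, so `t i ↦ t' i` is a bijection from the range of `t` to the range of `t'`, and it extends to a permutation `σ` of `Fin n`
(`Equiv.extendSubtype`, or `Equiv.Perm`s between finite sets of the same size), `σ ∘ t = t'`. Choose in `R` one element of each nonempty class of elements with the same
`j` and the same pattern: `R` is the image of a (partial) function on `Σ j, (Fin (ar j) → Fin (ar j))`, so `R.card ≤ ∑ j, (ar j) ^ (ar j) ≤ m * k ^ k`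
(`0 ^ 0 = 1 ≤ k ^ k`, `1 ≤ k`).
Invariance: `hP` with `σ = g 0` (`x (act g (e.symm ⟨j, t⟩)) = x (e.symm ⟨j, σ ∘ t⟩)`).
Then `R.card * (8 k (L + 2)) ^ (k * 1) ≤ m * k ^ k * (8 k (L + 2)) ^ k` and `DTle.mono`.
-/

set_option autoImplicit false
set_option linter.unusedSectionVars false

namespace Pool.Agent.XLR.SY

open Pool.Agent.XLR

private def arM {n m : ℕ} (ar : Fin m → ℕ) (σ : Equiv.Perm (Fin n)) :
    Equiv.Perm ((j : Fin m) × (Fin (ar j) → Fin n)) where
  toFun z := ⟨z.1, fun i => σ (z.2 i)⟩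
  invFun z := ⟨z.1, fun i => σ.symm (z.2 i)⟩
  left_inv := by
    rintro ⟨j, t⟩
    simp
  right_inv := by
    rintro ⟨j, t⟩
    simp

private def arA {n N m : ℕ} (ar : Fin m → ℕ) (e : Fin N ≃ ((j : Fin m) × (Fin (ar j) → Fin n))) :
    ((i : Fin 1) → Equiv.Perm (Fin n)) →* Equiv.Perm (Fin N) where
  toFun g := (e.trans (arM ar (g 0))).trans e.symm
  map_one' := by
    ext a
    show ((e.symm (arM ar 1 (e a)) : Fin N) : ℕ) = (a : ℕ)
    have h1 : arM ar (1 : Equiv.Perm (Fin n)) (e a) = e a := rfl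
    rw [h1, Equiv.symm_apply_apply]
  map_mul' := by
    intro g h
    ext a
    show ((e.symm (arM ar (g 0 * h 0) (e a)) : Fin N) : ℕ) =
      ((e.symm (arM ar (g 0) (e (e.symm (arM ar (h 0) (e a))))) : Fin N) : ℕ)
    rw [Equiv.apply_symm_apply]
    rfl

private theorem arA_apply {n N m : ℕ} (ar : Fin m → ℕ)
    (e : Fin N ≃ ((j : Fin m) × (Fin (ar j) → Fin n))) (g : (i : Fin 1) → Equiv.Perm (Fin n))
    (a : Fin N) : arA ar e g a = e.symm (arM ar (g 0) (e a)) := rfl

/-- the first preimage of the value at `i` -/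
private noncomputable def arPat {n r : ℕ} (t : Fin r → Fin n) (i : Fin r) : Fin r :=
  (⟨i, rfl⟩ : ∃ i', t i' = t i).choose

private theorem arPat_spec {n r : ℕ} (t : Fin r → Fin n) (i : Fin r) : t (arPat t i) = t i :=
  (⟨i, rfl⟩ : ∃ i', t i' = t i).choose_spec

private theorem arPat_eq {n r : ℕ} (t : Fin r → Fin n) {i i' : Fin r} (h : t i = t i') :
    arPat t i = arPat t i' := by
  have key : ∀ (v w : Fin n) (hv : ∃ j, t j = v) (hw : ∃ j, t j = w), v = w →
      hv.choose = hw.choose := by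
    rintro v _ hv hw rfl
    rfl
  exact key _ _ _ _ h

private theorem arPat_iff {n r : ℕ} {t t' : Fin r → Fin n} (h : arPat t = arPat t')
    {i i' : Fin r} (hi : t i = t i') : t' i = t' i' := by
  have h1 := arPat_eq t hi
  rw [h] at h1
  rw [← arPat_spec t' i, ← arPat_spec t' i', h1]

private theorem arPat_perm {n r : ℕ} {t t' : Fin r → Fin n} (h : arPat t = arPat t') :
    ∃ σ : Equiv.Perm (Fin n), ∀ i, σ (t i) = t' i := by
  classical
  have hb : Function.Bijective (fun v : {v // v ∈ Set.range t} =>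
      (⟨t' v.2.choose, ⟨_, rfl⟩⟩ : {v // v ∈ Set.range t'})) := by
    constructor
    · intro v w hvw
      have h1 : t' v.2.choose = t' w.2.choose := congrArg Subtype.val hvw
      have h2 : t v.2.choose = t w.2.choose := arPat_iff h.symm h1
      rw [v.2.choose_spec, w.2.choose_spec] at h2
      exact Subtype.ext h2
    · rintro ⟨_, i, rfl⟩
      refine ⟨⟨t i, i, rfl⟩, ?_⟩
      apply Subtype.ext
      exact arPat_iff h (⟨i, rfl⟩ : ∃ i', t i' = t i).choose_spec
  refine ⟨(Equiv.ofBijective _ hb).extendSubtype, fun i => ?_⟩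
  have hi : t i ∈ Set.range t := ⟨i, rfl⟩
  rw [Equiv.extendSubtype_apply_of_mem _ _ hi]
  exact arPat_iff h hi.choose_spec

/-- the pattern -/
private noncomputable def arQ {n m : ℕ} (ar : Fin m → ℕ)
    (z : (j : Fin m) × (Fin (ar j) → Fin n)) : (j : Fin m) × (Fin (ar j) → Fin (ar j)) :=
  ⟨z.1, arPat z.2⟩

private theorem arQ_perm {n m : ℕ} (ar : Fin m → ℕ)
    {z z' : (j : Fin m) × (Fin (ar j) → Fin n)} (h : arQ ar z = arQ ar z') :
    ∃ σ : Equiv.Perm (Fin n), arM ar σ z = z' := by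
  obtain ⟨j, t⟩ := z
  obtain ⟨j', t'⟩ := z'
  have h1 : j = j' := congrArg Sigma.fst h
  subst h1
  have h2 : arPat t = arPat t' := eq_of_heq (Sigma.mk.inj h).2
  obtain ⟨σ, hσ⟩ := arPat_perm h2
  refine ⟨σ, ?_⟩
  show (⟨j, fun i => σ (t i)⟩ : (j : Fin m) × (Fin (ar j) → Fin n)) = ⟨j, t'⟩
  have h3 : (fun i => σ (t i)) = t' := funext hσ
  rw [h3]

private theorem arM_fix {n m : ℕ} (ar : Fin m → ℕ) (σ : Equiv.Perm (Fin n))
    (z : (j : Fin m) × (Fin (ar j) → Fin n)) (h : ∀ i, σ (z.2 i) = z.2 i) : arM ar σ z = z := by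
  obtain ⟨j, t⟩ := z
  show (⟨j, fun i => σ (t i)⟩ : (j : Fin m) × (Fin (ar j) → Fin n)) = ⟨j, t⟩
  have h3 : (fun i => σ (t i)) = t := funext h
  rw [h3]

theorem rel_main {n N m k : ℕ} (ar : Fin m → ℕ) (hk : 1 ≤ k) (har : ∀ j, ar j ≤ k)
    (e : Fin N ≃ ((j : Fin m) × (Fin (ar j) → Fin n)))
    (P : ((j : Fin m) → (Fin (ar j) → Fin n) → Bool) → Bool)
    (hP : ∀ (σ : Equiv.Perm (Fin n)) (S : (j : Fin m) → (Fin (ar j) → Fin n) → Bool),
      P (fun j t => S j (σ ∘ t)) = P S)
    (f : (Fin N → Bool) → Bool)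
    (hf : ∀ x, f x = P (fun j t => x (e.symm ⟨j, t⟩))) :
    DTle (m * k ^ k * (8 * k * (Nat.log 2 (sps f) + 2)) ^ k) f := by
  classical
  obtain ⟨R, hRc, hR⟩ : ∃ R : Finset (Fin N), R.card ≤ m * k ^ k ∧
      ∀ x, ∃ y ∈ R, ∃ g, arA ar e g y = x := by
    refine ⟨(Finset.univ : Finset ((j : Fin m) × (Fin (ar j) → Fin (ar j)))).biUnion fun q =>
      if h : ∃ z, arQ (n := n) ar z = q then {e.symm h.choose} else ∅, ?_, ?_⟩
    · refine Finset.card_biUnion_le.trans ?_
      have h1 : ∀ q ∈ (Finset.univ : Finset ((j : Fin m) × (Fin (ar j) → Fin (ar j)))),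
          (if h : ∃ z, arQ (n := n) ar z = q then ({e.symm h.choose} : Finset (Fin N))
            else ∅).card ≤ 1 := by
        intro q _
        split_ifs
        · rw [Finset.card_singleton]
        · rw [Finset.card_empty]
          exact Nat.zero_le _
      refine (Finset.sum_le_sum h1).trans ?_
      rw [Finset.sum_const, smul_eq_mul, mul_one, Finset.card_univ, Fintype.card_sigma]
      have h2 : ∀ j ∈ (Finset.univ : Finset (Fin m)),
          Fintype.card (Fin (ar j) → Fin (ar j)) ≤ k ^ k := by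
        intro j _
        rw [Fintype.card_fun, Fintype.card_fin]
        exact (Nat.pow_le_pow_left (har j) _).trans (Nat.pow_le_pow_right hk (har j))
      refine (Finset.sum_le_sum h2).trans ?_
      rw [Finset.sum_const, smul_eq_mul, Finset.card_univ, Fintype.card_fin]
    · intro x
      have h : ∃ z, arQ (n := n) ar z = arQ ar (e x) := ⟨e x, rfl⟩
      refine ⟨e.symm h.choose, ?_, ?_⟩
      · rw [Finset.mem_biUnion]
        refine ⟨arQ ar (e x), Finset.mem_univ _, ?_⟩
        rw [dif_pos h]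
        exact Finset.mem_singleton_self _
      · obtain ⟨σ, hσ⟩ := arQ_perm ar h.choose_spec
        refine ⟨fun _ => σ, ?_⟩
        rw [arA_apply, Equiv.apply_symm_apply, hσ, Equiv.symm_apply_apply]
  have hsupp : ∀ x : Fin N, ∃ A : (i : Fin 1) → Finset (Fin n), (∀ i, (A i).card ≤ k) ∧
      ∀ g : (i : Fin 1) → Equiv.Perm (Fin n), (∀ i, ∀ v ∈ A i, g i v = v) → arA ar e g x = x := by
    intro x
    refine ⟨fun _ => Finset.univ.image (e x).2, fun _ => ?_, fun g hg => ?_⟩
    · refine Finset.card_image_le.trans ?_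
      rw [Finset.card_univ, Fintype.card_fin]
      exact har _
    · rw [arA_apply, arM_fix, Equiv.symm_apply_apply]
      intro i
      exact hg 0 _ (Finset.mem_image_of_mem _ (Finset.mem_univ i))
  have hinv : ∀ (g : (i : Fin 1) → Equiv.Perm (Fin n)) (x : Fin N → Bool),
      f (fun a => x (arA ar e g a)) = f x := by
    intro g x
    rw [hf, hf x, ← hP (g 0) (fun j t => x (e.symm ⟨j, t⟩))]
    congr 1
    funext j t
    rw [arA_apply, Equiv.apply_symm_apply]
    rfl
  have hmain := (sym_main (p := 1) (n := fun _ => n) hk (arA ar e) hsupp R hR f hinv).2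
  refine hmain.mono ?_
  rw [mul_one]
  exact Nat.mul_le_mul_right _ hRc

end Pool.Agent.XLR.SY
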