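import Pool.Agent.Work.MP_218513_lc.SY.Defs

/-!
# SY/BF (S-M): the inner product function

PROOF. `2 * iv a = 1 - sg a`. So `2 * WF F γ = ∑ z, sg (γ ⬝ᵥ z) - ∑ z, sg (F z) * sg (γ ⬝ᵥ z)`. Write
`z = Sum.elim μ ν`, `γ = Sum.elim α β` (`Equiv.sumArrowEquivProdArrow`). The first sum is `4 ^ l` for `γ = 0` and `0`
otherwise. The second is `sg c * ∑ μ, sg (α ⬝ᵥ μ) * ∑ ν, sg (ν ⬝ᵥ (μ + β))`; the inner sum is `2 ^ l` for `μ = β` and
`0` otherwise, so it is `sg c * sg (α ⬝ᵥ β) * 2 ^ l = ± 2 ^ l`. Hence `2 * WF F γ = ∓ 2 ^ l ≠ 0` for `γ ≠ 0` and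
`4 ^ l ∓ 2 ^ l ≠ 0` for `γ = 0` (as `l ≥ 1`). So all `2 ^ (2 l)` coefficients are nonzero.
-/

set_option autoImplicit false
set_option linter.unusedSectionVars false

namespace Pool.Agent.XLR.SY

open Pool.Agent.XLR

private theorem bf_sum_sg {ι : Type} [Fintype ι] [DecidableEq ι] (α : ι → ZMod 2) :
    ∑ x : ι → ZMod 2, sg (α ⬝ᵥ x) = if α = 0 then 2 ^ Fintype.card ι else 0 := by
  split_ifs with h
  · subst h
    have h1 : ∀ x : ι → ZMod 2, sg (0 ⬝ᵥ x) = 1 := fun x => by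
      rw [zero_dotProduct]
      decide
    rw [Finset.sum_congr rfl fun x _ => h1 x, Finset.sum_const, Finset.card_univ,
      Fintype.card_fun, ZMod.card]
    simp
  · obtain ⟨i, hi⟩ : ∃ i, α i ≠ 0 := by
      by_contra hcon
      push Not at hcon
      exact h (funext hcon)
    have hi1 : α i = 1 := by
      revert hi
      generalize α i = a
      revert a
      decide
    have key : ∑ x : ι → ZMod 2, sg (α ⬝ᵥ (x + Pi.single i 1)) =
        ∑ x : ι → ZMod 2, sg (α ⬝ᵥ x) :=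
      Equiv.sum_comp (Equiv.addRight (Pi.single i 1)) (fun x => sg (α ⬝ᵥ x))
    have hsg1 : sg 1 = -1 := by decide
    have h2 : ∀ x : ι → ZMod 2, sg (α ⬝ᵥ (x + Pi.single i 1)) = - sg (α ⬝ᵥ x) := by
      intro x
      rw [dotProduct_add, sg_add, dotProduct_single, hi1, mul_one, hsg1, mul_neg_one]
    rw [Finset.sum_congr rfl fun x _ => h2 x, Finset.sum_neg_distrib] at key
    linarith

private theorem bf_add_eq {l : ℕ} (μ β : Fin l → ZMod 2) : μ + β = 0 ↔ μ = β := by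
  constructor
  · intro h
    funext i
    have h1 : μ i + β i = 0 := congrFun h i
    revert h1
    generalize μ i = a
    generalize β i = b
    revert a b
    decide
  · rintro rfl
    funext i
    show μ i + μ i = 0
    generalize μ i = a
    revert a
    decide

private theorem bf_second {l : ℕ} (c : ZMod 2) (F : ((Fin l ⊕ Fin l) → ZMod 2) → ZMod 2)
    (h : ∀ z, F z = c + ∑ i, z (Sum.inl i) * z (Sum.inr i)) (γ : (Fin l ⊕ Fin l) → ZMod 2) :
    ∑ z, sg (F z) * sg (γ ⬝ᵥ z)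
      = sg c * sg ((fun i => γ (Sum.inl i)) ⬝ᵥ (fun i => γ (Sum.inr i))) * 2 ^ l := by
  rw [← Equiv.sum_comp (Equiv.sumArrowEquivProdArrow (Fin l) (Fin l) (ZMod 2)).symm,
    Fintype.sum_prod_type]
  have h1 : ∀ μ ν : Fin l → ZMod 2,
      sg (F ((Equiv.sumArrowEquivProdArrow (Fin l) (Fin l) (ZMod 2)).symm (μ, ν))) *
        sg (γ ⬝ᵥ (Equiv.sumArrowEquivProdArrow (Fin l) (Fin l) (ZMod 2)).symm (μ, ν))
      = sg c * sg ((fun i => γ (Sum.inl i)) ⬝ᵥ μ) * sg ((μ + fun i => γ (Sum.inr i)) ⬝ᵥ ν) := by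
    intro μ ν
    have e1 : F ((Equiv.sumArrowEquivProdArrow (Fin l) (Fin l) (ZMod 2)).symm (μ, ν))
        = c + μ ⬝ᵥ ν := h _
    have e2 : γ ⬝ᵥ (Equiv.sumArrowEquivProdArrow (Fin l) (Fin l) (ZMod 2)).symm (μ, ν)
        = (fun i => γ (Sum.inl i)) ⬝ᵥ μ + (fun i => γ (Sum.inr i)) ⬝ᵥ ν := by
      unfold dotProduct
      rw [Fintype.sum_sum_type]
      rfl
    rw [e1, e2, add_dotProduct, sg_add, sg_add, sg_add]
    ring
  rw [Finset.sum_congr rfl fun μ _ => Finset.sum_congr rfl fun ν _ => h1 μ ν]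
  have h2 : ∀ μ : Fin l → ZMod 2,
      ∑ ν, sg c * sg ((fun i => γ (Sum.inl i)) ⬝ᵥ μ) * sg ((μ + fun i => γ (Sum.inr i)) ⬝ᵥ ν)
      = sg c * sg ((fun i => γ (Sum.inl i)) ⬝ᵥ μ) *
        (if μ = (fun i => γ (Sum.inr i)) then 2 ^ l else 0) := by
    intro μ
    rw [← Finset.mul_sum, bf_sum_sg, Fintype.card_fin]
    by_cases hμ : μ = fun i => γ (Sum.inr i)
    · rw [if_pos hμ, if_pos ((bf_add_eq _ _).2 hμ)]
    · rw [if_neg hμ, if_neg fun hc => hμ ((bf_add_eq _ _).1 hc)]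
  rw [Finset.sum_congr rfl fun μ _ => h2 μ, Finset.sum_eq_single fun i => γ (Sum.inr i)]
  · rw [if_pos rfl]
  · intro μ _ hμ
    rw [if_neg hμ, mul_zero]
  · intro hn
    exact absurd (Finset.mem_univ _) hn

private theorem bf_iv (a : ZMod 2) : 2 * iv a = 1 - sg a := by
  revert a
  decide

private theorem bf_sg (a : ZMod 2) : sg a = 1 ∨ sg a = -1 := by
  revert a
  decide

theorem sp_bent {l : ℕ} (hl : 1 ≤ l) (c : ZMod 2) (F : ((Fin l ⊕ Fin l) → ZMod 2) → ZMod 2)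
    (h : ∀ z, F z = c + ∑ i, z (Sum.inl i) * z (Sum.inr i)) : 4 ^ l ≤ sp F := by
  have hne : ∀ γ, WF F γ ≠ 0 := by
    intro γ h0
    have h1 : 2 * WF F γ = ∑ z, sg (γ ⬝ᵥ z) - ∑ z, sg (F z) * sg (γ ⬝ᵥ z) := by
      unfold WF
      rw [Finset.mul_sum, ← Finset.sum_sub_distrib]
      refine Finset.sum_congr rfl fun z _ => ?_
      rw [← mul_assoc, bf_iv]
      ring
    rw [h0, bf_sum_sg, bf_second c F h γ, Fintype.card_sum, Fintype.card_fin] at h1
    have h2 : (2 : ℤ) ≤ 2 ^ l := by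
      calc (2 : ℤ) = 2 ^ 1 := by norm_num
        _ ≤ 2 ^ l := pow_le_pow_right₀ (by norm_num) hl
    have h3 : (2 : ℤ) ^ (l + l) = 2 ^ l * 2 ^ l := pow_add _ _ _
    rcases bf_sg c with hc | hc <;>
    rcases bf_sg ((fun i => γ (Sum.inl i)) ⬝ᵥ (fun i => γ (Sum.inr i))) with hd | hd <;>
    rw [hc, hd] at h1 <;> split_ifs at h1 <;> nlinarith
  unfold sp
  rw [Finset.filter_true_of_mem fun γ _ => hne γ, Finset.card_univ, Fintype.card_fun,
    Fintype.card_sum, Fintype.card_fin, ZMod.card, ← two_mul, pow_mul]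
  norm_num

end Pool.Agent.XLR.SY
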