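import Pool.Agent.Work.MP_218513_lc.SY.RN

/-!
# SY/CA (S-M): the canonical form

PROOF. For a finset `Y` of elements let `G_Y = ∑ x, if x ∈ Y then G x • bas (rep x) else G x • bas x`. `G_∅ = G` and
`G_univ` is the canonical form. Induction on `Y`: `F (G_(insert x Y)) = F (G_Y)` for `x ∉ Y`. If `G x = 0` the
configurations are equal. If `G x = 1`: let `H` be the sum of the summands for `x' ≠ x`. `G_Y = H + bas x`,
`G_(insert x Y) = H + bas (rep x)`. Every `y` with `H y ≠ 0` is either some `x' ≠ x` with `G x' ≠ 0` or `rep x'` for some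
`x'`, so it is supported by `T` (`hG`, `hW`, `Sup.mono`, `W ⊆ T`). `rep x = act τ x` (`hrep`) and `x` is supported by some
`S ⊆ T` with `S.card ≤ k`: `rename_el`.
-/

set_option autoImplicit false
set_option linter.unusedSectionVars false

namespace Pool.Agent.XLR.SY

open Pool.Agent.XLR

variable {V X : Type} [Fintype V] [DecidableEq V] [Fintype X] [DecidableEq X]

theorem canon {act : Equiv.Perm V →* Equiv.Perm X} {F : (X → ZMod 2) → ZMod 2}
    (hF : Inv act F) {k : ℕ} {W T : Finset V} {rep : X → X}
    (hrep : ∀ x, ∃ τ, act τ x = rep x) (hW : ∀ x, Sup act W (rep x)) (hWT : W ⊆ T)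
    {G : X → ZMod 2} (hG : ∀ y, G y ≠ 0 → ∃ S ⊆ T, S.card ≤ k ∧ Sup act S y)
    {l : ℕ} (hl : 1 ≤ l) (hc : T.card + 2 * k + 11 * l ≤ Fintype.card V + 1)
    (hs : sp F < 4 ^ l) : F (∑ x, G x • bas (rep x)) = F G := by
  have hbas : ∀ z y : X, bas z y ≠ 0 → y = z := by
    intro z y h
    by_contra hne
    exact h (Pi.single_eq_of_ne hne _)
  obtain ⟨g, hg⟩ : ∃ g : Finset X → X → X, ∀ Y x, g Y x = if x ∈ Y then rep x else x :=
    ⟨_, fun _ _ => rfl⟩
  have hz : ∀ a : ZMod 2, a ≠ 0 → a = 1 := by decide
  have key : ∀ Y : Finset X, F (∑ x, G x • bas (g Y x)) = F G := by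
    intro Y
    induction Y using Finset.induction_on with
    | empty =>
      congr 1
      funext y
      rw [Finset.sum_apply, Finset.sum_eq_single y]
      · rw [hg, if_neg (Finset.notMem_empty y), Pi.smul_apply]
        unfold bas
        rw [Pi.single_eq_same, smul_eq_mul, mul_one]
      · intro b _ hb
        rw [hg, if_neg (Finset.notMem_empty b), Pi.smul_apply]
        have h1 : bas b y = 0 := by
          by_contra h2
          exact hb (hbas b y h2).symm
        rw [h1, smul_zero]
      · intro h
        exact absurd (Finset.mem_univ y) h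
    | insert x Y hx ih =>
      rw [← ih]
      obtain ⟨H, hH⟩ : ∃ H, H = ∑ x' ∈ Finset.univ.erase x, G x' • bas (g Y x') := ⟨_, rfl⟩
      have e1 : ∑ x', G x' • bas (g Y x') = H + G x • bas x := by
        rw [hH, Finset.sum_erase_eq_sub (Finset.mem_univ x), hg Y x, if_neg hx, sub_add_cancel]
      have e2 : ∑ x', G x' • bas (g (insert x Y) x') = H + G x • bas (rep x) := by
        have e3 : H = ∑ x' ∈ Finset.univ.erase x, G x' • bas (g (insert x Y) x') := by
          rw [hH]
          refine Finset.sum_congr rfl fun x' hx' => ?_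
          have hne : x' ≠ x := Finset.ne_of_mem_erase hx'
          rw [hg, hg]
          by_cases hxY : x' ∈ Y
          · rw [if_pos hxY, if_pos (Finset.mem_insert_of_mem hxY)]
          · rw [if_neg hxY, if_neg]
            intro h
            rcases Finset.mem_insert.1 h with h | h
            · exact hne h
            · exact hxY h
        rw [e3, Finset.sum_erase_eq_sub (Finset.mem_univ x), hg (insert x Y) x,
          if_pos (Finset.mem_insert_self x Y), sub_add_cancel]
      rw [e1, e2]
      by_cases h0 : G x = 0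
      · rw [h0, zero_smul, zero_smul]
      · rw [hz _ h0, one_smul, one_smul]
        obtain ⟨τ, hτ⟩ := hrep x
        obtain ⟨S, hST, hSk, hSx⟩ := hG x h0
        rw [← hτ]
        refine rename_el hF (T := T) ?_ hST hSx τ hl (by omega) hs
        intro y hy
        rw [hH, Finset.sum_apply] at hy
        obtain ⟨x', -, hx'⟩ := Finset.exists_ne_zero_of_sum_ne_zero hy
        rw [Pi.smul_apply, smul_eq_mul] at hx'
        have hy' := hbas _ _ (right_ne_zero_of_mul hx')
        rw [hg] at hy'
        split_ifs at hy' with hxY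
        · rw [hy']
          exact (hW x').mono hWT
        · rw [hy']
          obtain ⟨S', hS', -, hSup⟩ := hG x' (left_ne_zero_of_mul hx')
          exact hSup.mono hS'
  have h1 := key Finset.univ
  have h2 : ∀ x, g Finset.univ x = rep x := by
    intro x
    rw [hg, if_pos (Finset.mem_univ x)]
  simp only [h2] at h1
  exact h1

end Pool.Agent.XLR.SY
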