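import Pool.Agent.Work.MP_218513_lc.SY.FB

/-!
# SY/CN (M): only the parities matter

PROOF. Strong induction on `(card U - cnt z 0) + (card U - cnt z' 0)` (the number of nonzero places of `z` and `z'`).
If some `s ≠ 0` has `cnt z s ≥ 2` choose `u ≠ v` with `z u = z v = s` and let
`z1 = update (update z u 0) v 0`. `hr` applies (`{t | z t = 0}` is contained in the set) : `g z1 = g z`. `cnt z1 0 = cnt z 0 + 2`,
`cnt z1 s = cnt z s - 2`, the other counts are the same: apply the induction hypothesis to `z1`, `z'`. The same for `z'`.
Otherwise `cnt z s ≤ 1`, `cnt z' s ≤ 1` for all `s ≠ 0`, so the counts are equal (same parity), and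
`cnt z 0 = cnt z' 0` because the sum over all `s` is `card U` (`Finset.card_eq_sum_card_fiberwise`). By `exists_perm`
`z' = z ∘ σ`, so `g z' = g z` by `hs`.
-/

set_option autoImplicit false
set_option linter.unusedSectionVars false

namespace Pool.Agent.XLR.SY

open Pool.Agent.XLR

variable {U : Type} [Fintype U] [DecidableEq U]

private theorem cnt_total (z : U → St) : ∑ s, cnt z s = Fintype.card U := by
  unfold cnt
  rw [← Finset.card_univ (α := U)]
  exact (Finset.card_eq_sum_card_fiberwise (f := z) (s := Finset.univ) (t := Finset.univ)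
    (fun _ _ => Finset.mem_coe.mpr (Finset.mem_univ _))).symm

private theorem cn_reduce (M : ℕ) (g : (U → St) → ZMod 2)
    (hr : ∀ (z : U → St) (u v : U), u ≠ v → z u = z v →
      M ≤ (Finset.univ.filter fun t => z t = 0 ∨ t = u ∨ t = v).card →
      g (Function.update (Function.update z u 0) v 0) = g z)
    (z : U → St) (hz : M ≤ cnt z 0) (s : St) (hs0 : s ≠ 0) (h2 : 2 ≤ cnt z s) :
    ∃ z1 : U → St, g z1 = g z ∧ cnt z1 0 = cnt z 0 + 2 ∧
      ∀ s' : St, s' ≠ 0 → cnt z1 s' % 2 = cnt z s' % 2 := by
  obtain ⟨u, hu, v, hv, huv⟩ := Finset.one_lt_card.mp (show 1 < _ from h2)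
  have hzu : z u = s := (Finset.mem_filter.mp hu).2
  have hzv : z v = s := (Finset.mem_filter.mp hv).2
  have val : ∀ t, Function.update (Function.update z u 0) v 0 t =
      if t = v then 0 else if t = u then 0 else z t := by
    intro t
    by_cases h1 : t = v
    · subst h1
      simp
    · by_cases h3 : t = u
      · subst h3
        rw [Function.update_of_ne h1]
        simp [h1]
      · rw [Function.update_of_ne h1, Function.update_of_ne h3]
        simp [h1, h3]
  refine ⟨Function.update (Function.update z u 0) v 0, ?_, ?_, ?_⟩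
  · apply hr z u v huv (hzu.trans hzv.symm)
    refine hz.trans (Finset.card_le_card ?_)
    intro t ht
    rw [Finset.mem_filter] at ht ⊢
    exact ⟨ht.1, Or.inl ht.2⟩
  · unfold cnt
    have : (Finset.univ.filter fun t =>
        Function.update (Function.update z u 0) v 0 t = (0 : St)) =
        insert u (insert v (Finset.univ.filter fun t => z t = 0)) := by
      ext t
      simp only [Finset.mem_filter, Finset.mem_univ, true_and, Finset.mem_insert, val]
      by_cases h1 : t = v
      · simp [h1]
      · by_cases h3 : t = u
        · simp [h3]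
        · simp [h1, h3]
    have hv0 : v ∉ (Finset.univ.filter fun t => z t = (0 : St)) := by
      intro h
      exact hs0 (hzv.symm.trans (Finset.mem_filter.mp h).2)
    have hu0 : u ∉ insert v (Finset.univ.filter fun t => z t = (0 : St)) := by
      intro h
      rcases Finset.mem_insert.mp h with h | h
      · exact huv h
      · exact hs0 (hzu.symm.trans (Finset.mem_filter.mp h).2)
    rw [this, Finset.card_insert_of_notMem hu0, Finset.card_insert_of_notMem hv0]
  · intro s' hs'
    have h5 : (Finset.univ.filter fun t =>
        Function.update (Function.update z u 0) v 0 t = s') =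
        ((Finset.univ.filter fun t => z t = s').erase u).erase v := by
      ext t
      simp only [Finset.mem_filter, Finset.mem_univ, true_and, Finset.mem_erase, val]
      by_cases h1 : t = v
      · simp [h1, Ne.symm hs']
      · by_cases h3 : t = u
        · simp [h3, Ne.symm hs']
        · simp [h1, h3]
    unfold cnt
    rw [h5]
    by_cases hss : s' = s
    · subst hss
      have hvm : v ∈ (Finset.univ.filter fun t => z t = s').erase u :=
        Finset.mem_erase.mpr ⟨huv.symm, hv⟩
      rw [Finset.card_erase_of_mem hvm, Finset.card_erase_of_mem hu]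
      have : 2 ≤ (Finset.univ.filter fun t => z t = s').card := h2
      omega
    · rw [Finset.erase_eq_of_notMem (a := u), Finset.erase_eq_of_notMem (a := v)]
      · intro h
        exact hss ((Finset.mem_filter.mp h).2.symm.trans hzv)
      · intro h
        exact hss ((Finset.mem_filter.mp h).2.symm.trans hzu)

theorem parity_only (M : ℕ) (g : (U → St) → ZMod 2)
    (hs : ∀ (σ : Equiv.Perm U) (z : U → St), g (z ∘ σ) = g z)
    (hr : ∀ (z : U → St) (u v : U), u ≠ v → z u = z v →
      M ≤ (Finset.univ.filter fun t => z t = 0 ∨ t = u ∨ t = v).card →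
      g (Function.update (Function.update z u 0) v 0) = g z)
    (z z' : U → St) (hz : M ≤ cnt z 0) (hz' : M ≤ cnt z' 0)
    (hp : ∀ s : St, s ≠ 0 → cnt z s % 2 = cnt z' s % 2) : g z = g z' := by
  obtain ⟨k, hk⟩ : ∃ k, k = (Fintype.card U - cnt z 0) + (Fintype.card U - cnt z' 0) := ⟨_, rfl⟩
  induction k using Nat.strong_induction_on generalizing z z' with
  | _ k ih =>
    have hle : ∀ (y : U → St) (s : St), cnt y s ≤ Fintype.card U :=
      fun y s => Finset.card_le_univ _
    by_cases h1 : ∃ s : St, s ≠ 0 ∧ 2 ≤ cnt z s
    · obtain ⟨s, hs0, hs2⟩ := h1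
      obtain ⟨z1, e1, e2, e3⟩ := cn_reduce M g hr z hz s hs0 hs2
      have := hle z1 0
      rw [← e1]
      exact ih _ (by omega) z1 z' (by omega) hz' (fun s' h' => (e3 s' h').trans (hp s' h')) rfl
    · by_cases h2 : ∃ s : St, s ≠ 0 ∧ 2 ≤ cnt z' s
      · obtain ⟨s, hs0, hs2⟩ := h2
        obtain ⟨z1, e1, e2, e3⟩ := cn_reduce M g hr z' hz' s hs0 hs2
        have := hle z1 0
        rw [← e1]
        exact ih _ (by omega) z z1 hz (by omega) (fun s' h' => (hp s' h').trans (e3 s' h').symm) rfl
      · have hne : ∀ s : St, s ≠ 0 → cnt z s = cnt z' s := by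
          intro s h0
          have a1 : ¬ 2 ≤ cnt z s := fun h => h1 ⟨s, h0, h⟩
          have a2 : ¬ 2 ≤ cnt z' s := fun h => h2 ⟨s, h0, h⟩
          have a3 := hp s h0
          omega
        have hall : ∀ s : St, cnt z s = cnt z' s := by
          intro s
          by_cases h0 : s = 0
          · subst h0
            have t1 := cnt_total z
            have t2 := cnt_total z'
            rw [← Finset.add_sum_erase _ _ (Finset.mem_univ (0 : St))] at t1 t2
            have t3 : ∑ s ∈ Finset.univ.erase (0 : St), cnt z s =
                ∑ s ∈ Finset.univ.erase (0 : St), cnt z' s :=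
              Finset.sum_congr rfl (fun s hs => hne s (Finset.mem_erase.mp hs).1)
            omega
          · exact hne s h0
        obtain ⟨σ, hσ⟩ := exists_perm z z' hall
        rw [hσ, hs]

end Pool.Agent.XLR.SY
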