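import Mathlib

/-!
# SY/CT (M): counting orbits of a product of symmetric groups

PROOF. For `h : ∀ i, Perm (Fin (n i))` let `hJ i = if i ∈ J then h i else 1`, `hI i = if i ∈ J then 1 else h i`; `h = hI * hJ`
(componentwise). `S = {act hJ y | y ∈ R, h}` (a finset: `Finset.univ.image` / `biUnion`). Every `x = act h y = act hI (act hJ y)`,
`y ∈ R` (`horb`), and `hI i = 1` for `i ∈ J`.
Size: fix `y ∈ R` and `A` from `hsupp y`. If `h i` and `h' i` agree on `A i` for all `i ∈ J` then
`act hJ y = act h'J y`, since `(h'J)⁻¹ * hJ` fixes `A i` pointwise for all `i` (for `i ∉ J` it is `1`). So the number of the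
`act hJ y` is at most the number of the families `(h i restricted to A i)_(i ∈ J)`, at most `∏ i ∈ J, (n i) ^ (A i).card ≤
∏ i ∈ J, (n i) ^ k` (`1 ≤ n i`, `(A i).card ≤ k`). (`Finset.card_image_le` through the type `∀ i : J, A i → Fin (n i)`,
`Fintype.card_pi`, `Finset.card_biUnion_le`.)
-/

set_option autoImplicit false

namespace Pool.Agent.XLR.SY

private theorem ct_image {H T α : Type*} [Fintype H] [Fintype T] [DecidableEq α] (f : H → α)
    (g : H → T) (d : α) (hfg : ∀ h h', g h = g h' → f h = f h') :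
    (Finset.univ.image f).card ≤ Fintype.card T := by
  classical
  let ψ : T → α := fun t => if ht : ∃ h, g h = t then f ht.choose else d
  have h1 : Finset.univ.image f ⊆ Finset.univ.image ψ := by
    intro x hx
    obtain ⟨h, -, rfl⟩ := Finset.mem_image.mp hx
    refine Finset.mem_image.mpr ⟨g h, Finset.mem_univ _, ?_⟩
    have hex : ∃ h', g h' = g h := ⟨h, rfl⟩
    show (if ht : ∃ h', g h' = g h then f ht.choose else d) = f h
    rw [dif_pos hex]
    exact hfg _ _ hex.choose_spec
  exact (Finset.card_le_card h1).trans (Finset.card_image_le.trans (by rw [Finset.card_univ]))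

theorem count_orbits {p N k : ℕ} {n : Fin p → ℕ}
    (act : ((i : Fin p) → Equiv.Perm (Fin (n i))) →* Equiv.Perm (Fin N))
    (hsupp : ∀ x : Fin N, ∃ A : (i : Fin p) → Finset (Fin (n i)), (∀ i, (A i).card ≤ k) ∧
      ∀ g, (∀ i, ∀ v ∈ A i, g i v = v) → act g x = x)
    (R : Finset (Fin N)) (horb : ∀ x, ∃ y ∈ R, ∃ g, act g y = x)
    (J : Finset (Fin p)) (hJ : ∀ i ∈ J, 1 ≤ n i) :
    ∃ S : Finset (Fin N), S.card ≤ R.card * ∏ i ∈ J, (n i) ^ k ∧
      ∀ x, ∃ y ∈ S, ∃ g, (∀ i ∈ J, g i = 1) ∧ act g y = x := by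
  classical
  let hJ' : ((i : Fin p) → Equiv.Perm (Fin (n i))) → ((i : Fin p) → Equiv.Perm (Fin (n i))) :=
    fun h i => if i ∈ J then h i else 1
  let hI : ((i : Fin p) → Equiv.Perm (Fin (n i))) → ((i : Fin p) → Equiv.Perm (Fin (n i))) :=
    fun h i => if i ∈ J then 1 else h i
  have hmul : ∀ h, hI h * hJ' h = h := by
    intro h
    funext i
    show (if i ∈ J then 1 else h i) * (if i ∈ J then h i else 1) = h i
    by_cases hi : i ∈ J
    · rw [if_pos hi, if_pos hi, one_mul]
    · rw [if_neg hi, if_neg hi, mul_one]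
  refine ⟨R.biUnion fun y => Finset.univ.image fun h => act (hJ' h) y, ?_, ?_⟩
  · refine Finset.card_biUnion_le.trans ?_
    rw [← smul_eq_mul, ← Finset.sum_const]
    refine Finset.sum_le_sum fun y _ => ?_
    obtain ⟨A, hA, hfix⟩ := hsupp y
    have h1 := ct_image (fun h => act (hJ' h) y)
      (fun h : ((i : Fin p) → Equiv.Perm (Fin (n i))) => fun (i : {i // i ∈ J})
        (v : {v // v ∈ A i.1}) => h i.1 v.1) y (by
      intro h h' hh
      have h2 : act ((hJ' h')⁻¹ * hJ' h) y = y := by
        refine hfix _ fun i v hv => ?_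
        show ((hJ' h') i)⁻¹ ((hJ' h) i v) = v
        by_cases hi : i ∈ J
        · have h3 : h i v = h' i v := congrFun (congrFun hh ⟨i, hi⟩) ⟨v, hv⟩
          have e1 : hJ' h i = h i := if_pos hi
          have e2 : hJ' h' i = h' i := if_pos hi
          rw [e1, e2, h3]
          exact (h' i).symm_apply_apply v
        · have e1 : hJ' h i = 1 := if_neg hi
          have e2 : hJ' h' i = 1 := if_neg hi
          rw [e1, e2]
          rfl
      rw [map_mul, map_inv, Equiv.Perm.mul_apply] at h2
      have h3 : act (hJ' h') ((act (hJ' h'))⁻¹ (act (hJ' h) y)) = act (hJ' h') y :=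
        congrArg (act (hJ' h')) h2
      have h4 : act (hJ' h') ((act (hJ' h'))⁻¹ (act (hJ' h) y)) = act (hJ' h) y :=
        Equiv.apply_symm_apply _ _
      exact h4.symm.trans h3)
    refine h1.trans ?_
    rw [Fintype.card_pi]
    have h5 : ∀ i : {i // i ∈ J}, Fintype.card ({v // v ∈ A i.1} → Fin (n i.1)) =
        (n i.1) ^ (A i.1).card := by
      intro i
      rw [Fintype.card_fun, Fintype.card_fin, Fintype.card_coe]
    rw [Finset.prod_congr rfl fun i _ => h5 i]
    rw [Finset.univ_eq_attach, Finset.prod_attach J (fun i => (n i) ^ (A i).card)]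
    refine Finset.prod_le_prod' fun i hi => ?_
    exact Nat.pow_le_pow_right (hJ i hi) (hA i)
  · intro x
    obtain ⟨y, hy, g, hg⟩ := horb x
    refine ⟨act (hJ' g) y, ?_, hI g, ?_, ?_⟩
    · exact Finset.mem_biUnion.mpr ⟨y, hy, Finset.mem_image.mpr ⟨g, Finset.mem_univ _, rfl⟩⟩
    · intro i hi
      exact if_pos hi
    · rw [← Equiv.Perm.mul_apply, ← map_mul, hmul]
      exact hg

end Pool.Agent.XLR.SY
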