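import Pool.Agent.Work.MP_218513_lc.SY.Defs

/-!
# SY/RP (S-M): representatives of the orbits with small common support

PROOF. Let `W` be a set of `k` points (`Finset.exists_subset_card_eq` or similar). The orbit relation
`∃ τ, act τ x = y` is an equivalence relation (`map_one`, `map_mul`, `map_inv`); let `q x` be a chosen representative
(`Quotient.out`): `q x = act τ x` for some `τ` and `q (act τ x) = q x`. For `x0 = q x` choose `S` with `S.card ≤ k`,
`Sup act S x0`, and a permutation `ρ` with `S.image ρ ⊆ W` (`ρ` depends only on `x0`): there is a subset `S' ⊆ W` with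
`S'.card = S.card` and an equivalence `S ≃ S'` extends to a permutation of `V` (`Equiv.extendSubtype` or
`Equiv.Perm.exists_extending...`, or `Finset.exists_equiv_extend...`). `rep x = act ρ x0` is supported by
`S.image ρ ⊆ W` (`Sup.move`, `Sup.mono`).
-/

set_option autoImplicit false
set_option linter.unusedSectionVars false

namespace Pool.Agent.XLR.SY

open Pool.Agent.XLR

variable {V X : Type} [Fintype V] [DecidableEq V] [Fintype X] [DecidableEq X]

private theorem exists_move (W S : Finset V) (h : S.card ≤ W.card) :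
    ∃ ρ : Equiv.Perm V, S.image ρ ⊆ W := by
  obtain ⟨S', hS', hc⟩ := Finset.exists_subset_card_eq h
  let e : {x // x ∈ S} ≃ {x // x ∈ S'} := Finset.equivOfCardEq hc.symm
  refine ⟨e.extendSubtype, ?_⟩
  intro y hy
  obtain ⟨x, hx, rfl⟩ := Finset.mem_image.1 hy
  exact hS' (Equiv.extendSubtype_mem e x hx)

theorem exists_rep (act : Equiv.Perm V →* Equiv.Perm X) {k : ℕ} (hk : k ≤ Fintype.card V)
    (hsupp : ∀ x : X, ∃ S : Finset V, S.card ≤ k ∧ Sup act S x) :
    ∃ (W : Finset V) (rep : X → X), W.card ≤ k ∧ (∀ x, ∃ τ, act τ x = rep x) ∧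
      (∀ x τ, rep (act τ x) = rep x) ∧ ∀ x, Sup act W (rep x) := by
  obtain ⟨W, -, hW⟩ := Finset.exists_subset_card_eq (s := (Finset.univ : Finset V)) (n := k)
    (by rw [Finset.card_univ]; exact hk)
  have hmove : ∀ x : X, ∃ ρ : Equiv.Perm V, Sup act W (act ρ x) := by
    intro x
    obtain ⟨S, hS, hs⟩ := hsupp x
    obtain ⟨ρ, hρ⟩ := exists_move W S (by rw [hW]; exact hS)
    exact ⟨ρ, (hs.move ρ).mono hρ⟩
  choose ρ hρ using hmove
  let s : Setoid X :=
    { r := fun x y => ∃ τ, act τ x = y
      iseqv :=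
        { refl := fun x => ⟨1, by rw [map_one]; rfl⟩
          symm := by
            rintro x y ⟨τ, rfl⟩
            exact ⟨τ⁻¹, by rw [map_inv]; exact Equiv.symm_apply_apply _ _⟩
          trans := by
            rintro x y z ⟨τ, rfl⟩ ⟨σ, rfl⟩
            exact ⟨σ * τ, by rw [map_mul]; rfl⟩ } }
  let q : X → X := fun x => (Quotient.mk s x).out
  have hq : ∀ x, ∃ τ, act τ x = q x := by
    intro x
    have h1 : s.r (q x) x := Quotient.mk_out x
    exact s.iseqv.symm h1
  have hq2 : ∀ x τ, q (act τ x) = q x := by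
    intro x τ
    have h1 : Quotient.mk s (act τ x) = Quotient.mk s x :=
      Quotient.sound (s.iseqv.symm ⟨τ, rfl⟩)
    show (Quotient.mk s (act τ x)).out = (Quotient.mk s x).out
    rw [h1]
  refine ⟨W, fun x => act (ρ (q x)) (q x), le_of_eq hW, ?_, ?_, ?_⟩
  · intro x
    obtain ⟨τ, hτ⟩ := hq x
    refine ⟨ρ (q x) * τ, ?_⟩
    rw [map_mul, Equiv.Perm.mul_apply, hτ]
  · intro x τ
    show act (ρ (q (act τ x))) (q (act τ x)) = act (ρ (q x)) (q x)
    rw [hq2]
  · intro x
    exact hρ (q x)

end Pool.Agent.XLR.SY
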