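import Pool.Agent.Work.MP_218513_lc.SY.CA
import Pool.Agent.Work.MP_218513_lc.SY.RP
import Pool.Agent.Work.MP_218513_lc.SY.AN

/-!
# SY/DI (M): the dichotomy

PROOF. Take `W`, `rep` from `exists_rep` (`k ≤ card V` by `hc`). Let `D G = ∑ x, G x • bas (rep x)` (additive in `G`;
`D (bas x) = bas (rep x)`). CLAIM: `F (D G) = F G` for all `G`. Then `F (G + bas (act τ x)) = F (D G + bas (rep (act τ x)))
= F (D G + bas (rep x)) = F (G + bas x)`.
Proof of the claim: otherwise choose `G` with `F (D G) ≠ F G` for which `N = {x | G x ≠ 0 ∧ ¬ Sup act W x}` has the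
smallest cardinality `μ`.
(a) `μ ≥ 2 l`: otherwise let `T = W ∪ ⋃ x ∈ N, S x` (`S x` the support from `hsupp`), `T.card ≤ k + k * (2 l - 1) = 2 k l`;
every `y` with `G y ≠ 0` is supported by `W` or is in `N`; `T.card + 2 k + 11 l ≤ card V + 1` by `hc`; so `canon` gives
`F (D G) = F G`.
(b) For `t : {x // x ∈ N} → ZMod 2` let `G_t = G + ∑ x : N, t x • (bas x + bas (rep x))`. `D G_t = D G` because
`D (bas x + bas (rep x)) = bas (rep x) + bas (rep (rep x)) = 0` (`rep (rep x) = rep x` by `hrep`). For `t ≠ 0` the set
`{x | G_t x ≠ 0 ∧ ¬ Sup act W x}` is `{x ∈ N | t x = 0}`, smaller than `N` (an element `x'` not supported by `W` is not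
of the form `rep x`, so `G_t x' = G x' + t x'` for `x' ∈ N` and `G_t x' = G x' = 0` for `x' ∉ N`). So `F (G_t) = F (D G_t) =
F (D G)` for `t ≠ 0` and `F (G_0) = F G = F (D G) + 1`. By `sp_point` (`N` nonempty by (a)) and `sp_pull`:
`2 ^ μ ≤ sp F < 4 ^ l`, so `μ < 2 l`, against (a).
-/

set_option autoImplicit false
set_option linter.unusedSectionVars false

namespace Pool.Agent.XLR.SY

open Pool.Agent.XLR

variable {V X : Type} [Fintype V] [DecidableEq V] [Fintype X] [DecidableEq X]

private theorem di_sum {act : Equiv.Perm V →* Equiv.Perm X} {W : Finset V} {rep : X → X}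
    (hW : ∀ x, Sup act W (rep x)) (N : Finset X) (t : {x // x ∈ N} → ZMod 2) {y : X}
    (hy : ¬ Sup act W y) :
    (∑ i, t i • (bas (i : X) + bas (rep (i : X)))) y = if h : y ∈ N then t ⟨y, h⟩ else 0 := by
  rw [Finset.sum_apply]
  have h1 : ∀ i : {x // x ∈ N}, (t i • (bas (i : X) + bas (rep (i : X)))) y =
      if (i : X) = y then t i else 0 := by
    intro i
    have h2 : rep (i : X) ≠ y := fun e => hy (e ▸ hW (i : X))
    rw [Pi.smul_apply, Pi.add_apply]
    unfold bas
    rw [Pi.single_eq_of_ne (Ne.symm h2), add_zero]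
    by_cases h3 : (i : X) = y
    · rw [if_pos h3, ← h3, Pi.single_eq_same, smul_eq_mul, mul_one]
    · rw [if_neg h3, Pi.single_eq_of_ne (Ne.symm h3), smul_zero]
  rw [Finset.sum_congr rfl fun i _ => h1 i]
  by_cases h : y ∈ N
  · rw [dif_pos h, Finset.sum_eq_single ⟨y, h⟩]
    · rw [if_pos rfl]
    · intro i _ hi
      rw [if_neg fun e => hi (Subtype.ext e)]
    · intro h'
      exact absurd (Finset.mem_univ _) h'
  · rw [dif_neg h]
    refine Finset.sum_eq_zero fun i _ => ?_
    rw [if_neg]
    intro e
    exact h (e ▸ i.2)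

theorem dicho {act : Equiv.Perm V →* Equiv.Perm X} {F : (X → ZMod 2) → ZMod 2}
    (hF : Inv act F) {k : ℕ} (hk : 1 ≤ k)
    (hsupp : ∀ x : X, ∃ S : Finset V, S.card ≤ k ∧ Sup act S x)
    {l : ℕ} (hl : 1 ≤ l) (hc : (2 * k + 11) * l + 2 * k ≤ Fintype.card V + 1)
    (hs : sp F < 4 ^ l) (G : X → ZMod 2) (x : X) (τ : Equiv.Perm V) :
    F (G + bas (act τ x)) = F (G + bas x) := by
  classical
  have _ := hk
  have hkV : k ≤ Fintype.card V := by nlinarith
  obtain ⟨W, rep, hWk, hrep, hinv, hW⟩ := exists_rep act hkV hsupp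
  have hrr : ∀ y, rep (rep y) = rep y := by
    intro y
    obtain ⟨σ, hσ⟩ := hrep y
    rw [← hσ, hinv, hσ]
  set D : (X → ZMod 2) →ₗ[ZMod 2] (X → ZMod 2) :=
    Fintype.linearCombination (ZMod 2) (fun y => bas (rep y)) with hD
  have hDa : ∀ G : X → ZMod 2, D G = ∑ y, G y • bas (rep y) := fun G => by
    rw [hD, Fintype.linearCombination_apply]
  have hDb : ∀ y : X, D (bas y) = bas (rep y) := by
    intro y
    rw [hDa]
    rw [Finset.sum_eq_single y]
    · unfold bas
      rw [Pi.single_eq_same, one_smul]
    · intro z _ hz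
      unfold bas
      rw [Pi.single_eq_of_ne hz, zero_smul]
    · intro h
      exact absurd (Finset.mem_univ _) h
  have h2 : ∀ G : X → ZMod 2, G + G = 0 := by
    intro G
    funext y
    have : ∀ a : ZMod 2, a + a = 0 := by decide
    exact this (G y)
  have main : ∀ μ : ℕ, ∀ G : X → ZMod 2,
      (Finset.univ.filter fun y => G y ≠ 0 ∧ ¬ Sup act W y).card = μ → F (D G) = F G := by
    intro μ
    induction μ using Nat.strong_induction_on with
    | _ μ ih =>
      intro G hμ
      set N : Finset X := Finset.univ.filter fun y => G y ≠ 0 ∧ ¬ Sup act W y with hN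
      by_contra hcon
      by_cases hμl : μ < 2 * l
      · -- the canonical form
        choose Sf hSf using hsupp
        set T : Finset V := W ∪ N.biUnion Sf with hT
        have hTc : T.card ≤ 2 * k * l := by
          have e1 : (N.biUnion Sf).card ≤ N.card * k := Finset.card_biUnion_le_card_mul _ _ _
            fun y _ => (hSf y).1
          have e2 : T.card ≤ W.card + (N.biUnion Sf).card := Finset.card_union_le _ _
          have e3 : N.card * k ≤ (2 * l - 1) * k := Nat.mul_le_mul_right k (by omega)
          have e4 : (2 * l - 1) * k + k = 2 * k * l := by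
            obtain ⟨m, rfl⟩ : ∃ m, l = m + 1 := ⟨l - 1, by omega⟩
            rw [show 2 * (m + 1) - 1 = 2 * m + 1 by omega]
            ring
          omega
        have hG : ∀ y, G y ≠ 0 → ∃ S ⊆ T, S.card ≤ k ∧ Sup act S y := by
          intro y hy
          by_cases hyW : Sup act W y
          · exact ⟨W, Finset.subset_union_left, hWk, hyW⟩
          · have hyN : y ∈ N := Finset.mem_filter.mpr ⟨Finset.mem_univ _, hy, hyW⟩
            exact ⟨Sf y, (Finset.subset_biUnion_of_mem Sf hyN).trans Finset.subset_union_right,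
              (hSf y).1, (hSf y).2⟩
        have h3 := canon hF (k := k) hrep hW (Finset.subset_union_left : W ⊆ T) hG hl
          (by nlinarith) hs
        apply hcon
        rw [hDa]
        exact h3
      · have hNne : Nonempty {y // y ∈ N} := by
          have : 0 < N.card := by omega
          obtain ⟨y, hy⟩ := Finset.card_pos.mp this
          exact ⟨⟨y, hy⟩⟩
        set b : {y // y ∈ N} → X → ZMod 2 := fun i => bas (i : X) + bas (rep (i : X)) with hb
        have hDb0 : ∀ i, D (b i) = 0 := by
          intro i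
          rw [hb]
          simp only
          rw [map_add, hDb, hDb, hrr]
          exact h2 _
        have hDG : ∀ t : {y // y ∈ N} → ZMod 2, D (G + ∑ i, t i • b i) = D G := by
          intro t
          rw [map_add, map_sum, Finset.sum_eq_zero, add_zero]
          intro i _
          rw [map_smul, hDb0, smul_zero]
        have hval : ∀ (t : {y // y ∈ N} → ZMod 2) (y : X), ¬ Sup act W y →
            (∑ i, t i • b i) y = if h : y ∈ N then t ⟨y, h⟩ else 0 := by
          intro t y hy
          exact di_sum hW N t hy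
        have hsmall : ∀ t : {y // y ∈ N} → ZMod 2, t ≠ 0 → F (G + ∑ i, t i • b i) = F (D G) := by
          intro t ht
          obtain ⟨i₀, hi₀⟩ : ∃ i, t i ≠ 0 := by
            by_contra hh
            push Not at hh
            exact ht (funext hh)
          have hlt : (Finset.univ.filter fun y => (G + ∑ i, t i • b i) y ≠ 0 ∧
              ¬ Sup act W y).card < N.card := by
            refine Finset.card_lt_card (Finset.ssubset_iff_subset_ne.mpr ⟨?_, ?_⟩)
            · intro y hy
              obtain ⟨-, hy1, hy2⟩ := Finset.mem_filter.mp hy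
              by_contra hyN
              apply hy1
              rw [Pi.add_apply, hval t y hy2, dif_neg hyN, add_zero]
              by_contra hGy
              exact hyN (Finset.mem_filter.mpr ⟨Finset.mem_univ _, hGy, hy2⟩)
            · intro e
              have h4 : (i₀ : X) ∈ N := i₀.2
              have h5 : (i₀ : X) ∈ Finset.univ.filter fun y => (G + ∑ i, t i • b i) y ≠ 0 ∧
                  ¬ Sup act W y := by
                rw [e]
                exact h4
              obtain ⟨-, h6, h7⟩ := Finset.mem_filter.mp h5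
              obtain ⟨-, h8, -⟩ := Finset.mem_filter.mp h4
              apply h6
              rw [Pi.add_apply, hval t _ h7, dif_pos h4]
              have h9 : ∀ a c : ZMod 2, a ≠ 0 → c ≠ 0 → a + c = 0 := by decide
              exact h9 _ _ h8 hi₀
          have h3 := ih _ (by rw [← hμ]; exact hlt) (G + ∑ i, t i • b i) rfl
          rw [← h3, hDG]
        have h0 : F (G + ∑ i, (0 : {y // y ∈ N} → ZMod 2) i • b i) = F (D G) + 1 := by
          rw [Finset.sum_eq_zero (fun i _ => by rw [Pi.zero_apply, zero_smul]), add_zero]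
          have h9 : ∀ a c : ZMod 2, a ≠ c → c = a + 1 := by decide
          exact h9 _ _ hcon
        have h3 := sp_point (fun t : {y // y ∈ N} → ZMod 2 => F (G + ∑ i, t i • b i)) (F (D G))
          h0 hsmall
        have h4 : sp (fun t : {y // y ∈ N} → ZMod 2 => F (G + ∑ i, t i • b i)) ≤ sp F :=
          sp_pull F G b
        rw [Fintype.card_coe, hμ] at h3
        have h5 : 2 ^ (2 * l) ≤ 2 ^ μ := Nat.pow_le_pow_right (by norm_num) (by omega)
        have h6 : (4 : ℕ) ^ l = 2 ^ (2 * l) := by
          rw [pow_mul]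
          norm_num
        omega
  have hclaim : ∀ G : X → ZMod 2, F (D G) = F G := fun G => main _ G rfl
  rw [← hclaim (G + bas (act τ x)), ← hclaim (G + bas x), map_add, map_add, hDb, hDb, hinv]

end Pool.Agent.XLR.SY
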