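import Pool.Agent.Work.MP_218513_lc.Halve

/-!
# SY/Defs (FIXED: do not change; tell helper36 if something is wrong)

Boolean functions that are invariant under permutations of points: XOR log-rank for isomorphism
invariant properties. Everything is over `ZMod 2`; a configuration is a function `X → ZMod 2`.
`iv`, `sg` are defined in the files `Halve.lean`, `Defs.lean` of `MP_218513_lc`.
-/

set_option autoImplicit false
set_option linter.unusedSectionVars false

namespace Pool.Agent.XLR.SY

open Pool.Agent.XLR

section fourier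

variable {ι : Type} [Fintype ι] [DecidableEq ι]

/-- Unnormalised Walsh coefficient of the 0/1 valued function `F`. -/
def WF (F : (ι → ZMod 2) → ZMod 2) (α : ι → ZMod 2) : ℤ := ∑ x, iv (F x) * sg (α ⬝ᵥ x)

/-- Number of nonzero Walsh coefficients of the 0/1 valued function `F`. -/
def sp (F : (ι → ZMod 2) → ZMod 2) : ℕ := (Finset.univ.filter fun α => WF F α ≠ 0).card

/-- Weight. -/
def wt (z : ι → ZMod 2) : ℕ := (Finset.univ.filter fun i => z i = 1).card

end fourier

/-- Number of places where `z` takes the value `s`. -/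
def cnt {U S : Type} [Fintype U] [DecidableEq S] (z : U → S) (s : S) : ℕ :=
  (Finset.univ.filter fun u => z u = s).card

/-- States of a slot. -/
abbrev St : Type := ZMod 2 × ZMod 2

section action

variable {V X : Type} [Fintype V] [DecidableEq V] [Fintype X] [DecidableEq X]

/-- The configuration `G` moved by `π`. -/
def mv (act : Equiv.Perm V →* Equiv.Perm X) (π : Equiv.Perm V) (G : X → ZMod 2) : X → ZMod 2 :=
  fun x => G ((act π).symm x)

/-- The configuration with the single element `x`. -/
def bas (x : X) : X → ZMod 2 := Pi.single x 1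

/-- `F` is invariant. -/
def Inv (act : Equiv.Perm V →* Equiv.Perm X) (F : (X → ZMod 2) → ZMod 2) : Prop :=
  ∀ π G, F (mv act π G) = F G

/-- The set `T` of points supports `x`: `x` is fixed by all permutations that fix `T` pointwise. -/
def Sup (act : Equiv.Perm V →* Equiv.Perm X) (T : Finset V) (x : X) : Prop :=
  ∀ π : Equiv.Perm V, (∀ v ∈ T, π v = v) → act π x = x

theorem mv_one (act : Equiv.Perm V →* Equiv.Perm X) (G : X → ZMod 2) : mv act 1 G = G := by
  funext x
  unfold mv
  rw [map_one]
  rfl

theorem mv_mul (act : Equiv.Perm V →* Equiv.Perm X) (π σ : Equiv.Perm V) (G : X → ZMod 2) :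
    mv act (π * σ) G = mv act π (mv act σ G) := by
  funext x
  unfold mv
  rw [map_mul]
  rfl

theorem mv_add (act : Equiv.Perm V →* Equiv.Perm X) (π : Equiv.Perm V) (G H : X → ZMod 2) :
    mv act π (G + H) = mv act π G + mv act π H := rfl

theorem mv_smul (act : Equiv.Perm V →* Equiv.Perm X) (π : Equiv.Perm V) (c : ZMod 2)
    (G : X → ZMod 2) : mv act π (c • G) = c • mv act π G := rfl

theorem mv_sum (act : Equiv.Perm V →* Equiv.Perm X) (π : Equiv.Perm V) {ι : Type} (s : Finset ι)
    (G : ι → X → ZMod 2) : mv act π (∑ i ∈ s, G i) = ∑ i ∈ s, mv act π (G i) := by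
  funext x
  unfold mv
  rw [Finset.sum_apply, Finset.sum_apply]

theorem mv_bas (act : Equiv.Perm V →* Equiv.Perm X) (π : Equiv.Perm V) (x : X) :
    mv act π (bas x) = bas (act π x) := by
  funext y
  unfold mv bas
  by_cases h : y = act π x
  · subst h
    rw [Equiv.symm_apply_apply, Pi.single_eq_same, Pi.single_eq_same]
  · rw [Pi.single_eq_of_ne h, Pi.single_eq_of_ne]
    intro e
    apply h
    rw [← e, Equiv.apply_symm_apply]

theorem Sup.mono {act : Equiv.Perm V →* Equiv.Perm X} {T T' : Finset V} {x : X}
    (h : Sup act T x) (hT : T ⊆ T') : Sup act T' x := fun π hπ => h π fun v hv => hπ v (hT hv)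

theorem Sup.move {act : Equiv.Perm V →* Equiv.Perm X} {T : Finset V} {x : X}
    (h : Sup act T x) (τ : Equiv.Perm V) : Sup act (T.image τ) (act τ x) := by
  intro π hπ
  have h1 := h (τ⁻¹ * π * τ) fun v hv => by
    rw [Equiv.Perm.mul_apply, Equiv.Perm.mul_apply, hπ (τ v) (Finset.mem_image_of_mem _ hv)]
    exact Equiv.symm_apply_apply τ v
  rw [map_mul, map_mul, map_inv, Equiv.Perm.mul_apply, Equiv.Perm.mul_apply] at h1
  have h2 : act τ ((act τ)⁻¹ (act π (act τ x))) = act τ x := congrArg (act τ) h1
  have h3 : act τ ((act τ)⁻¹ (act π (act τ x))) = act π (act τ x) :=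
    Equiv.apply_symm_apply (act τ) _
  exact h3.symm.trans h2

end action

end Pool.Agent.XLR.SY
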