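import Pool.Agent.Work.MP_218513_lc.SY.Defs

/-!
# SY/FB (S): functions with fibres of the same size differ by a permutation

PROOF. `exists_perm`: for every `s` the fibres `{u // z u = s}` and `{u // z' u = s}` have the same cardinality, so choose
equivalences and put them together: `(Equiv.sigmaFiberEquiv z').symm.trans ((Equiv.sigmaCongrRight e).trans
(Equiv.sigmaFiberEquiv z))` maps `u` to a point where `z` takes the value `z' u`.
`exists_wt`: if `wt z = wt z'` then `cnt z s = cnt z' s` for `s = 1` and (total number `card ι`) for `s = 0`, so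
`z' = z ∘ σ` and `F z' = F z`. Hence `F` factors through `wt`: `Φ w = F z` for some `z` of weight `w` if there is
one, `0` otherwise.
-/

set_option autoImplicit false
set_option linter.unusedSectionVars false

namespace Pool.Agent.XLR.SY

open Pool.Agent.XLR

theorem exists_perm {U S : Type} [Fintype U] [DecidableEq U] [DecidableEq S] (z z' : U → S)
    (h : ∀ s, cnt z s = cnt z' s) : ∃ σ : Equiv.Perm U, z' = z ∘ σ := by
  have hcard : ∀ s, Nonempty ({u // z' u = s} ≃ {u // z u = s}) := by
    intro s
    rw [← Fintype.card_eq, Fintype.card_subtype, Fintype.card_subtype]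
    exact (h s).symm
  let e : ∀ s, {u // z' u = s} ≃ {u // z u = s} := fun s => (hcard s).some
  refine ⟨(Equiv.sigmaFiberEquiv z').symm.trans ((Equiv.sigmaCongrRight e).trans
    (Equiv.sigmaFiberEquiv z)), ?_⟩
  funext u
  exact (e (z' u) ⟨u, rfl⟩).2.symm

theorem exists_wt {ι : Type} [Fintype ι] [DecidableEq ι] (F : (ι → ZMod 2) → ZMod 2)
    (hF : ∀ (σ : Equiv.Perm ι) (z : ι → ZMod 2), F (z ∘ σ) = F z) :
    ∃ Φ : ℕ → ZMod 2, ∀ z, F z = Φ (wt z) := by
  classical
  have hinv : ∀ z z' : ι → ZMod 2, wt z = wt z' → F z = F z' := by
    intro z z' hw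
    have h1 : ∀ s, cnt z s = cnt z' s := by
      have hz : ∀ w : ι → ZMod 2, cnt w 0 + cnt w 1 = Fintype.card ι := by
        intro w
        have h3 := Finset.card_filter_add_card_filter_not (s := (Finset.univ : Finset ι))
          (fun u => w u = 0)
        rw [Finset.card_univ] at h3
        rw [← h3]
        unfold cnt
        congr 1
        refine congrArg Finset.card (Finset.filter_congr fun u _ => ?_)
        generalize w u = a
        revert a
        decide
      have h11 : cnt z 1 = cnt z' 1 := hw
      have h00 : cnt z 0 = cnt z' 0 := by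
        have h4 := hz z
        have h5 := hz z'
        omega
      intro s
      have hs : s = 0 ∨ s = 1 := by
        revert s
        decide
      rcases hs with rfl | rfl
      · exact h00
      · exact h11
    obtain ⟨σ, hσ⟩ := exists_perm z z' h1
    rw [hσ, hF]
  refine ⟨fun w => if hw : ∃ z, wt z = w then F hw.choose else 0, fun z => ?_⟩
  have hw : ∃ z' : ι → ZMod 2, wt z' = wt z := ⟨z, rfl⟩
  show F z = if hw : ∃ z', wt z' = wt z then F hw.choose else 0
  rw [dif_pos hw]
  exact hinv z _ hw.choose_spec.symm

end Pool.Agent.XLR.SY
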