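import Mathlib

/-!
# SY/FD (M): a 0/1 sequence whose `a`-th differences vanish is constant

PROOF. Let `P` be the Lagrange interpolation polynomial (over `ℚ`) with `P.degree < a` and `P.eval l = u l` for
`l < a` (`Lagrange.interpolate`). A polynomial of degree `< a` has vanishing `a`-th differences:
`∑ l ∈ range (a+1), (-1)^l * choose a l * P.eval (x + l) = 0` (Mathlib: `fwdDiff`, see
`Mathlib/Algebra/Group/ForwardDiff.lean`, `fwdDiff_iter_eq_sum_shift` and the lemmas on `fwdDiff_iter` of
polynomials / powers; or induction on `a`: `P (x+1) - P x` has smaller degree). So both `u` and `P` satisfy for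
`i + a ≤ L` the recursion which determines the value at `i + a` from the values at `i, ..., i + a - 1` (the
coefficient for `l = a` is `± 1`): by strong induction `P.eval l = u l` for all `l ≤ L`. One of the values `0`, `1` is
taken by `u` at least `a` times on `{0, ..., L}` (`L + 1 ≥ 2 a`): if each were taken at most `a - 1` times then
`L + 1 ≤ 2 a - 2`. So `P` or `P - 1` has at least `a` roots and degree `< a`, hence is zero
(`Polynomial.eq_zero_of_degree_lt_of_eval_finset_eq_zero`), and `u 0 = u 1` (`L ≥ 1`).
-/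

set_option autoImplicit false

namespace Pool.Agent.XLR.SY

open Polynomial in
private lemma fd_poly (P : ℚ[X]) {a : ℕ} (hP : P.natDegree < a) (x : ℚ) :
    ∑ l ∈ Finset.range (a + 1), (-1 : ℚ) ^ l * (a.choose l : ℚ) * P.eval (x + l) = 0 := by
  have h1 := congrFun (Polynomial.fwdDiff_iter_eq_zero_of_degree_lt hP) x
  rw [fwdDiff_iter_eq_sum_shift] at h1
  have h2 : ∑ l ∈ Finset.range (a + 1), (-1 : ℚ) ^ l * (a.choose l : ℚ) * P.eval (x + l) =
      (-1 : ℚ) ^ a * ∑ k ∈ Finset.range (a + 1),
        ((-1 : ℤ) ^ (a - k) * (a.choose k : ℤ)) • P.eval (x + k • (1 : ℚ)) := by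
    rw [Finset.mul_sum]
    refine Finset.sum_congr rfl fun k hk => ?_
    have hk' : k ≤ a := by
      have := Finset.mem_range.1 hk
      omega
    have h3 : (-1 : ℚ) ^ k = (-1 : ℚ) ^ a * (-1 : ℚ) ^ (a - k) := by
      obtain ⟨d, rfl⟩ := Nat.exists_eq_add_of_le hk'
      rw [Nat.add_sub_cancel_left, pow_add, mul_assoc, ← pow_add, ← two_mul, pow_mul]
      norm_num
    rw [h3, zsmul_eq_mul, nsmul_eq_mul, mul_one]
    push_cast
    ring
  rw [h2, h1]
  simp

theorem fd_const {a L : ℕ} (ha : 1 ≤ a) (hL : 2 * a ≤ L + 1) (u : ℕ → ℤ)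
    (hu : ∀ l, l ≤ L → u l = 0 ∨ u l = 1)
    (h : ∀ i, i + a ≤ L → ∑ l ∈ Finset.range (a + 1), (-1) ^ l * (a.choose l : ℤ) * u (i + l) = 0) :
    u 0 = u 1 := by
  classical
  have hinj : Set.InjOn (fun l : ℕ => (l : ℚ)) (Finset.range a : Set ℕ) := fun x _ y _ hxy =>
    Nat.cast_injective hxy
  obtain ⟨P, hPdef⟩ : ∃ P : Polynomial ℚ, P = Lagrange.interpolate (Finset.range a)
    (fun l : ℕ => (l : ℚ)) (fun l => (u l : ℚ)) := ⟨_, rfl⟩
  have hdeg : P.degree < a := by
    rw [hPdef]
    have := Lagrange.degree_interpolate_lt (r := fun l => (u l : ℚ)) hinj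
    rwa [Finset.card_range] at this
  have hnode : ∀ l, l < a → P.eval (l : ℚ) = u l := by
    intro l hl
    rw [hPdef]
    exact Lagrange.eval_interpolate_at_node (r := fun l => (u l : ℚ)) hinj (Finset.mem_range.2 hl)
  have hnat : P.natDegree < a := by
    rcases eq_or_ne P 0 with h0 | h0
    · rw [h0, Polynomial.natDegree_zero]
      omega
    · rw [Polynomial.natDegree_lt_iff_degree_lt h0]
      exact hdeg
  have hall : ∀ l, l ≤ L → P.eval (l : ℚ) = u l := by
    intro l
    induction l using Nat.strong_induction_on with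
    | _ l ih =>
      intro hl
      rcases lt_or_ge l a with hla | hla
      · exact hnode l hla
      · obtain ⟨i, rfl⟩ := Nat.exists_eq_add_of_le' hla
        have h1 := fd_poly P hnat (i : ℚ)
        have h2 : ((∑ l ∈ Finset.range (a + 1), (-1) ^ l * (a.choose l : ℤ) * u (i + l) : ℤ) : ℚ) =
            0 := by rw [h i hl]; rfl
        push_cast at h2
        rw [Finset.sum_range_succ] at h1 h2
        have h3 : ∑ l ∈ Finset.range a, (-1 : ℚ) ^ l * (a.choose l : ℚ) * P.eval ((i : ℚ) + l) =
            ∑ l ∈ Finset.range a, (-1 : ℚ) ^ l * (a.choose l : ℚ) * (u (i + l) : ℚ) := by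
          refine Finset.sum_congr rfl fun l hl' => ?_
          have hl2 := Finset.mem_range.1 hl'
          have h4 := ih (i + l) (by omega) (by omega)
          push_cast at h4
          rw [h4]
        rw [h3] at h1
        have h5 : (-1 : ℚ) ^ a * (a.choose a : ℚ) * P.eval ((i : ℚ) + a) =
            (-1 : ℚ) ^ a * (a.choose a : ℚ) * (u (i + a) : ℚ) := by linarith
        have h6 : (-1 : ℚ) ^ a * (a.choose a : ℚ) ≠ 0 := by
          rw [Nat.choose_self]
          simp
        have h7 := mul_left_cancel₀ h6 h5
        push_cast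
        exact h7
  have hinj' : ∀ s : Finset ℕ, Set.InjOn (fun l : ℕ => (l : ℚ)) (s : Set ℕ) := fun s x _ y _ hxy =>
    Nat.cast_injective hxy
  have hcard : a ≤ ((Finset.range (L + 1)).filter fun l => u l = 0).card ∨
      a ≤ ((Finset.range (L + 1)).filter fun l => u l = 1).card := by
    have h1 := Finset.card_filter_add_card_filter_not (s := Finset.range (L + 1))
      (fun l => u l = 0)
    have h2 : ((Finset.range (L + 1)).filter fun l => ¬ u l = 0).card ≤
        ((Finset.range (L + 1)).filter fun l => u l = 1).card := by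
      apply Finset.card_le_card
      intro l hl
      rw [Finset.mem_filter, Finset.mem_range] at hl ⊢
      refine ⟨hl.1, ?_⟩
      rcases hu l (by omega) with h3 | h3
      · exact absurd h3 hl.2
      · exact h3
    rw [Finset.card_range] at h1
    omega
  have hconst : ∃ c : ℚ, ∀ x : ℚ, P.eval x = c := by
    rcases hcard with hc | hc
    · refine ⟨0, fun x => ?_⟩
      have h1 : P = 0 := by
        refine Polynomial.eq_zero_of_degree_lt_of_eval_index_eq_zero (v := fun l : ℕ => (l : ℚ))
          (s := (Finset.range (L + 1)).filter fun l => u l = 0) (hinj' _) ?_ ?_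
        · exact lt_of_lt_of_le hdeg (by exact_mod_cast hc)
        · intro l hl
          rw [Finset.mem_filter, Finset.mem_range] at hl
          rw [hall l (by omega), hl.2]
          rfl
      rw [h1, Polynomial.eval_zero]
    · refine ⟨1, fun x => ?_⟩
      have h1 : P - Polynomial.C 1 = 0 := by
        refine Polynomial.eq_zero_of_degree_lt_of_eval_index_eq_zero (v := fun l : ℕ => (l : ℚ))
          (s := (Finset.range (L + 1)).filter fun l => u l = 1) (hinj' _) ?_ ?_
        · refine lt_of_lt_of_le ?_ (by exact_mod_cast hc : (a : WithBot ℕ) ≤ _)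
          refine lt_of_le_of_lt (Polynomial.degree_sub_le _ _) (max_lt hdeg ?_)
          refine lt_of_le_of_lt Polynomial.degree_C_le ?_
          exact_mod_cast ha
        · intro l hl
          rw [Finset.mem_filter, Finset.mem_range] at hl
          rw [Polynomial.eval_sub, Polynomial.eval_C, hall l (by omega), hl.2]
          norm_num
      have h2 := sub_eq_zero.1 h1
      rw [h2, Polynomial.eval_C]
  obtain ⟨c, hc⟩ := hconst
  have h0 := hall 0 (by omega)
  have h1 := hall 1 (by omega)
  rw [hc] at h0 h1
  have h2 : (u 0 : ℚ) = u 1 := by rw [← h0, ← h1]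
  exact_mod_cast h2

end Pool.Agent.XLR.SY
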