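import Pool.Agent.Work.MP_218513_lc.SY.Defs

/-!
# SY/PR (S-M): functions of the parities of the classes

`F` is unchanged if an element `a` is replaced by a related element `b` (hypothesis `h`; `r` is an equivalence relation).
PROOF. `par_of_swap`: strong induction on the number of `a` with `x a ≠ y a`. If `x ≠ y` take `a` with `x a ≠ y a`. The number
of the `b` with `r a b`, `x b ≠ y b` is even and at least one (`b = a`), so there is another one, `b ≠ a`. Let
`x' = x + bas a + bas b`: `x'` agrees with `y` at `a` and `b` and with `x` elsewhere. `F x' = F ((x + bas a) + bas b) =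
F ((x + bas a) + bas a) = F x` (`bas a + bas a = 0`), and `x'`, `y` satisfy the hypothesis (the classes of `a` and `b` are the
same; two elements less; for the other classes no change).
`canon_of_swap`: the configurations `∑ x, G x • bas (s x)` and `G` differ by replacing `x` by `s x` one at a time
(induction over a finset `Y` of elements that have been replaced, as in `CA.lean`).
-/

set_option autoImplicit false
set_option linter.unusedSectionVars false

namespace Pool.Agent.XLR.SY

open Pool.Agent.XLR

variable {X : Type} [Fintype X] [DecidableEq X]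

theorem par_of_swap (r : X → X → Prop) [DecidableRel r] (hr : Equivalence r)
    (F : (X → ZMod 2) → ZMod 2) (h : ∀ G a b, r a b → F (G + bas b) = F (G + bas a))
    (x y : X → ZMod 2)
    (hxy : ∀ a, Even (Finset.univ.filter fun b => r a b ∧ x b ≠ y b).card) : F x = F y := by
  have key : ∀ s t : ZMod 2, s ≠ t → s + 1 = t := by decide
  have hbb : ∀ a : X, bas a + bas a = 0 := by
    intro a
    funext c
    show bas a c + bas a c = 0
    exact CharTwo.add_self_eq_zero _
  suffices H : ∀ (n : ℕ) (x : X → ZMod 2), (Finset.univ.filter fun b => x b ≠ y b).card = n →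
      (∀ a, Even (Finset.univ.filter fun b => r a b ∧ x b ≠ y b).card) → F x = F y from
    H _ x rfl hxy
  intro n
  induction n using Nat.strong_induction_on with
  | _ n ih =>
    intro x hn hx
    by_cases hxy0 : x = y
    · rw [hxy0]
    obtain ⟨a, ha⟩ : ∃ a, x a ≠ y a := by
      by_contra hcon
      push Not at hcon
      exact hxy0 (funext hcon)
    obtain ⟨b, hb1, hb2⟩ : ∃ b ∈ (Finset.univ.filter fun b => r a b ∧ x b ≠ y b), b ≠ a := by
      by_contra hcon
      push Not at hcon
      have h1 : (Finset.univ.filter fun b => r a b ∧ x b ≠ y b) = {a} := by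
        ext c
        rw [Finset.mem_singleton]
        constructor
        · exact hcon c
        · rintro rfl
          exact Finset.mem_filter.2 ⟨Finset.mem_univ _, hr.refl _, ha⟩
      have h2 := hx a
      rw [h1, Finset.card_singleton] at h2
      exact absurd h2 (by decide)
    obtain ⟨-, hrab, hb⟩ := Finset.mem_filter.1 hb1
    have hx'a : (x + bas a + bas b) a = y a := by
      show x a + bas a a + bas b a = y a
      have h1 : bas a a = 1 := Pi.single_eq_same _ _
      have h2 : bas b a = 0 := Pi.single_eq_of_ne (Ne.symm hb2) _
      rw [h1, h2, add_zero]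
      exact key _ _ ha
    have hx'b : (x + bas a + bas b) b = y b := by
      show x b + bas a b + bas b b = y b
      have h1 : bas a b = 0 := Pi.single_eq_of_ne hb2 _
      have h2 : bas b b = 1 := Pi.single_eq_same _ _
      rw [h1, h2, add_zero]
      exact key _ _ hb
    have hx'c : ∀ c, c ≠ a → c ≠ b → (x + bas a + bas b) c = x c := by
      intro c hca hcb
      show x c + bas a c + bas b c = x c
      have h1 : bas a c = 0 := Pi.single_eq_of_ne hca _
      have h2 : bas b c = 0 := Pi.single_eq_of_ne hcb _
      rw [h1, h2, add_zero, add_zero]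
    have hF : F (x + bas a + bas b) = F x := by
      rw [h _ a b hrab, add_assoc, hbb, add_zero]
    have hfil : ∀ (P : X → Prop) [DecidablePred P],
        (Finset.univ.filter fun c => P c ∧ (x + bas a + bas b) c ≠ y c) =
          ((Finset.univ.filter fun c => P c ∧ x c ≠ y c).erase a).erase b := by
      intro P _
      ext c
      rw [Finset.mem_erase, Finset.mem_erase, Finset.mem_filter, Finset.mem_filter]
      by_cases hca : c = a
      · subst hca
        simp [hx'a]
      by_cases hcb : c = b
      · subst hcb
        simp [hx'b]
      rw [hx'c c hca hcb]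
      simp [hca, hcb]
    rw [← hF]
    refine ih (Finset.univ.filter fun c => (x + bas a + bas b) c ≠ y c).card ?_ _ rfl ?_
    · rw [← hn]
      apply Finset.card_lt_card
      rw [Finset.ssubset_iff_of_subset]
      · refine ⟨a, Finset.mem_filter.2 ⟨Finset.mem_univ _, ha⟩, ?_⟩
        intro h1
        exact (Finset.mem_filter.1 h1).2 hx'a
      · intro c hc
        have h1 := (Finset.mem_filter.1 hc).2
        refine Finset.mem_filter.2 ⟨Finset.mem_univ _, ?_⟩
        by_cases hca : c = a
        · exact absurd (hca ▸ hx'a) h1
        by_cases hcb : c = b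
        · exact absurd (hcb ▸ hx'b) h1
        rw [hx'c c hca hcb] at h1
        exact h1
    · intro c
      rw [hfil (r c)]
      by_cases hca : r c a
      · have hcb : r c b := hr.trans hca hrab
        have h1 : b ∈ (Finset.univ.filter fun d => r c d ∧ x d ≠ y d).erase a :=
          Finset.mem_erase.2 ⟨hb2, Finset.mem_filter.2 ⟨Finset.mem_univ _, hcb, hb⟩⟩
        have h2 : a ∈ (Finset.univ.filter fun d => r c d ∧ x d ≠ y d) :=
          Finset.mem_filter.2 ⟨Finset.mem_univ _, hca, ha⟩
        have h3 := Finset.card_erase_add_one h1
        have h4 := Finset.card_erase_add_one h2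
        have h5 := hx c
        rw [← h4, ← h3] at h5
        rw [Nat.even_iff] at h5 ⊢
        omega
      · have hcb : ¬ r c b := fun h1 => hca (hr.trans h1 (hr.symm hrab))
        have h1 : a ∉ (Finset.univ.filter fun d => r c d ∧ x d ≠ y d) := fun h2 =>
          hca (Finset.mem_filter.1 h2).2.1
        have h2 : b ∉ (Finset.univ.filter fun d => r c d ∧ x d ≠ y d) := fun h2 =>
          hcb (Finset.mem_filter.1 h2).2.1
        rw [Finset.erase_eq_of_notMem h1, Finset.erase_eq_of_notMem h2]
        exact hx c

theorem canon_of_swap (F : (X → ZMod 2) → ZMod 2) (s : X → X)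
    (h : ∀ G a, F (G + bas (s a)) = F (G + bas a)) (G : X → ZMod 2) :
    F (∑ x, G x • bas (s x)) = F G := by
  have key : ∀ (Y : Finset X) (H : X → ZMod 2),
      F (H + ∑ x ∈ Y, G x • bas (s x)) = F (H + ∑ x ∈ Y, G x • bas x) := by
    intro Y
    induction Y using Finset.induction_on with
    | empty =>
      intro H
      rfl
    | insert a Y haY ih =>
      intro H
      rw [Finset.sum_insert haY, Finset.sum_insert haY, ← add_assoc, ih]
      rcases (by decide : ∀ t : ZMod 2, t = 0 ∨ t = 1) (G a) with h0 | h1
      · rw [h0, zero_smul, zero_smul, add_zero, zero_add]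
      · rw [h1, one_smul, one_smul]
        calc F (H + bas (s a) + ∑ x ∈ Y, G x • bas x)
            = F (H + ∑ x ∈ Y, G x • bas x + bas (s a)) := by
              congr 1
              abel
          _ = F (H + ∑ x ∈ Y, G x • bas x + bas a) := h _ a
          _ = F (H + (bas a + ∑ x ∈ Y, G x • bas x)) := by
              congr 1
              abel
  have h1 : ∑ x, G x • bas x = G := by
    funext c
    rw [Finset.sum_apply, Finset.sum_eq_single c]
    · show G c • bas c c = G c
      have h2 : bas c c = 1 := Pi.single_eq_same _ _
      rw [h2, smul_eq_mul, mul_one]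
    · intro b _ hbc
      show G b • bas b c = 0
      have h2 : bas b c = 0 := Pi.single_eq_of_ne (Ne.symm hbc) _
      rw [h2, smul_zero]
    · intro h2
      exact absurd (Finset.mem_univ _) h2
  have h2 := key Finset.univ 0
  rw [zero_add, zero_add, h1] at h2
  exact h2

end Pool.Agent.XLR.SY
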