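import Pool.Agent.Work.MP_218513_lc.SY.Defs
import Pool.Agent.Work.MP_218513_lc.Tree

/-!
# SY/TR (S): a function of few parities has a small parity decision tree

PROOF. `∑ x, G x • bas (s x) = ∑ y ∈ S, (∑ x with s x = y, G x) • bas y` depends only on the `S.card` parities
`α_y ⬝ᵥ G`, `α_y x = if s x = y then 1 else 0`. Query them all: `PT.query` in `Tree.lean` (with leaves of height `0`; on
the set of the `G` with given answers the function is constant), or direct induction. `S.equivFin` numbers the elements
of `S`.
-/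

set_option autoImplicit false
set_option linter.unusedSectionVars false

namespace Pool.Agent.XLR.SY

open Pool.Agent.XLR

theorem tree_of_rep {N : ℕ} (F : (Fin N → ZMod 2) → ZMod 2) (S : Finset (Fin N))
    (s : Fin N → Fin N) (hs : ∀ x, s x ∈ S) (h : ∀ G, F (∑ x, G x • bas (s x)) = F G) :
    PT S.card F := by
  classical
  let e := S.equivFin
  let α : Fin S.card → (Fin N → ZMod 2) := fun j x => if s x = (e.symm j : Fin N) then 1 else 0
  let g : (Fin S.card → ZMod 2) → ((Fin N → ZMod 2) → ZMod 2) :=
    fun a _ => F (∑ j, a j • bas (e.symm j : Fin N))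
  have hg : ∀ a, PT 0 (g a) := fun a => PT.leaf _
  have key := PT.query S.card 0 α g hg
  rw [Nat.add_zero] at key
  have e1 : (fun x => g (fun i => α i ⬝ᵥ x) x) = F := by
    funext G
    show F (∑ j, (α j ⬝ᵥ G) • bas (e.symm j : Fin N)) = F G
    rw [← h G]
    congr 1
    have h1 : ∀ j, (α j ⬝ᵥ G) • bas (e.symm j : Fin N)
        = ∑ y, (α j y * G y) • bas (e.symm j : Fin N) := fun j => by
      unfold dotProduct
      rw [Finset.sum_smul]
    rw [Finset.sum_congr rfl fun j _ => h1 j, Finset.sum_comm]
    refine Finset.sum_congr rfl fun y _ => ?_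
    rw [Finset.sum_eq_single (e ⟨s y, hs y⟩)]
    · rw [Equiv.symm_apply_apply]
      show ((if s y = (e.symm (e ⟨s y, hs y⟩) : Fin N) then (1 : ZMod 2) else 0) * G y) • bas (s y)
        = G y • bas (s y)
      rw [Equiv.symm_apply_apply, if_pos rfl, one_mul]
    · intro j _ hj
      show ((if s y = (e.symm j : Fin N) then (1 : ZMod 2) else 0) * G y) • bas (e.symm j : Fin N) = 0
      rw [if_neg, zero_mul, zero_smul]
      intro hc
      apply hj
      have h2 : (⟨s y, hs y⟩ : {x // x ∈ S}) = e.symm j := Subtype.ext hc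
      rw [h2, Equiv.apply_symm_apply]
    · intro hn
      exact absurd (Finset.mem_univ _) hn
  rw [e1] at key
  exact key

end Pool.Agent.XLR.SY
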