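import Pool.Agent.Work.MP_218513_lc.SY.DI
import Pool.Agent.Work.MP_218513_lc.SY.CT
import Pool.Agent.Work.MP_218513_lc.SY.TR
import Pool.Agent.Work.MP_218513_lc.SY.PR
import Pool.Agent.Work.MP_218513_lc.CertFinal

/-!
# SY/FI (M): the theorem

PROOF. `F = toF f` (`F x = toZ (f (xb x))`), `sps f = sp F` (`sps_eq`; `spar` and `sp` have the same definition).
`L = Nat.log 2 (sps f)`, `l = L / 2 + 1`: `sps f < 2 ^ (L + 1) ≤ 4 ^ l` (`Nat.lt_pow_succ_log_self`; `2 l ≥ L + 1`).
For a sort `i` let `act_i = act.comp (MonoidHom.mulSingle _ i) : Perm (Fin (n i)) →* Perm (Fin N)`. `Inv act_i F` from `hf`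
(`F (mv act_i π G) = toZ (f (xb (fun x => G ((act_i π).symm x))))`, `(act g).symm = act g⁻¹`). Supports: `A i` from `hsupp`.
If `8 * k * (L + 2) < n i` then `(2 k + 11) l + 2 k ≤ n i + 1`: `(2 k + 11) l + 2 k ≤ 13 k l + 2 k ≤ 15 k l` and
`15 k (L / 2 + 1) ≤ 8 k (L + 2)`. So `dicho` gives: `F (G + bas (act_i τ x)) = F (G + bas x)` (*).
(1) `par_of_swap` with the relation `∃ π, act_i π a = b`, translated to `f` (`f x = f y` iff `F (xz x) = F (xz y)`,
`xz x b ≠ xz y b` iff `x b ≠ y b`).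
(2) `J` = the sorts with `n i ≤ 8 k (L + 2)` and `1 ≤ n i`. For `i ∉ J` (*) holds (trivially if `n i = 0`: the group is trivial).
`count_orbits` gives `S`; choose `s x ∈ S` and `g` with `g i = 1` for `i ∈ J`, `act g (s x) = x`. `F (G + bas (s x)) =
F (G + bas x)`: `g` is the product of its components for `i ∉ J`, apply (*) one component at a time (induction over a
finset of sorts: `F (G + bas (act (g restricted to I') y)) = F (G + bas y)`; restricted to `insert i I'` it is
`Pi.mulSingle i (g i) * (g restricted to I')`). `canon_of_swap`, `tree_of_rep`: `PT S.card F`, `DTle_of_PT`,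
`DTle S.card f` (see the end of `low_degree_norm` in `Final.lean`). `S.card ≤ R.card * ∏ i ∈ J, (n i) ^ k ≤
R.card * (8 k (L + 2)) ^ (k * p)` (`J.card ≤ p`, `8 k (L + 2) ≥ 1`), `PT.mono`.
-/

set_option autoImplicit false
set_option linter.unusedSectionVars false

namespace Pool.Agent.XLR.SY

open Pool.Agent.XLR

private theorem fi_log (s : ℕ) : s < 4 ^ (Nat.log 2 s / 2 + 1) := by
  have h1 := Nat.lt_pow_succ_log_self (b := 2) (by norm_num) s
  have h2 : (2 : ℕ) ^ (Nat.log 2 s + 1) ≤ 2 ^ (2 * (Nat.log 2 s / 2 + 1)) :=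
    Nat.pow_le_pow_right (by norm_num) (by omega)
  have h3 : (4 : ℕ) ^ (Nat.log 2 s / 2 + 1) = 2 ^ (2 * (Nat.log 2 s / 2 + 1)) := by
    rw [pow_mul]
    norm_num
  rw [h3]
  exact lt_of_lt_of_le h1 h2

private theorem fi_arith {k L m : ℕ} (hk : 1 ≤ k) (h : 8 * k * (L + 2) < m) :
    (2 * k + 11) * (L / 2 + 1) + 2 * k ≤ m + 1 := by
  have hq : 2 * (L / 2 + 1) ≤ L + 2 := by omega
  generalize hq' : L / 2 + 1 = q at *
  have hq1 : 1 ≤ q := by omega
  have h1 : 8 * k * (2 * q) ≤ 8 * k * (L + 2) := Nat.mul_le_mul_left _ hq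
  have h2 : (2 * k + 11) * q + 2 * k ≤ 8 * k * (2 * q) := by
    nlinarith [Nat.mul_le_mul hk hq1, Nat.mul_le_mul hk (le_refl q), Nat.mul_le_mul (le_refl k) hq1]
  omega

private theorem fi_inv {p N : ℕ} {n : Fin p → ℕ}
    (act : ((i : Fin p) → Equiv.Perm (Fin (n i))) →* Equiv.Perm (Fin N))
    (f : (Fin N → Bool) → Bool) (hf : ∀ g x, f (fun a => x (act g a)) = f x) (i : Fin p) :
    Inv (act.comp (MonoidHom.mulSingle (fun i => Equiv.Perm (Fin (n i))) i)) (toF f) := by
  intro π G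
  have h1 := hf (Pi.mulSingle i π)⁻¹ (xb G)
  have h2 : (act (Pi.mulSingle i π)).symm = act (Pi.mulSingle i π)⁻¹ := by
    rw [map_inv]
    rfl
  show toZ (f (xb (fun x => G ((act (Pi.mulSingle i π)).symm x)))) = toZ (f (xb G))
  rw [h2]
  exact congrArg toZ h1

private theorem fi_supp {p N k : ℕ} {n : Fin p → ℕ}
    (act : ((i : Fin p) → Equiv.Perm (Fin (n i))) →* Equiv.Perm (Fin N))
    (hsupp : ∀ x : Fin N, ∃ A : (i : Fin p) → Finset (Fin (n i)), (∀ i, (A i).card ≤ k) ∧
      ∀ g, (∀ i, ∀ v ∈ A i, g i v = v) → act g x = x) (i : Fin p) (x : Fin N) :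
    ∃ S : Finset (Fin (n i)), S.card ≤ k ∧
      Sup (act.comp (MonoidHom.mulSingle (fun i => Equiv.Perm (Fin (n i))) i)) S x := by
  obtain ⟨A, hA, hA'⟩ := hsupp x
  refine ⟨A i, hA i, fun π hπ => ?_⟩
  show act (Pi.mulSingle i π) x = x
  apply hA'
  intro j v hv
  by_cases hj : j = i
  · subst hj
    rw [Pi.mulSingle_eq_same]
    exact hπ v hv
  · rw [Pi.mulSingle_eq_of_ne hj]
    rfl

private theorem fi_swap {p N k : ℕ} {n : Fin p → ℕ} (hk : 1 ≤ k)
    (act : ((i : Fin p) → Equiv.Perm (Fin (n i))) →* Equiv.Perm (Fin N))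
    (hsupp : ∀ x : Fin N, ∃ A : (i : Fin p) → Finset (Fin (n i)), (∀ i, (A i).card ≤ k) ∧
      ∀ g, (∀ i, ∀ v ∈ A i, g i v = v) → act g x = x)
    (f : (Fin N → Bool) → Bool) (hf : ∀ g x, f (fun a => x (act g a)) = f x) (i : Fin p)
    (hi : 8 * k * (Nat.log 2 (sps f) + 2) < n i) (G : Fin N → ZMod 2) (x : Fin N)
    (τ : Equiv.Perm (Fin (n i))) :
    toF f (G + bas (act (Pi.mulSingle i τ) x)) = toF f (G + bas x) := by
  have hs : sp (toF f) < 4 ^ (Nat.log 2 (sps f) / 2 + 1) := by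
    have h1 : sp (toF f) = sps f := sps_eq f
    rw [h1]
    exact fi_log _
  have hc : (2 * k + 11) * (Nat.log 2 (sps f) / 2 + 1) + 2 * k ≤ Fintype.card (Fin (n i)) + 1 := by
    rw [Fintype.card_fin]
    exact fi_arith hk hi
  exact dicho (fi_inv act f hf i) hk (fi_supp act hsupp i) (by omega) hc hs G x τ

private theorem fi_all {p N k : ℕ} {n : Fin p → ℕ} (hk : 1 ≤ k)
    (act : ((i : Fin p) → Equiv.Perm (Fin (n i))) →* Equiv.Perm (Fin N))
    (hsupp : ∀ x : Fin N, ∃ A : (i : Fin p) → Finset (Fin (n i)), (∀ i, (A i).card ≤ k) ∧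
      ∀ g, (∀ i, ∀ v ∈ A i, g i v = v) → act g x = x)
    (f : (Fin N → Bool) → Bool) (hf : ∀ g x, f (fun a => x (act g a)) = f x)
    (h : (i : Fin p) → Equiv.Perm (Fin (n i)))
    (hh : ∀ i, n i ≤ 8 * k * (Nat.log 2 (sps f) + 2) → 1 ≤ n i → h i = 1)
    (G : Fin N → ZMod 2) (y : Fin N) (I' : Finset (Fin p)) :
    toF f (G + bas (act (fun i => if i ∈ I' then h i else 1) y)) = toF f (G + bas y) := by
  induction I' using Finset.induction_on with
  | empty =>
    have e : (fun i => if i ∈ (∅ : Finset (Fin p)) then h i else 1) = 1 := by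
      funext i
      rw [if_neg (Finset.notMem_empty i)]
      rfl
    rw [e, map_one]
    rfl
  | insert i I' hi ih =>
    have e : (fun j => if j ∈ insert i I' then h j else 1)
        = Pi.mulSingle i (h i) * (fun j => if j ∈ I' then h j else 1) := by
      funext j
      rw [Pi.mul_apply]
      by_cases hj : j = i
      · subst hj
        rw [if_pos (Finset.mem_insert_self _ _), Pi.mulSingle_eq_same, if_neg hi, mul_one]
      · rw [Pi.mulSingle_eq_of_ne hj, one_mul]
        by_cases hj' : j ∈ I'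
        · rw [if_pos hj', if_pos (Finset.mem_insert_of_mem hj')]
        · rw [if_neg hj', if_neg]
          intro hc
          rcases Finset.mem_insert.1 hc with hc | hc
          · exact hj hc
          · exact hj' hc
    rw [e, map_mul, Equiv.Perm.mul_apply, ← ih]
    by_cases h1 : h i = 1
    · rw [h1, Pi.mulSingle_one, map_one]
      rfl
    · apply fi_swap hk act hsupp f hf i
      by_contra hlt
      have h2 : n i ≤ 8 * k * (Nat.log 2 (sps f) + 2) := not_lt.1 hlt
      by_cases h0 : 1 ≤ n i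
      · exact h1 (hh i h2 h0)
      · have h0' : n i = 0 := by omega
        have : IsEmpty (Fin (n i)) := by
          rw [h0']
          exact Fin.isEmpty
        exact h1 (Subsingleton.elim _ _)

private theorem fi_ne (a b : Bool) : a ≠ b ↔ toZ a ≠ toZ b := by
  revert a b
  decide

private theorem fi_toZ_inj {a b : Bool} (h : toZ a = toZ b) : a = b := by
  revert a b
  decide

open Classical in
theorem sym_main {p N k : ℕ} {n : Fin p → ℕ} (hk : 1 ≤ k)
    (act : ((i : Fin p) → Equiv.Perm (Fin (n i))) →* Equiv.Perm (Fin N))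
    (hsupp : ∀ x : Fin N, ∃ A : (i : Fin p) → Finset (Fin (n i)), (∀ i, (A i).card ≤ k) ∧
      ∀ g, (∀ i, ∀ v ∈ A i, g i v = v) → act g x = x)
    (R : Finset (Fin N)) (horb : ∀ x, ∃ y ∈ R, ∃ g, act g y = x)
    (f : (Fin N → Bool) → Bool) (hf : ∀ g x, f (fun a => x (act g a)) = f x) :
    (∀ i, 8 * k * (Nat.log 2 (sps f) + 2) < n i → ∀ x y : Fin N → Bool,
      (∀ a, Even (Finset.univ.filter fun b =>
        (∃ π : Equiv.Perm (Fin (n i)), act (Pi.mulSingle i π) a = b) ∧ x b ≠ y b).card) →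
        f x = f y) ∧
    DTle (R.card * (8 * k * (Nat.log 2 (sps f) + 2)) ^ (k * p)) f := by
  have hF0 : ∀ x : Fin N → Bool, toF f (xz x) = toZ (f x) := fun x => by
    unfold toF
    rw [xb_xz]
  constructor
  · intro i hi x y hxy
    have key : toF f (xz x) = toF f (xz y) := by
      refine par_of_swap (fun a b : Fin N => ∃ π : Equiv.Perm (Fin (n i)), act (Pi.mulSingle i π) a = b)
        ⟨?_, ?_, ?_⟩ (toF f) ?_ (xz x) (xz y) ?_
      · intro a
        refine ⟨1, ?_⟩
        rw [Pi.mulSingle_one, map_one]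
        rfl
      · rintro a b ⟨π, hπ⟩
        refine ⟨π⁻¹, ?_⟩
        rw [← hπ, ← Equiv.Perm.mul_apply, ← map_mul, ← Pi.mulSingle_mul, inv_mul_cancel,
          Pi.mulSingle_one, map_one]
        rfl
      · rintro a b c ⟨π, hπ⟩ ⟨σ, hσ⟩
        refine ⟨σ * π, ?_⟩
        rw [Pi.mulSingle_mul, map_mul, Equiv.Perm.mul_apply, hπ, hσ]
      · rintro G a b ⟨π, hπ⟩
        rw [← hπ]
        exact fi_swap hk act hsupp f hf i hi G a π
      · intro a
        have h1 := hxy a
        rw [Finset.filter_congr (q := fun b => (∃ π : Equiv.Perm (Fin (n i)),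
          act (Pi.mulSingle i π) a = b) ∧ xz x b ≠ xz y b)
          (fun b _ => and_congr_right fun _ => fi_ne (x b) (y b))] at h1
        exact h1
    rw [hF0, hF0] at key
    exact fi_toZ_inj key
  · set B : ℕ := 8 * k * (Nat.log 2 (sps f) + 2) with hB
    have hB1 : 1 ≤ B := by
      have : 1 * 1 * 1 ≤ 8 * k * (Nat.log 2 (sps f) + 2) := by gcongr <;> omega
      omega
    set J : Finset (Fin p) := Finset.univ.filter fun i => n i ≤ B ∧ 1 ≤ n i with hJ
    obtain ⟨S, hScard, hS⟩ := count_orbits act hsupp R horb J fun i hi => (Finset.mem_filter.1 hi).2.2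
    choose s hsS g hgJ hgx using hS
    have hsw : ∀ G a, toF f (G + bas (s a)) = toF f (G + bas a) := by
      intro G a
      have h1 := fi_all hk act hsupp f hf (g a) (fun i hi h0 => hgJ a i
        (Finset.mem_filter.2 ⟨Finset.mem_univ _, hi, h0⟩)) G (s a) Finset.univ
      have e : (fun i => if i ∈ (Finset.univ : Finset (Fin p)) then g a i else 1) = g a := by
        funext i
        rw [if_pos (Finset.mem_univ i)]
      rw [e, hgx] at h1
      exact h1.symm
    have hPT := tree_of_rep (toF f) S s hsS (canon_of_swap (toF f) s hsw)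
    have hD := DTle_of_PT hPT
    rw [toF_dec] at hD
    apply hD.mono
    refine hScard.trans (Nat.mul_le_mul_left _ ?_)
    have h1 : ∏ i ∈ J, n i ^ k ≤ ∏ _i ∈ J, B ^ k :=
      Finset.prod_le_prod' fun i hi => Nat.pow_le_pow_left (Finset.mem_filter.1 hi).2.1 k
    rw [Finset.prod_const] at h1
    refine h1.trans ?_
    rw [pow_mul]
    refine Nat.pow_le_pow_right (Nat.one_le_pow _ _ hB1) ?_
    have h2 := Finset.card_le_univ J
    rwa [Fintype.card_fin] at h2

end Pool.Agent.XLR.SY
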