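import Pool.Agent.Work.MP_218513_lc.SY.CN

/-!
# SY/IP (M): the inner product family

PROOF. Choose an embedding `e : Option (Fin l × Fin 3) → U` (`3 l + 1 ≤ card U`), put `c = Pi.single (e none) (1,1)`,
`b (inl i) = Pi.single (e (i,0)) (1,0) + Pi.single (e (i,1)) (1,0)`,
`b (inr i) = Pi.single (e (i,0)) (0,1) + Pi.single (e (i,2)) (0,1)`. Let `z_t = c + ∑ s, t s • b s`, `μ i = t (inl i)`,
`ν i = t (inr i)`. Then `z_t (e none) = (1,1)`, `z_t (e (i,0)) = (μ i, ν i)`, `z_t (e (i,1)) = (μ i, 0)`,
`z_t (e (i,2)) = (0, ν i)`, and `z_t = 0` elsewhere. So at least `card U - (3 l + 1) ≥ M` places are zero, and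
`cnt z_t (1,1) = 1 + #{i | μ i ν i = 1}`, `cnt z_t (1,0) = #{i | μ i = 1, ν i = 0} + #{i | μ i = 1} = #{i | μ i ν i = 1}`
modulo `2`, the same for `(0,1)`. Let `r = ∑ i, μ i * ν i` in `ZMod 2`. If `r = 0` the parities are those of
`Pi.single w (1,1)`, if `r = 1` those of `Pi.single w (1,0) + Pi.single u (0,1)` (`u ≠ w`). By `parity_only`:
`g z_t = p` if `r = 0`, `g z_t = q` if `r = 1`, with `p = g (single w (1,1))`, `q = g (...)`, `q = p + 1` as `p ≠ q`. So
`g z_t = p + r`, `c0 = p`. (`cnt z_t s` as a sum over `U` of indicators: split it into the image of `e` and the rest.)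
-/

set_option autoImplicit false
set_option linter.unusedSectionVars false

namespace Pool.Agent.XLR.SY

open Pool.Agent.XLR

variable {U : Type} [Fintype U] [DecidableEq U]

private theorem ip_single {l : ℕ} (e : Option (Fin l × Fin 3) ↪ U) (j0 : Fin 3) (a : St)
    (f : Fin l → ZMod 2) (i' : Fin l) (j : Fin 3) :
    ∑ i, f i • (Pi.single (e (some (i, j0))) a : U → St) (e (some (i', j))) =
      if j = j0 then f i' • a else 0 := by
  split_ifs with h
  · rw [Finset.sum_eq_single i']
    · rw [h, Pi.single_eq_same]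
    · intro i _ hi
      rw [Pi.single_eq_of_ne, smul_zero]
      intro h1
      have h2 := e.injective h1
      simp only [Option.some.injEq, Prod.mk.injEq] at h2
      exact hi h2.1.symm
    · intro h1
      exact absurd (Finset.mem_univ _) h1
  · refine Finset.sum_eq_zero fun i _ => ?_
    rw [Pi.single_eq_of_ne, smul_zero]
    intro h1
    have h2 := e.injective h1
    simp only [Option.some.injEq, Prod.mk.injEq] at h2
    exact h h2.2

private theorem ip_zero {l : ℕ} (e : Option (Fin l × Fin 3) ↪ U) (j0 : Fin 3) (a : St)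
    (f : Fin l → ZMod 2) {u : U} (hu : ∀ i, u ≠ e (some (i, j0))) :
    ∑ i, f i • (Pi.single (e (some (i, j0))) a : U → St) u = 0 := by
  refine Finset.sum_eq_zero fun i _ => ?_
  rw [Pi.single_eq_of_ne (hu i), smul_zero]

private theorem ip_cnt_zero {z : U → St} {A : Finset U} (h : ∀ u, u ∉ A → z u = 0) :
    Fintype.card U ≤ cnt z 0 + A.card := by
  have h1 : Finset.univ \ A ⊆ Finset.univ.filter fun u => z u = 0 := by
    intro u hu
    rw [Finset.mem_filter]
    exact ⟨Finset.mem_univ _, h u (Finset.mem_sdiff.1 hu).2⟩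
  have h2 := Finset.card_le_card h1
  rw [Finset.card_sdiff_of_subset (Finset.subset_univ _), Finset.card_univ] at h2
  unfold cnt
  omega

private theorem ip_cnt_emb {α : Type} [Fintype α] (e : α ↪ U) {z : U → St}
    (h : ∀ u, u ∉ Set.range e → z u = 0) {s : St} (hs : s ≠ 0) :
    cnt z s = ∑ o, if z (e o) = s then 1 else 0 := by
  have h1 : (Finset.univ.filter fun u => z u = s) =
      (Finset.univ.filter fun o => z (e o) = s).map e := by
    ext u
    rw [Finset.mem_filter, Finset.mem_map]
    constructor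
    · rintro ⟨-, hu⟩
      by_cases hr : u ∈ Set.range e
      · obtain ⟨o, rfl⟩ := hr
        exact ⟨o, Finset.mem_filter.2 ⟨Finset.mem_univ _, hu⟩, rfl⟩
      · rw [h u hr] at hu
        exact absurd hu.symm hs
    · rintro ⟨o, ho, rfl⟩
      exact ⟨Finset.mem_univ _, (Finset.mem_filter.1 ho).2⟩
  unfold cnt
  rw [h1, Finset.card_map, Finset.card_filter]

private theorem ip_term (μ ν : ZMod 2) (s : St) (hs : s ≠ 0) :
    (((if ((μ, ν) : St) = s then 1 else 0) + (if ((μ, 0) : St) = s then 1 else 0) +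
      (if ((0, ν) : St) = s then 1 else 0) : ℕ) : ZMod 2) = μ * ν := by
  revert μ ν s
  decide

private theorem ip_one (s : St) :
    (((if ((1, 1) : St) = s then 1 else 0) : ℕ) : ZMod 2) = if s = (1, 1) then 1 else 0 := by
  revert s
  decide

private theorem ip_cnt1 (w : U) {s : St} (hs : s ≠ 0) :
    ((cnt (Pi.single w ((1, 1) : St) : U → St) s : ℕ) : ZMod 2) =
      (if s = (1, 1) then 1 else 0) + 0 := by
  have h1 := ip_cnt_emb (⟨fun _ : Unit => w, fun _ _ _ => rfl⟩ : Unit ↪ U)
    (z := (Pi.single w ((1, 1) : St) : U → St)) (by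
      intro u hu
      rw [Pi.single_eq_of_ne]
      rintro rfl
      exact hu ⟨(), rfl⟩) hs
  rw [h1, Fintype.sum_unique]
  show (((if (Pi.single w ((1, 1) : St) : U → St) w = s then 1 else 0) : ℕ) : ZMod 2) = _
  rw [Pi.single_eq_same, ip_one, add_zero]

private theorem ip_cnt2 {w u : U} (huw : u ≠ w) {s : St} (hs : s ≠ 0) :
    ((cnt (Pi.single w ((1, 0) : St) + Pi.single u ((0, 1) : St) : U → St) s : ℕ) : ZMod 2) =
      (if s = (1, 1) then 1 else 0) + 1 := by
  have hw : (Pi.single w ((1, 0) : St) + Pi.single u ((0, 1) : St) : U → St) w = (1, 0) := by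
    rw [Pi.add_apply, Pi.single_eq_same, Pi.single_eq_of_ne huw.symm, add_zero]
  have hu : (Pi.single w ((1, 0) : St) + Pi.single u ((0, 1) : St) : U → St) u = (0, 1) := by
    rw [Pi.add_apply, Pi.single_eq_same, Pi.single_eq_of_ne huw, zero_add]
  have h1 := ip_cnt_emb (⟨fun b : Bool => if b then w else u, by
      intro a b hab
      cases a <;> cases b
      · rfl
      · exact absurd hab huw
      · exact absurd hab.symm huw
      · rfl⟩ : Bool ↪ U)
    (z := (Pi.single w ((1, 0) : St) + Pi.single u ((0, 1) : St) : U → St)) (by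
      intro v hv
      rw [Pi.add_apply, Pi.single_eq_of_ne, Pi.single_eq_of_ne, add_zero]
      · rintro rfl
        exact hv ⟨false, rfl⟩
      · rintro rfl
        exact hv ⟨true, rfl⟩) hs
  rw [h1, Fintype.sum_bool]
  show ((((if (Pi.single w ((1, 0) : St) + Pi.single u ((0, 1) : St) : U → St) w = s then 1
    else 0) + (if (Pi.single w ((1, 0) : St) + Pi.single u ((0, 1) : St) : U → St) u = s then 1
    else 0)) : ℕ) : ZMod 2) = _
  rw [hw, hu]
  clear h1
  revert s
  decide

private theorem ip_bit (p q : ZMod 2) (h : p ≠ q) : q = p + 1 := by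
  revert p q
  decide

theorem ip_family {l M : ℕ} (hU : 3 * l + 1 + M ≤ Fintype.card U) (hM : 1 ≤ M)
    (g : (U → St) → ZMod 2)
    (hs : ∀ (σ : Equiv.Perm U) (z : U → St), g (z ∘ σ) = g z)
    (hr : ∀ (z : U → St) (u v : U), u ≠ v → z u = z v →
      M ≤ (Finset.univ.filter fun t => z t = 0 ∨ t = u ∨ t = v).card →
      g (Function.update (Function.update z u 0) v 0) = g z)
    {w u : U} (huw : u ≠ w)
    (hne : g (Pi.single w (1, 1)) ≠ g (Pi.single w (1, 0) + Pi.single u (0, 1))) (hl : 1 ≤ l) :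
    ∃ (c : U → St) (b : (Fin l ⊕ Fin l) → U → St) (c0 : ZMod 2),
      ∀ t : (Fin l ⊕ Fin l) → ZMod 2,
        g (c + ∑ s, t s • b s) = c0 + ∑ i, t (Sum.inl i) * t (Sum.inr i) := by
  have hcardo : Fintype.card (Option (Fin l × Fin 3)) = 3 * l + 1 := by
    rw [Fintype.card_option, Fintype.card_prod, Fintype.card_fin, Fintype.card_fin]
    omega
  obtain ⟨e⟩ : Nonempty (Option (Fin l × Fin 3) ↪ U) :=
    Function.Embedding.nonempty_of_card_le (by rw [hcardo]; omega)
  refine ⟨Pi.single (e none) (1, 1), fun s => match s with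
    | Sum.inl i => Pi.single (e (some (i, 0))) (1, 0) + Pi.single (e (some (i, 1))) (1, 0)
    | Sum.inr i => Pi.single (e (some (i, 0))) (0, 1) + Pi.single (e (some (i, 2))) (0, 1),
    g (Pi.single w (1, 1)), ?_⟩
  intro t
  set z : U → St := Pi.single (e none) ((1, 1) : St) + ∑ s, t s • ((fun s => match s with
    | Sum.inl i => Pi.single (e (some (i, 0))) (1, 0) + Pi.single (e (some (i, 1))) (1, 0)
    | Sum.inr i => Pi.single (e (some (i, 0))) (0, 1) + Pi.single (e (some (i, 2))) (0, 1) :
      (Fin l ⊕ Fin l) → U → St) s) with hz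
  have hzu : ∀ v, z v = (Pi.single (e none) ((1, 1) : St) : U → St) v +
      ((∑ i, t (Sum.inl i) • (Pi.single (e (some (i, 0))) ((1, 0) : St) : U → St) v +
        ∑ i, t (Sum.inl i) • (Pi.single (e (some (i, 1))) ((1, 0) : St) : U → St) v) +
      (∑ i, t (Sum.inr i) • (Pi.single (e (some (i, 0))) ((0, 1) : St) : U → St) v +
        ∑ i, t (Sum.inr i) • (Pi.single (e (some (i, 2))) ((0, 1) : St) : U → St) v)) := by
    intro v
    rw [hz, Pi.add_apply, Finset.sum_apply, Fintype.sum_sum_type]
    simp only [Pi.smul_apply, Pi.add_apply, smul_add, Finset.sum_add_distrib]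
  have hrest : ∀ v, v ∉ Set.range e → z v = 0 := by
    intro v hv
    rw [hzu, ip_zero, ip_zero, ip_zero, ip_zero, Pi.single_eq_of_ne]
    · simp
    · rintro rfl
      exact hv ⟨none, rfl⟩
    · rintro i rfl
      exact hv ⟨_, rfl⟩
    · rintro i rfl
      exact hv ⟨_, rfl⟩
    · rintro i rfl
      exact hv ⟨_, rfl⟩
    · rintro i rfl
      exact hv ⟨_, rfl⟩
  have hnone : z (e none) = (1, 1) := by
    have hn : ∀ (j0 : Fin 3) (i : Fin l), e none ≠ e (some (i, j0)) := by
      intro j0 i h
      exact absurd (e.injective h) (by simp)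
    rw [hzu, ip_zero e 0 _ _ (hn 0), ip_zero e 1 _ _ (hn 1), ip_zero e 0 _ _ (hn 0),
      ip_zero e 2 _ _ (hn 2), Pi.single_eq_same]
    simp
  have hsn : ∀ (i : Fin l) (j : Fin 3),
      (Pi.single (e none) ((1, 1) : St) : U → St) (e (some (i, j))) = 0 := by
    intro i j
    rw [Pi.single_eq_of_ne]
    intro h
    exact absurd (e.injective h) (by simp)
  have h0 : ∀ i, z (e (some (i, 0))) = (t (Sum.inl i), t (Sum.inr i)) := by
    intro i
    rw [hzu, ip_single, ip_single, ip_single, ip_single, hsn]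
    simp
  have h1 : ∀ i, z (e (some (i, 1))) = (t (Sum.inl i), 0) := by
    intro i
    rw [hzu, ip_single, ip_single, ip_single, ip_single, hsn]
    simp
  have h2 : ∀ i, z (e (some (i, 2))) = (0, t (Sum.inr i)) := by
    intro i
    rw [hzu, ip_single, ip_single, ip_single, ip_single, hsn]
    simp
  have hcnt : ∀ s : St, s ≠ 0 → ((cnt z s : ℕ) : ZMod 2) =
      (if s = (1, 1) then 1 else 0) + ∑ i, t (Sum.inl i) * t (Sum.inr i) := by
    intro s hs0
    rw [ip_cnt_emb e hrest hs0, Fintype.sum_option, hnone, Fintype.sum_prod_type, Nat.cast_add,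
      ip_one]
    congr 1
    rw [Nat.cast_sum]
    refine Finset.sum_congr rfl fun i _ => ?_
    rw [Fin.sum_univ_three, h0, h1, h2]
    exact ip_term _ _ s hs0
  have hcz : M ≤ cnt z 0 := by
    have h3 := ip_cnt_zero (z := z) (A := Finset.univ.map e) (by
      intro v hv
      refine hrest v ?_
      rintro ⟨o, rfl⟩
      exact hv (Finset.mem_map_of_mem e (Finset.mem_univ o)))
    rw [Finset.card_map, Finset.card_univ, hcardo] at h3
    omega
  have hr2 : ∑ i, t (Sum.inl i) * t (Sum.inr i) = 0 ∨ ∑ i, t (Sum.inl i) * t (Sum.inr i) = 1 := by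
    generalize ∑ i, t (Sum.inl i) * t (Sum.inr i) = r
    revert r
    decide
  rcases hr2 with h | h
  · rw [h, add_zero]
    refine parity_only M g hs hr _ _ hcz ?_ ?_
    · have h3 := ip_cnt_zero (z := (Pi.single w ((1, 1) : St) : U → St)) (A := {w}) (by
        intro v hv
        rw [Finset.mem_singleton] at hv
        rw [Pi.single_eq_of_ne hv])
      rw [Finset.card_singleton] at h3
      omega
    · intro s hs0
      rw [← ZMod.natCast_eq_natCast_iff', hcnt s hs0, ip_cnt1 w hs0, h]
  · rw [h, ← ip_bit _ _ hne]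
    refine parity_only M g hs hr _ _ hcz ?_ ?_
    · have h3 := ip_cnt_zero
        (z := (Pi.single w ((1, 0) : St) + Pi.single u ((0, 1) : St) : U → St)) (A := {w, u}) (by
        intro v hv
        rw [Finset.mem_insert, Finset.mem_singleton, not_or] at hv
        rw [Pi.add_apply, Pi.single_eq_of_ne hv.1, Pi.single_eq_of_ne hv.2, add_zero])
      rw [Finset.card_pair huw.symm] at h3
      omega
    · intro s hs0
      rw [← ZMod.natCast_eq_natCast_iff', hcnt s hs0, ip_cnt2 huw hs0, h]

end Pool.Agent.XLR.SY
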