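import Pool.Agent.Work.MP_218513_lc.SY.S1
import Pool.Agent.Work.MP_218513_lc.SY.FB

/-!
# SY/LO (M): lemma one (two equal slots cancel)

PROOF. Let `ι = {v // v ∈ U}`, `φ x = B + ∑ v : ι, x v • mv act (swap w v) P`, `h x = F (φ x)`.
SYMMETRY: for `σ : Perm ι` let `σ' : Perm V` be its extension by the identity (`Equiv.Perm.ofSubtype σ`); it fixes all
`v ∉ U`. `mv act σ' B = B` (`hB`) and `mv act σ' (mv act (swap w v) P) = mv act (swap w (σ v)) P`, because the permutation
`(swap w (σ v))⁻¹ * σ' * swap w v` fixes every point outside `U` (`w, v, σ v ∈ U`) and maps `w ↦ v ↦ σ v ↦ w`, so it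
fixes `P` (`hP`, `mv_mul`). So `F (φ x) = F (mv act σ' (φ x)) = F (B + ∑ v, x v • mv act (swap w (σ v)) P) = F (φ (x ∘ σ⁻¹))`
(`mv_add`, `mv_sum`, `mv_smul`, `Equiv.sum_comp`). Hence `h (x ∘ σ) = h x` for all `σ`.
By `exists_wt`: `h x = Φ (wt x)`. `h 0 = F B = Φ 0`. With `x = Pi.single w 1 + Pi.single u 1` (weight `2`, `u ≠ w`) :
`φ x = B + (mv act (swap w w) P + mv act (swap w u) P) = B + P + mv act (swap w u) P` (`swap_self`, `mv_one`), so
`F (B + P + ...) = Φ 2`. If `Φ 0 ≠ Φ 2` then `2 ^ a ≤ sp h ≤ sp F` (`sp_sym`, `card ι = U.card`, `sp_pull`), against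
`hs`.
-/

set_option autoImplicit false
set_option linter.unusedSectionVars false

namespace Pool.Agent.XLR.SY

open Pool.Agent.XLR

variable {V X : Type} [Fintype V] [DecidableEq V] [Fintype X] [DecidableEq X]

private theorem lo_step {act : Equiv.Perm V →* Equiv.Perm X} {U : Finset V} {w : V}
    (hw : w ∈ U) {P : X → ZMod 2}
    (hP : ∀ π : Equiv.Perm V, (∀ v, v ∉ U → π v = v) → π w = w → mv act π P = P)
    (σ : Equiv.Perm {v // v ∈ U}) (v : {v // v ∈ U}) :
    mv act (Equiv.Perm.ofSubtype σ) (mv act (Equiv.swap w v) P) =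
      mv act (Equiv.swap w (σ v)) P := by
  set ρ : Equiv.Perm V := (Equiv.swap w (σ v : V))⁻¹ * Equiv.Perm.ofSubtype σ *
    Equiv.swap w (v : V) with hρ
  have h1 : mv act ρ P = P := by
    refine hP ρ ?_ ?_
    · intro y hy
      have h2 : Equiv.swap w (v : V) y = y :=
        Equiv.swap_apply_of_ne_of_ne (fun h => hy (h ▸ hw)) (fun h => hy (h ▸ v.2))
      have h3 : Equiv.Perm.ofSubtype σ y = y := Equiv.Perm.ofSubtype_apply_of_not_mem σ hy
      have h4 : (Equiv.swap w (σ v : V))⁻¹ y = y := by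
        rw [Equiv.swap_inv]
        exact Equiv.swap_apply_of_ne_of_ne (fun h => hy (h ▸ hw)) (fun h => hy (h ▸ (σ v).2))
      rw [hρ, Equiv.Perm.mul_apply, Equiv.Perm.mul_apply, h2, h3, h4]
    · rw [hρ, Equiv.Perm.mul_apply, Equiv.Perm.mul_apply, Equiv.swap_apply_left,
        Equiv.Perm.ofSubtype_apply_coe, Equiv.swap_inv, Equiv.swap_apply_right]
  have h2 : Equiv.Perm.ofSubtype σ * Equiv.swap w (v : V) = Equiv.swap w (σ v : V) * ρ := by
    rw [hρ, mul_assoc, mul_inv_cancel_left]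
  rw [← mv_mul, h2, mv_mul, h1]

private theorem lo_wt {ι : Type} [Fintype ι] [DecidableEq ι] {w u : ι} (h : u ≠ w) :
    wt (Pi.single w 1 + Pi.single u 1 : ι → ZMod 2) = 2 := by
  unfold wt
  have h1 : (Finset.univ.filter fun i => (Pi.single w 1 + Pi.single u 1 : ι → ZMod 2) i = 1) =
      {w, u} := by
    ext i
    rw [Finset.mem_filter, Finset.mem_insert, Finset.mem_singleton, Pi.add_apply]
    by_cases hiw : i = w
    · subst hiw
      rw [Pi.single_eq_same, Pi.single_eq_of_ne (Ne.symm h)]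
      simp
    · by_cases hiu : i = u
      · subst hiu
        rw [Pi.single_eq_same, Pi.single_eq_of_ne hiw]
        simp
      · rw [Pi.single_eq_of_ne hiw, Pi.single_eq_of_ne hiu]
        simp [hiw, hiu]
  rw [h1, Finset.card_pair (Ne.symm h)]

theorem lemma_one {act : Equiv.Perm V →* Equiv.Perm X} {F : (X → ZMod 2) → ZMod 2}
    (hF : Inv act F) {U : Finset V} {w u : V} (hw : w ∈ U) (hu : u ∈ U) (huw : u ≠ w)
    {B P : X → ZMod 2} (hB : ∀ π : Equiv.Perm V, (∀ v, v ∉ U → π v = v) → mv act π B = B)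
    (hP : ∀ π : Equiv.Perm V, (∀ v, v ∉ U → π v = v) → π w = w → mv act π P = P)
    {a : ℕ} (ha : 1 ≤ a) (hc : 4 * a ≤ U.card + 2) (hs : sp F < 2 ^ a) :
    F (B + P + mv act (Equiv.swap w u) P) = F B := by
  set b : {v // v ∈ U} → X → ZMod 2 := fun v => mv act (Equiv.swap w (v : V)) P with hb
  set h : ({v // v ∈ U} → ZMod 2) → ZMod 2 := fun y => F (B + ∑ i, y i • b i) with hh
  have hsym : ∀ (σ : Equiv.Perm {v // v ∈ U}) (z : {v // v ∈ U} → ZMod 2), h (z ∘ σ) = h z := by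
    intro σ z
    have h1 : mv act (Equiv.Perm.ofSubtype σ) (B + ∑ i, (z ∘ σ) i • b i) =
        B + ∑ i, z i • b i := by
      rw [mv_add, hB _ (fun v hv => Equiv.Perm.ofSubtype_apply_of_not_mem σ hv), mv_sum]
      congr 1
      rw [← Equiv.sum_comp σ (fun i => z i • b i)]
      refine Finset.sum_congr rfl fun i _ => ?_
      rw [mv_smul]
      show z (σ i) • mv act (Equiv.Perm.ofSubtype σ) (mv act (Equiv.swap w (i : V)) P) = _
      rw [lo_step hw hP σ i]
    show F (B + ∑ i, (z ∘ σ) i • b i) = F (B + ∑ i, z i • b i)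
    rw [← h1]
    exact (hF _ _).symm
  obtain ⟨Φ, hΦ⟩ := exists_wt h hsym
  have h0 : h 0 = F B := by
    show F (B + ∑ i, (0 : {v // v ∈ U} → ZMod 2) i • b i) = F B
    congr 1
    rw [Finset.sum_eq_zero (fun i _ => by rw [Pi.zero_apply, zero_smul]), add_zero]
  have hwt0 : wt (0 : {v // v ∈ U} → ZMod 2) = 0 := by
    unfold wt
    rw [Finset.card_eq_zero, Finset.filter_eq_empty_iff]
    intro i _ hi
    rw [Pi.zero_apply] at hi
    exact absurd hi (by decide)
  have hne : (⟨u, hu⟩ : {v // v ∈ U}) ≠ ⟨w, hw⟩ := fun e => huw (congrArg Subtype.val e)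
  have h2 : h (Pi.single ⟨w, hw⟩ 1 + Pi.single ⟨u, hu⟩ 1) =
      F (B + P + mv act (Equiv.swap w u) P) := by
    show F (B + ∑ i, (Pi.single ⟨w, hw⟩ 1 + Pi.single ⟨u, hu⟩ 1 : {v // v ∈ U} → ZMod 2) i • b i) = _
    congr 1
    have e1 : ∀ j : {v // v ∈ U}, ∑ i, (Pi.single j 1 : {v // v ∈ U} → ZMod 2) i • b i = b j := by
      intro j
      rw [Finset.sum_eq_single j]
      · rw [Pi.single_eq_same, one_smul]
      · intro i _ hi
        rw [Pi.single_eq_of_ne hi, zero_smul]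
      · intro hj
        exact absurd (Finset.mem_univ _) hj
    simp_rw [Pi.add_apply, add_smul]
    rw [Finset.sum_add_distrib, e1, e1]
    show B + (mv act (Equiv.swap w w) P + mv act (Equiv.swap w u) P) = _
    rw [Equiv.swap_self]
    have e2 : mv act (Equiv.refl V) P = P := mv_one act P
    rw [e2, add_assoc]
  by_contra hcon
  have h3 : Φ 0 ≠ Φ 2 := by
    intro e
    apply hcon
    rw [← h2, ← h0, hΦ, hΦ 0, hwt0, lo_wt hne, e]
  have h4 := sp_sym ha (by rw [Fintype.card_coe]; exact hc) h Φ hΦ h3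
  have h5 : sp h ≤ sp F := sp_pull F B b
  omega

end Pool.Agent.XLR.SY
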