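import Pool.Agent.Work.MP_218513_lc.SY.LO
import Pool.Agent.Work.MP_218513_lc.SY.IP
import Pool.Agent.Work.MP_218513_lc.SY.BF

/-!
# SY/LT (M-L): lemma two (a slot with two contents can be split)

NOTATION. `P_v = mv act (swap w v) P`, `Q_v` the same (`v ∈ U`; `P_w = P`). `ι = {v // v ∈ U}`,
`A z = ∑ v : ι, ((z v).1 • P_v + (z v).2 • Q_v)` for `z : ι → St`, `g z = F (A z)`. `M = 8 l - 2`, `a = 2 l`.
(0) If `π` fixes all `v ∉ U` and `π t = t'` for `t, t' ∈ U` then `mv act π P_t = P_t'` (the permutation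
`(swap w t')⁻¹ * π * swap w t` fixes the points outside `U` and `w`; `hP`, `mv_mul`). The same for `Q`.
(1) `g (z ∘ σ) = g z`: as in `LO` (extend `σ` to `V` by the identity, use (0) and `Inv`).
(2) The hypothesis `hr` of `parity_only`: let `u ≠ v` in `ι`, `z u = z v = s`, `U' = {t ∈ U | z t = 0 or t = u or t = v}`,
`M ≤ U'.card`. `B = ∑ t ∈ ι with t ∉ U', ((z t).1 • P_t + (z t).2 • Q_t)`, `P' = s.1 • P_u + s.2 • Q_u`. Then `A z = B + P' +
mv act (swap u v) P'` (the summands with `z t = 0` vanish; `mv act (swap u v) P_u = P_v` by (0)), and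
`A (update (update z u 0) v 0) = B`. A permutation fixing all points outside `U'` fixes `B` (by (0) with `t' = t ∉ U'`),
and one that also fixes `u` fixes `P'`. So `lemma_one` (for `U'`, `w := u`, `u := v`, `a = 2 l`, `4 a = 8 l ≤ U'.card + 2`,
`2 ^ a = 4 ^ l`) gives the claim.
(3) `A (Pi.single w (1,1)) = P + Q`, `A (Pi.single w (1,0) + Pi.single u (0,1)) = P + Q_u`. If `F` takes different
values there, `ip_family` (`3 l + 1 + M = 11 l - 1 ≤ U.card = card ι`) gives `c, b, c0`; `A` is additive and linear, so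
`F (A c + ∑ s, t s • A (b s)) = c0 + ∑ i, t (inl i) * t (inr i)`, and `sp_bent`, `sp_pull` give `4 ^ l ≤ sp F`, against `hs`.
-/

set_option autoImplicit false
set_option linter.unusedSectionVars false

namespace Pool.Agent.XLR.SY

open Pool.Agent.XLR

variable {V X : Type} [Fintype V] [DecidableEq V] [Fintype X] [DecidableEq X]

private theorem lt_key {act : Equiv.Perm V →* Equiv.Perm X} {U : Finset V} {w : V} (hw : w ∈ U)
    {P : X → ZMod 2}
    (hP : ∀ π : Equiv.Perm V, (∀ v, v ∉ U → π v = v) → π w = w → mv act π P = P)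
    {π : Equiv.Perm V} (hπ : ∀ v, v ∉ U → π v = v) {t : V} (ht : t ∈ U) (ht' : π t ∈ U) :
    mv act π (mv act (Equiv.swap w t) P) = mv act (Equiv.swap w (π t)) P := by
  have h1 : ∀ v, v ∉ U → ((Equiv.swap w (π t))⁻¹ * π * Equiv.swap w t) v = v := by
    intro v hv
    have e1 : v ≠ w := fun h => hv (h ▸ hw)
    have e2 : v ≠ t := fun h => hv (h ▸ ht)
    have e3 : v ≠ π t := fun h => hv (h ▸ ht')
    rw [Equiv.Perm.mul_apply, Equiv.Perm.mul_apply, Equiv.swap_apply_of_ne_of_ne e1 e2, hπ v hv,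
      Equiv.swap_inv, Equiv.swap_apply_of_ne_of_ne e1 e3]
  have h2 : ((Equiv.swap w (π t))⁻¹ * π * Equiv.swap w t) w = w := by
    rw [Equiv.Perm.mul_apply, Equiv.Perm.mul_apply, Equiv.swap_apply_left, Equiv.swap_inv,
      Equiv.swap_apply_right]
  have h3 := hP _ h1 h2
  have h4 : π * Equiv.swap w t =
      Equiv.swap w (π t) * ((Equiv.swap w (π t))⁻¹ * π * Equiv.swap w t) := by
    rw [mul_assoc, mul_inv_cancel_left]
  rw [← mv_mul, h4, mv_mul, h3]

/-- the configuration of a state function -/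
private def ltA (act : Equiv.Perm V →* Equiv.Perm X) (U : Finset V) (w : V) (P Q : X → ZMod 2) :
    ({v // v ∈ U} → St) →ₗ[ZMod 2] (X → ZMod 2) where
  toFun z := ∑ v : {v // v ∈ U}, ((z v).1 • mv act (Equiv.swap w v.1) P +
    (z v).2 • mv act (Equiv.swap w v.1) Q)
  map_add' z z' := by
    rw [← Finset.sum_add_distrib]
    refine Finset.sum_congr rfl fun v _ => ?_
    rw [Pi.add_apply, Prod.fst_add, Prod.snd_add, add_smul, add_smul]
    abel
  map_smul' c z := by
    rw [Finset.smul_sum]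
    refine Finset.sum_congr rfl fun v _ => ?_
    rw [RingHom.id_apply, smul_add, Pi.smul_apply, Prod.smul_fst, Prod.smul_snd, smul_assoc,
      smul_assoc]

private theorem ltA_apply (act : Equiv.Perm V →* Equiv.Perm X) (U : Finset V) (w : V)
    (P Q : X → ZMod 2) (z : {v // v ∈ U} → St) : ltA act U w P Q z =
      ∑ v : {v // v ∈ U}, ((z v).1 • mv act (Equiv.swap w v.1) P +
        (z v).2 • mv act (Equiv.swap w v.1) Q) := rfl

private theorem ltA_single (act : Equiv.Perm V →* Equiv.Perm X) (U : Finset V) (w : V)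
    (P Q : X → ZMod 2) (v : {v // v ∈ U}) (s : St) : ltA act U w P Q (Pi.single v s) =
      s.1 • mv act (Equiv.swap w v.1) P + s.2 • mv act (Equiv.swap w v.1) Q := by
  rw [ltA_apply, Finset.sum_eq_single v]
  · rw [Pi.single_eq_same]
  · intro t _ ht
    rw [Pi.single_eq_of_ne ht]
    simp
  · intro h
    exact absurd (Finset.mem_univ _) h

private theorem lt_sym {act : Equiv.Perm V →* Equiv.Perm X} {F : (X → ZMod 2) → ZMod 2}
    (hF : Inv act F) {U : Finset V} {w : V} (hw : w ∈ U) {P Q : X → ZMod 2}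
    (hP : ∀ π : Equiv.Perm V, (∀ v, v ∉ U → π v = v) → π w = w → mv act π P = P)
    (hQ : ∀ π : Equiv.Perm V, (∀ v, v ∉ U → π v = v) → π w = w → mv act π Q = Q)
    (σ : Equiv.Perm {v // v ∈ U}) (z : {v // v ∈ U} → St) :
    F (ltA act U w P Q (z ∘ σ)) = F (ltA act U w P Q z) := by
  have h0 : ∀ v, v ∉ U → (Equiv.Perm.ofSubtype σ) v = v := fun v hv =>
    Equiv.Perm.ofSubtype_apply_of_not_mem σ hv
  have h1 : ∀ v : {v // v ∈ U}, (Equiv.Perm.ofSubtype σ) v.1 = (σ v).1 := fun v =>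
    Equiv.Perm.ofSubtype_apply_coe σ v
  have h2 : mv act (Equiv.Perm.ofSubtype σ) (ltA act U w P Q (z ∘ σ)) = ltA act U w P Q z := by
    rw [ltA_apply, ltA_apply, mv_sum, ← Equiv.sum_comp σ (fun v : {v // v ∈ U} =>
      ((z v).1 • mv act (Equiv.swap w v.1) P + (z v).2 • mv act (Equiv.swap w v.1) Q))]
    refine Finset.sum_congr rfl fun v _ => ?_
    have h3 : (Equiv.Perm.ofSubtype σ) v.1 ∈ U := by
      rw [h1]
      exact (σ v).2
    rw [mv_add, mv_smul, mv_smul, lt_key hw hP h0 v.2 h3, lt_key hw hQ h0 v.2 h3, h1]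
    rfl
  rw [← hF (Equiv.Perm.ofSubtype σ), h2]

private theorem lt_red {act : Equiv.Perm V →* Equiv.Perm X} {F : (X → ZMod 2) → ZMod 2}
    (hF : Inv act F) {U : Finset V} {w : V} (hw : w ∈ U) {P Q : X → ZMod 2}
    (hP : ∀ π : Equiv.Perm V, (∀ v, v ∉ U → π v = v) → π w = w → mv act π P = P)
    (hQ : ∀ π : Equiv.Perm V, (∀ v, v ∉ U → π v = v) → π w = w → mv act π Q = Q)
    {l : ℕ} (hl : 1 ≤ l) (hs : sp F < 4 ^ l) (z : {v // v ∈ U} → St) (u v : {v // v ∈ U})
    (huv : u ≠ v) (hz : z u = z v)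
    (hM : 8 * l - 2 ≤ (Finset.univ.filter fun t => z t = 0 ∨ t = u ∨ t = v).card) :
    F (ltA act U w P Q (Function.update (Function.update z u 0) v 0)) =
      F (ltA act U w P Q z) := by
  obtain ⟨f, hf⟩ : ∃ f : {v // v ∈ U} → X → ZMod 2, ∀ t, f t =
      (z t).1 • mv act (Equiv.swap w t.1) P + (z t).2 • mv act (Equiv.swap w t.1) Q :=
    ⟨_, fun _ => rfl⟩
  obtain ⟨B, hBd⟩ : ∃ B : X → ZMod 2, B = ∑ t ∈ (Finset.univ.erase u).erase v, f t := ⟨_, rfl⟩
  obtain ⟨U', hU'⟩ : ∃ U' : Finset V, U' =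
      (Finset.univ.filter fun t : {v // v ∈ U} => z t = 0 ∨ t = u ∨ t = v).map
        (Function.Embedding.subtype _) := ⟨_, rfl⟩
  have hcard : U'.card = (Finset.univ.filter fun t : {v // v ∈ U} =>
      z t = 0 ∨ t = u ∨ t = v).card := by
    rw [hU', Finset.card_map]
  have hmem : ∀ t : {v // v ∈ U}, t.1 ∈ U' ↔ (z t = 0 ∨ t = u ∨ t = v) := by
    intro t
    rw [hU', Finset.mem_map]
    constructor
    · rintro ⟨t', h1, h2⟩
      have h3 : t' = t := Subtype.ext h2
      rw [← h3]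
      exact (Finset.mem_filter.1 h1).2
    · intro h
      exact ⟨t, Finset.mem_filter.2 ⟨Finset.mem_univ _, h⟩, rfl⟩
  have hsub : ∀ x, x ∉ U → x ∉ U' := by
    intro x hx h
    rw [hU', Finset.mem_map] at h
    obtain ⟨t', -, h2⟩ := h
    apply hx
    rw [← h2]
    exact t'.2
  have hf0 : ∀ t, z t = 0 → f t = 0 := by
    intro t ht
    rw [hf, ht]
    simp
  -- the values
  have hvu : v ∈ (Finset.univ : Finset {v // v ∈ U}).erase u :=
    Finset.mem_erase.2 ⟨huv.symm, Finset.mem_univ _⟩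
  have e1 : ltA act U w P Q z = B + f u + f v := by
    rw [ltA_apply, hBd]
    have h1 : ∑ t, ((z t).1 • mv act (Equiv.swap w t.1) P +
        (z t).2 • mv act (Equiv.swap w t.1) Q) = ∑ t, f t :=
      Finset.sum_congr rfl fun t _ => (hf t).symm
    rw [h1, ← Finset.add_sum_erase _ _ (Finset.mem_univ u), ← Finset.add_sum_erase _ _ hvu]
    abel
  have e2 : ltA act U w P Q (Function.update (Function.update z u 0) v 0) = B := by
    rw [ltA_apply, ← Finset.add_sum_erase _ _ (Finset.mem_univ u),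
      ← Finset.add_sum_erase _ _ hvu, hBd]
    have h1 : ∑ t ∈ (Finset.univ.erase u).erase v,
        ((Function.update (Function.update z u 0) v 0 t).1 • mv act (Equiv.swap w t.1) P +
        (Function.update (Function.update z u 0) v 0 t).2 • mv act (Equiv.swap w t.1) Q) =
        ∑ t ∈ (Finset.univ.erase u).erase v, f t := by
      refine Finset.sum_congr rfl fun t ht => ?_
      have h2 : t ≠ v := Finset.ne_of_mem_erase ht
      have h3 : t ≠ u := Finset.ne_of_mem_erase (Finset.mem_of_mem_erase ht)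
      rw [Function.update_of_ne h2, Function.update_of_ne h3, hf]
    rw [h1, Function.update_self, Function.update_of_ne huv, Function.update_self]
    simp
  have hfv : mv act (Equiv.swap u.1 v.1) (f u) = f v := by
    have h0 : ∀ x, x ∉ U → (Equiv.swap u.1 v.1) x = x := by
      intro x hx
      exact Equiv.swap_apply_of_ne_of_ne (fun h => hx (h ▸ u.2)) (fun h => hx (h ▸ v.2))
    have h1 : (Equiv.swap u.1 v.1) u.1 = v.1 := Equiv.swap_apply_left _ _
    have h2 : (Equiv.swap u.1 v.1) u.1 ∈ U := by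
      rw [h1]
      exact v.2
    rw [hf, hf, mv_add, mv_smul, mv_smul, lt_key hw hP h0 u.2 h2, lt_key hw hQ h0 u.2 h2, h1, hz]
  have hfix : ∀ (π : Equiv.Perm V), (∀ x, x ∉ U' → π x = x) → ∀ t : {v // v ∈ U},
      π t.1 = t.1 → mv act π (f t) = f t := by
    intro π hπ t ht
    have h0 : ∀ x, x ∉ U → π x = x := fun x hx => hπ x (hsub x hx)
    have h2 : π t.1 ∈ U := by
      rw [ht]
      exact t.2
    rw [hf, mv_add, mv_smul, mv_smul, lt_key hw hP h0 t.2 h2, lt_key hw hQ h0 t.2 h2, ht]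
  have hB : ∀ π : Equiv.Perm V, (∀ x, x ∉ U' → π x = x) → mv act π B = B := by
    intro π hπ
    rw [hBd, mv_sum]
    refine Finset.sum_congr rfl fun t ht => ?_
    have h2 : t ≠ v := Finset.ne_of_mem_erase ht
    have h3 : t ≠ u := Finset.ne_of_mem_erase (Finset.mem_of_mem_erase ht)
    by_cases h4 : z t = 0
    · rw [hf0 t h4]
      rfl
    · refine hfix π hπ t (hπ _ ?_)
      rw [hmem]
      rintro (h5 | h5 | h5)
      · exact h4 h5
      · exact h3 h5
      · exact h2 h5
  have hs2 : sp F < 2 ^ (2 * l) := by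
    rw [pow_mul]
    exact hs
  have huv' : v.1 ≠ u.1 := fun h => huv (Subtype.ext h.symm)
  have h1 := lemma_one hF ((hmem u).2 (Or.inr (Or.inl rfl))) ((hmem v).2 (Or.inr (Or.inr rfl)))
    huv' hB (fun π hπ hu => hfix π hπ u hu) (a := 2 * l) (by omega) (by omega) hs2
  rw [e1, e2, ← hfv, h1]

theorem lemma_two {act : Equiv.Perm V →* Equiv.Perm X} {F : (X → ZMod 2) → ZMod 2}
    (hF : Inv act F) {U : Finset V} {w u : V} (hw : w ∈ U) (hu : u ∈ U) (huw : u ≠ w)
    {P Q : X → ZMod 2}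
    (hP : ∀ π : Equiv.Perm V, (∀ v, v ∉ U → π v = v) → π w = w → mv act π P = P)
    (hQ : ∀ π : Equiv.Perm V, (∀ v, v ∉ U → π v = v) → π w = w → mv act π Q = Q)
    {l : ℕ} (hl : 1 ≤ l) (hc : 11 * l ≤ U.card + 1) (hs : sp F < 4 ^ l) :
    F (P + mv act (Equiv.swap w u) Q) = F (P + Q) := by
  by_contra hne
  obtain ⟨w', hw'⟩ : ∃ w' : {v // v ∈ U}, w' = ⟨w, hw⟩ := ⟨_, rfl⟩
  obtain ⟨u', hu'⟩ : ∃ u' : {v // v ∈ U}, u' = ⟨u, hu⟩ := ⟨_, rfl⟩
  have hwv : w'.1 = w := by rw [hw']
  have huv : u'.1 = u := by rw [hu']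
  have hne' : u' ≠ w' := by
    intro h
    apply huw
    rw [← huv, ← hwv, h]
  have hself : ∀ R : X → ZMod 2, mv act (Equiv.swap w w) R = R := by
    intro R
    rw [Equiv.swap_self]
    exact mv_one act R
  have a1 : ltA act U w P Q (Pi.single w' (1, 1)) = P + Q := by
    rw [ltA_single, hwv, hself, hself]
    simp
  have a2 : ltA act U w P Q (Pi.single w' (1, 0) + Pi.single u' (0, 1)) =
      P + mv act (Equiv.swap w u) Q := by
    rw [map_add, ltA_single, ltA_single, hwv, hself, hself, huv]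
    simp
  have hcU : Fintype.card {v // v ∈ U} = U.card := Fintype.card_coe U
  obtain ⟨c, b, c0, h⟩ := ip_family (l := l) (M := 8 * l - 2) (by omega) (by omega)
    (fun z => F (ltA act U w P Q z)) (fun σ z => lt_sym hF hw hP hQ σ z)
    (fun z u v huv hz hM => lt_red hF hw hP hQ hl hs z u v huv hz hM) hne'
    (by
      rw [a1, a2]
      exact fun h => hne h.symm) hl
  have h1 := sp_bent hl c0 (fun t : (Fin l ⊕ Fin l) → ZMod 2 =>
    F (ltA act U w P Q c + ∑ s, t s • ltA act U w P Q (b s))) (fun t => by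
      have h2 := h t
      rw [map_add, map_sum] at h2
      rw [← h2]
      congr 2
      refine Finset.sum_congr rfl fun s _ => ?_
      rw [map_smul])
  have h3 := sp_pull F (ltA act U w P Q c) (fun s => ltA act U w P Q (b s))
  omega

end Pool.Agent.XLR.SY
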