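import Pool.Agent.Work.MP_218513_lc.SY.LT

/-!
# SY/MV (S): moving one point of one element

PROOF. `lemma_two` with `U = univ \ (T.erase w)`, `P = G`, `Q = bas x`. `U.card ≥ card V - T.card`, so `11 l ≤ U.card + 1`.
`w ∈ U`, `u ∈ U` (as `u ∉ T`). If `π` fixes all `v ∉ U` (i.e. all `v ∈ T.erase w`) and `w` then it fixes `T` pointwise, so
it fixes `x` (`hx`, `mv_bas`) and every `y` with `G y ≠ 0`; hence `mv act π G = G`: for every `y`,
`G ((act π).symm y) = G y`: let `y' = (act π).symm y`, `act π y' = y`. If `G y' ≠ 0` then `act π y' = y'`, so `y = y'`. If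
`G y ≠ 0` then `act π y = y`, so `y' = y`. Otherwise both are `0`.
`mv act (swap w u) (bas x) = bas (act (swap w u) x)`.
-/

set_option autoImplicit false
set_option linter.unusedSectionVars false

namespace Pool.Agent.XLR.SY

open Pool.Agent.XLR

variable {V X : Type} [Fintype V] [DecidableEq V] [Fintype X] [DecidableEq X]

theorem move {act : Equiv.Perm V →* Equiv.Perm X} {F : (X → ZMod 2) → ZMod 2}
    (hF : Inv act F) {T : Finset V} {G : X → ZMod 2} (hG : ∀ y, G y ≠ 0 → Sup act T y)
    {x : X} (hx : Sup act T x) {w u : V} (hu : u ∉ T) (huw : u ≠ w)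
    {l : ℕ} (hl : 1 ≤ l) (hc : T.card + 11 * l ≤ Fintype.card V + 1) (hs : sp F < 4 ^ l) :
    F (G + bas (act (Equiv.swap w u) x)) = F (G + bas x) := by
  have hfix : ∀ π : Equiv.Perm V, (∀ v, v ∉ Finset.univ \ (T.erase w) → π v = v) → π w = w →
      ∀ v ∈ T, π v = v := by
    intro π h1 h2 v hv
    by_cases hvw : v = w
    · rw [hvw, h2]
    · apply h1
      rw [Finset.mem_sdiff]
      intro h
      exact h.2 (Finset.mem_erase.2 ⟨hvw, hv⟩)
  have h := lemma_two hF (U := Finset.univ \ (T.erase w)) (w := w) (u := u)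
    (Finset.mem_sdiff.2 ⟨Finset.mem_univ _, Finset.notMem_erase w T⟩)
    (Finset.mem_sdiff.2 ⟨Finset.mem_univ _, fun h => hu (Finset.mem_of_mem_erase h)⟩) huw
    (P := G) (Q := bas x) ?_ ?_ hl ?_ hs
  · rw [mv_bas] at h
    exact h
  · intro π h1 h2
    have hT := hfix π h1 h2
    funext y
    unfold mv
    obtain ⟨y', hy'⟩ : ∃ y', y' = (act π).symm y := ⟨_, rfl⟩
    have hyy : act π y' = y := by rw [hy', Equiv.apply_symm_apply]
    rw [← hy']
    by_cases h3 : G y' = 0
    · by_cases h4 : G y = 0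
      · rw [h3, h4]
      · have h5 := hG y h4 π hT
        have h6 : y' = y := (act π).injective (hyy.trans h5.symm)
        rw [h6]
    · have h5 := hG y' h3 π hT
      rw [← hyy, h5]
  · intro π h1 h2
    rw [mv_bas, hx π (hfix π h1 h2)]
  · rw [Finset.card_sdiff_of_subset (Finset.subset_univ _), Finset.card_univ]
    have := Finset.card_erase_le (s := T) (a := w)
    omega

end Pool.Agent.XLR.SY
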