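import Pool.Agent.Work.MP_218513_lc.SY.Defs

/-!
# SY/PB (S-M): affine pull back of Boolean functions

PROOF (compare `inversion`, `W_comp`, `spar_comp_le` in `Fourier.lean`, there for `Fin n` and
endomorphisms). Inversion: `∑ α, WF F α * sg (α ⬝ᵥ x) = 2 ^ card κ * iv (F x)`, because
`∑ α, sg (α ⬝ᵥ z) = 2 ^ card κ` if `z = 0` and `0` otherwise (flip one coordinate `i` with `z i = 1`).
So with `φ y = c + ∑ i, y i • b i`:
`2 ^ card κ * WF (F ∘ φ) β = ∑ y, ∑ α, WF F α * sg (α ⬝ᵥ φ y) * sg (β ⬝ᵥ y)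
 = ∑ α, WF F α * sg (α ⬝ᵥ c) * ∑ y, sg ((α' + β) ⬝ᵥ y)`, where `α' i = α ⬝ᵥ b i`
(`α ⬝ᵥ φ y = α ⬝ᵥ c + α' ⬝ᵥ y`, `sg_add`). The inner sum is `0` unless `α' = β`. So if
`WF (F ∘ φ) β ≠ 0` some `α` with `WF F α ≠ 0` has `α' = β`. This is `exists_pull`; and then the set of
the `β` is contained in the image of the set of the `α` under `α ↦ α'` (`Finset.card_image_le`).
-/

set_option autoImplicit false
set_option linter.unusedSectionVars false

namespace Pool.Agent.XLR.SY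

open Pool.Agent.XLR

variable {ι κ : Type} [Fintype ι] [DecidableEq ι] [Fintype κ] [DecidableEq κ]

private theorem pb_sum_sg (α : ι → ZMod 2) :
    ∑ x : ι → ZMod 2, sg (α ⬝ᵥ x) = if α = 0 then 2 ^ Fintype.card ι else 0 := by
  split_ifs with h
  · subst h
    simp [sg_zero, ZMod.card]
  · obtain ⟨i, hi⟩ : ∃ i, α i ≠ 0 := by
      by_contra hcon
      push Not at hcon
      exact h (funext hcon)
    have hi1 : α i = 1 := by
      revert hi
      generalize α i = a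
      revert a
      decide
    have key : ∑ x : ι → ZMod 2, sg (α ⬝ᵥ (x + Pi.single i 1)) =
        ∑ x : ι → ZMod 2, sg (α ⬝ᵥ x) :=
      Equiv.sum_comp (Equiv.addRight (Pi.single i 1)) (fun x => sg (α ⬝ᵥ x))
    have h2 : ∀ x : ι → ZMod 2, sg (α ⬝ᵥ (x + Pi.single i 1)) = - sg (α ⬝ᵥ x) := by
      intro x
      rw [dotProduct_add, sg_add, dotProduct_single, hi1, mul_one, sg_one, mul_neg_one]
    simp_rw [h2, Finset.sum_neg_distrib] at key
    linarith

private theorem pb_sum_sg' (z : ι → ZMod 2) :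
    ∑ α : ι → ZMod 2, sg (α ⬝ᵥ z) = if z = 0 then 2 ^ Fintype.card ι else 0 := by
  rw [← pb_sum_sg z]
  refine Finset.sum_congr rfl fun α _ => ?_
  rw [dotProduct_comm]

private theorem pb_add_eq_zero (x y : ι → ZMod 2) : y + x = 0 ↔ y = x := by
  constructor
  · intro h
    funext i
    have := congrFun h i
    simp only [Pi.add_apply, Pi.zero_apply] at this
    revert this
    generalize y i = a
    generalize x i = b
    revert a b
    decide
  · rintro rfl
    funext i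
    simp only [Pi.add_apply, Pi.zero_apply]
    generalize y i = a
    revert a
    decide

private theorem pb_inversion (F : (κ → ZMod 2) → ZMod 2) (x : κ → ZMod 2) :
    2 ^ Fintype.card κ * iv (F x) = ∑ α, WF F α * sg (α ⬝ᵥ x) := by
  have h1 : ∀ α : κ → ZMod 2, WF F α * sg (α ⬝ᵥ x) = ∑ y, iv (F y) * sg (α ⬝ᵥ (y + x)) := by
    intro α
    unfold WF
    rw [Finset.sum_mul]
    refine Finset.sum_congr rfl fun y _ => ?_
    rw [dotProduct_add, sg_add, mul_assoc]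
  simp_rw [h1]
  rw [Finset.sum_comm]
  simp_rw [← Finset.mul_sum, pb_sum_sg', pb_add_eq_zero]
  simp [mul_comm]

private theorem pb_dot (α : κ → ZMod 2) (b : ι → κ → ZMod 2) (y : ι → ZMod 2) :
    α ⬝ᵥ (∑ i, y i • b i) = (fun i => α ⬝ᵥ b i) ⬝ᵥ y := by
  rw [dotProduct_sum]
  unfold dotProduct
  refine Finset.sum_congr rfl fun i _ => ?_
  rw [Finset.sum_mul]
  refine Finset.sum_congr rfl fun j _ => ?_
  rw [Pi.smul_apply, smul_eq_mul]
  ring

theorem exists_pull (F : (κ → ZMod 2) → ZMod 2) (c : κ → ZMod 2) (b : ι → κ → ZMod 2)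
    (β : ι → ZMod 2) (h : WF (fun y : ι → ZMod 2 => F (c + ∑ i, y i • b i)) β ≠ 0) :
    ∃ α, WF F α ≠ 0 ∧ ∀ i, α ⬝ᵥ b i = β i := by
  by_contra hcon
  push Not at hcon
  apply h
  have h2 : (2 : ℤ) ^ Fintype.card κ * WF (fun y : ι → ZMod 2 => F (c + ∑ i, y i • b i)) β =
      ∑ α : κ → ZMod 2, (WF F α * sg (α ⬝ᵥ c)) *
        ∑ y : ι → ZMod 2, sg (((fun i => α ⬝ᵥ b i) + β) ⬝ᵥ y) := by
    unfold WF
    rw [Finset.mul_sum]
    have h3 : ∀ y : ι → ZMod 2, (2 : ℤ) ^ Fintype.card κ *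
        (iv (F (c + ∑ i, y i • b i)) * sg (β ⬝ᵥ y)) =
        ∑ α : κ → ZMod 2, (WF F α * sg (α ⬝ᵥ c)) *
          sg (((fun i => α ⬝ᵥ b i) + β) ⬝ᵥ y) := by
      intro y
      rw [← mul_assoc, pb_inversion, Finset.sum_mul]
      refine Finset.sum_congr rfl fun α _ => ?_
      rw [dotProduct_add, sg_add, pb_dot, add_dotProduct, sg_add]
      ring
    rw [Finset.sum_congr rfl fun y _ => h3 y, Finset.sum_comm]
    refine Finset.sum_congr rfl fun α _ => ?_
    rw [Finset.mul_sum]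
    rfl
  have h4 : ∀ α : κ → ZMod 2, (WF F α * sg (α ⬝ᵥ c)) *
        ∑ y : ι → ZMod 2, sg (((fun i => α ⬝ᵥ b i) + β) ⬝ᵥ y) = 0 := by
    intro α
    by_cases hα : WF F α = 0
    · rw [hα, zero_mul, zero_mul]
    · obtain ⟨i, hi⟩ := hcon α hα
      rw [pb_sum_sg, if_neg, mul_zero]
      intro h5
      apply hi
      exact congrFun ((pb_add_eq_zero β (fun i => α ⬝ᵥ b i)).1 h5) i
  rw [Finset.sum_congr rfl fun α _ => h4 α, Finset.sum_const_zero] at h2
  rcases mul_eq_zero.1 h2 with h5 | h5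
  · exact absurd h5 (by positivity)
  · exact h5

theorem sp_pull (F : (κ → ZMod 2) → ZMod 2) (c : κ → ZMod 2) (b : ι → κ → ZMod 2) :
    sp (fun y : ι → ZMod 2 => F (c + ∑ i, y i • b i)) ≤ sp F := by
  unfold sp
  refine le_trans (Finset.card_le_card ?_)
    (Finset.card_image_le (s := Finset.univ.filter fun α => WF F α ≠ 0)
      (f := fun α : κ → ZMod 2 => fun i => α ⬝ᵥ b i))
  intro β hβ
  rw [Finset.mem_filter] at hβ
  obtain ⟨α, hα, h1⟩ := exists_pull F c b β hβ.2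
  rw [Finset.mem_image]
  exact ⟨α, Finset.mem_filter.2 ⟨Finset.mem_univ _, hα⟩, funext h1⟩

end Pool.Agent.XLR.SY
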