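import Pool.Agent.Work.MP_218513_lc.SY.MV

/-!
# SY/RN (M): an element can be replaced by any element of its orbit

PROOF. Let `T' = T ∪ S.image τ`, so `S ⊆ T'`, `T'.card ≤ T.card + S.card`, `T'` supports all elements of `G`.
FRESH. Let `S1 ⊆ S2 ⊆ T'`, `x2` an element supported by `S2`, `S2.card = S.card`, `y : V → V` injective on `S2` with
`y s ∉ T'` for `s ∈ S2`. Claim (induction on `S1`): there is a permutation `π` with `π s = y s` for `s ∈ S1`,
`π v = v` for `v ∈ S2 \ S1` and `F (G + bas (act π x2)) = F (G + bas x2)`. `S1 = ∅`: `π = 1`. Step `S1 ∪ {s}`: let `π'` be the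
permutation for `S1`, `x1 = act π' x2`, supported by `S2.image π' = S1.image y ∪ (S2 \ S1)` (`Sup.move`), so by
`T1 = T' ∪ S1.image y`. `move` with `T1`, `w = s`, `u = y s ∉ T1` : `F (G + bas (act (swap s (y s)) x1)) = F (G + bas x1)`
(`T1.card ≤ T.card + 2 * S.card`). Take `π = swap s (y s) * π'`: for `s' ∈ S1` `π s' = swap s (y s) (y s') = y s'` (`y s' ≠ s`
since `y s' ∉ T'`, `y s' ≠ y s`), `π s = swap s (y s) s = y s`, and `π v = v` for the other `v ∈ S2`.
END. The complement of `T'` has at least `S.card` elements (`hc`, `l ≥ 1`), so there is `y` injective on `S` with values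
outside `T'`. FRESH for `x`, `S2 = S`, `y` gives `π1`; FRESH for `act τ x`, `S2 = S.image τ`, `y ∘ τ⁻¹` gives `π2`. For
`s ∈ S`: `π1 s = y s = π2 (τ s)`. So `π1⁻¹ * π2 * τ` fixes `S` pointwise, hence `x` (`hx`), so `act π2 (act τ x) = act π1 x`.
Both equations together give the claim. (`S.image τ` has the same cardinality as `S`.)
-/

set_option autoImplicit false
set_option linter.unusedSectionVars false

namespace Pool.Agent.XLR.SY

open Pool.Agent.XLR

variable {V X : Type} [Fintype V] [DecidableEq V] [Fintype X] [DecidableEq X]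

private theorem rn_fresh {act : Equiv.Perm V →* Equiv.Perm X} {F : (X → ZMod 2) → ZMod 2}
    (hF : Inv act F) {T : Finset V} {G : X → ZMod 2} (hG : ∀ y, G y ≠ 0 → Sup act T y)
    {S2 : Finset V} (hST : S2 ⊆ T) {x : X} (hx : Sup act S2 x) {y : V → V}
    (hy : Set.InjOn y S2) (hyT : ∀ s ∈ S2, y s ∉ T) {l : ℕ} (hl : 1 ≤ l)
    (hc : T.card + S2.card + 11 * l ≤ Fintype.card V + 1) (hs : sp F < 4 ^ l) (S1 : Finset V) :
    S1 ⊆ S2 → ∃ π : Equiv.Perm V, (∀ s ∈ S1, π s = y s) ∧ (∀ v ∈ S2, v ∉ S1 → π v = v) ∧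
      F (G + bas (act π x)) = F (G + bas x) := by
  induction S1 using Finset.induction_on with
  | empty =>
    intro _
    refine ⟨1, fun s hs => absurd hs (Finset.notMem_empty s), fun v _ _ => rfl, ?_⟩
    rw [map_one]
    rfl
  | insert s S1 hs1 ih =>
    intro hsub
    have hsS : s ∈ S2 := hsub (Finset.mem_insert_self s S1)
    have hS1 : S1 ⊆ S2 := fun v hv => hsub (Finset.mem_insert_of_mem hv)
    obtain ⟨π, h1, h2, h3⟩ := ih hS1
    have hyne : y s ≠ s := by
      intro h
      apply hyT s hsS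
      rw [h]
      exact hST hsS
    have hsupp : Sup act (T ∪ S1.image y) (act π x) := by
      refine (hx.move π).mono ?_
      intro v hv
      obtain ⟨u, hu, rfl⟩ := Finset.mem_image.1 hv
      rw [Finset.mem_union]
      by_cases hu1 : u ∈ S1
      · right
        rw [h1 u hu1]
        exact Finset.mem_image_of_mem y hu1
      · left
        rw [h2 u hu hu1]
        exact hST hu
    have hys : y s ∉ T ∪ S1.image y := by
      rw [Finset.mem_union]
      rintro (h | h)
      · exact hyT s hsS h
      · obtain ⟨u, hu, huy⟩ := Finset.mem_image.1 h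
        have h4 : u = s := hy (Finset.mem_coe.2 (hS1 hu)) (Finset.mem_coe.2 hsS) huy
        exact hs1 (h4 ▸ hu)
    have hcard : (T ∪ S1.image y).card + 11 * l ≤ Fintype.card V + 1 := by
      have h4 := Finset.card_union_le T (S1.image y)
      have h5 := Finset.card_image_le (s := S1) (f := y)
      have h6 := Finset.card_le_card hS1
      omega
    have hmv := move hF (T := T ∪ S1.image y) (G := G)
      (fun z hz => (hG z hz).mono Finset.subset_union_left) hsupp hys hyne hl hcard hs
    refine ⟨Equiv.swap s (y s) * π, ?_, ?_, ?_⟩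
    · intro v hv
      rw [Finset.mem_insert] at hv
      rw [Equiv.Perm.mul_apply]
      rcases hv with rfl | hv
      · rw [h2 v hsS hs1, Equiv.swap_apply_left]
      · rw [h1 v hv]
        refine Equiv.swap_apply_of_ne_of_ne ?_ ?_
        · intro h
          apply hyT v (hS1 hv)
          rw [h]
          exact hST hsS
        · intro h
          have h4 : v = s := hy (Finset.mem_coe.2 (hS1 hv)) (Finset.mem_coe.2 hsS) h
          exact hs1 (h4 ▸ hv)
    · intro v hv hvs
      rw [Finset.mem_insert, not_or] at hvs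
      rw [Equiv.Perm.mul_apply, h2 v hv hvs.2]
      refine Equiv.swap_apply_of_ne_of_ne hvs.1 ?_
      intro h
      apply hyT s hsS
      rw [← h]
      exact hST hv
    · rw [map_mul, Equiv.Perm.mul_apply, hmv, h3]

theorem rename_el {act : Equiv.Perm V →* Equiv.Perm X} {F : (X → ZMod 2) → ZMod 2}
    (hF : Inv act F) {T : Finset V} {G : X → ZMod 2} (hG : ∀ y, G y ≠ 0 → Sup act T y)
    {S : Finset V} (hST : S ⊆ T) {x : X} (hx : Sup act S x) (τ : Equiv.Perm V)
    {l : ℕ} (hl : 1 ≤ l) (hc : T.card + 2 * S.card + 11 * l ≤ Fintype.card V + 1)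
    (hs : sp F < 4 ^ l) : F (G + bas (act τ x)) = F (G + bas x) := by
  have hcT : (T ∪ S.image τ).card ≤ T.card + S.card := by
    have h1 := Finset.card_union_le T (S.image τ)
    have h2 := Finset.card_image_le (s := S) (f := τ)
    omega
  have hci : (S.image τ).card = S.card := Finset.card_image_of_injective S τ.injective
  have hG' : ∀ y, G y ≠ 0 → Sup act (T ∪ S.image τ) y := fun y hy =>
    (hG y hy).mono Finset.subset_union_left
  obtain ⟨e⟩ : Nonempty ({v // v ∈ S} ↪ {v // v ∈ Finset.univ \ (T ∪ S.image τ)}) := by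
    apply Function.Embedding.nonempty_of_card_le
    rw [Fintype.card_coe, Fintype.card_coe, Finset.card_sdiff_of_subset (Finset.subset_univ _),
      Finset.card_univ]
    omega
  have hy : ∃ y : V → V, Set.InjOn y S ∧ ∀ s ∈ S, y s ∉ T ∪ S.image τ := by
    refine ⟨fun v => if h : v ∈ S then (e ⟨v, h⟩ : V) else v, ?_, ?_⟩
    · intro a ha b hb hab
      have ha' : a ∈ S := ha
      have hb' : b ∈ S := hb
      simp only [dif_pos ha', dif_pos hb'] at hab
      exact congrArg Subtype.val (e.injective (Subtype.ext hab))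
    · intro a ha
      simp only [dif_pos ha]
      exact (Finset.mem_sdiff.1 (e ⟨a, ha⟩).2).2
  obtain ⟨y, hyS, hyT⟩ := hy
  obtain ⟨π1, a1, -, a3⟩ := rn_fresh hF hG' (S2 := S) (hST.trans Finset.subset_union_left) hx hyS
    hyT hl (by omega) hs S (Finset.Subset.refl S)
  obtain ⟨π2, b1, -, b3⟩ := rn_fresh hF hG' (S2 := S.image τ) Finset.subset_union_right
    (hx.move τ) (y := fun v => y (τ⁻¹ v)) (by
      intro a ha b hb hab
      obtain ⟨a', ha', rfl⟩ := Finset.mem_image.1 (Finset.mem_coe.1 ha)
      obtain ⟨b', hb', rfl⟩ := Finset.mem_image.1 (Finset.mem_coe.1 hb)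
      have h1 : y a' = y b' := by simpa using hab
      rw [hyS (Finset.mem_coe.2 ha') (Finset.mem_coe.2 hb') h1]) (by
      intro s hs'
      obtain ⟨s', hs2, rfl⟩ := Finset.mem_image.1 hs'
      have h1 : y (τ⁻¹ (τ s')) = y s' := by simp
      rw [h1]
      exact hyT s' hs2) hl (by omega) hs (S.image τ) (Finset.Subset.refl _)
  have hfix : act (π1⁻¹ * π2 * τ) x = x := by
    refine hx _ fun v hv => ?_
    rw [Equiv.Perm.mul_apply, Equiv.Perm.mul_apply, b1 (τ v) (Finset.mem_image_of_mem _ hv)]
    have h1 : y (τ⁻¹ (τ v)) = y v := by simp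
    rw [h1, ← a1 v hv]
    exact Equiv.symm_apply_apply π1 v
  have heq : act π2 (act τ x) = act π1 x := by
    rw [map_mul, map_mul, map_inv, Equiv.Perm.mul_apply, Equiv.Perm.mul_apply] at hfix
    have h2 := congrArg (act π1) hfix
    have h3 : act π1 ((act π1)⁻¹ (act π2 (act τ x))) = act π2 (act τ x) :=
      Equiv.apply_symm_apply (act π1) _
    exact h3.symm.trans h2
  rw [← b3, heq, a3]

end Pool.Agent.XLR.SY
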