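import Pool.Agent.Work.MP_218513_lc.SY.SP
import Pool.Agent.Work.MP_218513_lc.SY.FD

/-!
# SY/S1 (M): symmetric functions with `Φ 0 ≠ Φ 2` are not sparse

PROOF. Let `m = card ι`, `L = m / 2`, `u l = iv (Φ (2 * l))`. `u 0 ≠ u 1` (`iv` is injective). `4 a ≤ m + 2` gives
`2 a ≤ L + 1`. By `fd_const` (contrapositive) there is `i` with `i + a ≤ L` and
`∑ l ∈ range (a+1), (-1)^l * choose a l * iv (Φ (2 * (i + l))) ≠ 0`. Choose an embedding
`e : (Fin a ⊕ Fin a) ⊕ Fin (2 * i) → ι` (possible: `2 a + 2 i ≤ m`, `Function.Embedding.nonempty_of_card_le`). Put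
`c = ∑ j, Pi.single (e (inr j)) 1`, `b s = Pi.single (e (inl s)) 1`. For `z : Fin a ⊕ Fin a → ZMod 2`,
`wt (c + ∑ s, z s • b s) = 2 * i + wt z`. So `F' z := F (c + ∑ s, z s • b s) = Φ' (wt z)` with `Φ' w = Φ (2 * i + w)`, and
`Φ' (2 * l) = Φ (2 * (i + l))`. By `sp_pairs` and `sp_pull`: `2 ^ a ≤ sp F' ≤ sp F`.
-/

set_option autoImplicit false
set_option linter.unusedSectionVars false

namespace Pool.Agent.XLR.SY

open Pool.Agent.XLR

variable {ι : Type} [Fintype ι] [DecidableEq ι]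

private theorem s1_iv_inj {a b : ZMod 2} (h : iv a = iv b) : a = b := by
  revert a b; decide

private theorem s1_iv_cases (a : ZMod 2) : iv a = 0 ∨ iv a = 1 := by
  revert a; decide

private theorem s1_wt {κ : Type} [Fintype κ] [DecidableEq κ] (e : κ ↪ ι) (w : κ → ZMod 2) :
    wt (∑ x, w x • (Pi.single (e x) (1 : ZMod 2) : ι → ZMod 2)) = wt w := by
  have v1 : ∀ x0, (∑ x, w x • (Pi.single (e x) (1 : ZMod 2) : ι → ZMod 2)) (e x0) = w x0 := by
    intro x0
    rw [Finset.sum_apply, Finset.sum_eq_single x0]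
    · simp
    · intro x _ hx
      have : e x0 ≠ e x := fun h => hx (e.injective h).symm
      simp [Pi.single_apply, this]
    · simp
  have v2 : ∀ t, (∀ x, e x ≠ t) →
      (∑ x, w x • (Pi.single (e x) (1 : ZMod 2) : ι → ZMod 2)) t = 0 := by
    intro t ht
    rw [Finset.sum_apply]
    apply Finset.sum_eq_zero
    intro x _
    have : t ≠ e x := fun h => ht x h.symm
    simp [Pi.single_apply, this]
  unfold wt
  have : (Finset.univ.filter fun i =>
      (∑ x, w x • (Pi.single (e x) (1 : ZMod 2) : ι → ZMod 2)) i = 1) =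
      (Finset.univ.filter fun x => w x = 1).map e := by
    ext t
    rw [Finset.mem_filter, Finset.mem_map]
    constructor
    · rintro ⟨-, h⟩
      by_cases hx : ∃ x, e x = t
      · obtain ⟨x, rfl⟩ := hx
        rw [v1] at h
        exact ⟨x, Finset.mem_filter.mpr ⟨Finset.mem_univ _, h⟩, rfl⟩
      · rw [v2 t (fun x hxt => hx ⟨x, hxt⟩)] at h
        exact absurd h (by decide)
    · rintro ⟨x, hx, rfl⟩
      refine ⟨Finset.mem_univ _, ?_⟩
      rw [v1]
      exact (Finset.mem_filter.mp hx).2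
  rw [this, Finset.card_map]

private theorem s1_wt_sum {κ κ' : Type} [Fintype κ] [DecidableEq κ] [Fintype κ'] [DecidableEq κ']
    (z : κ → ZMod 2) : wt (Sum.elim z (fun _ : κ' => (1 : ZMod 2))) = Fintype.card κ' + wt z := by
  unfold wt
  have : (Finset.univ.filter fun x => Sum.elim z (fun _ : κ' => (1 : ZMod 2)) x = 1) =
      (Finset.univ.filter fun x => z x = 1).disjSum (Finset.univ : Finset κ') := by
    ext x
    rcases x with x | x <;> simp
  rw [this, Finset.card_disjSum, Finset.card_univ]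
  ring

theorem sp_sym {a : ℕ} (ha : 1 ≤ a) (hc : 4 * a ≤ Fintype.card ι + 2)
    (F : (ι → ZMod 2) → ZMod 2) (Φ : ℕ → ZMod 2) (hF : ∀ z, F z = Φ (wt z)) (hne : Φ 0 ≠ Φ 2) :
    2 ^ a ≤ sp F := by
  obtain ⟨i, hi, hsum⟩ : ∃ i, i + a ≤ Fintype.card ι / 2 ∧
      ∑ l ∈ Finset.range (a + 1), (-1) ^ l * (a.choose l : ℤ) * iv (Φ (2 * (i + l))) ≠ 0 := by
    by_contra hcon
    apply hne
    apply s1_iv_inj
    exact fd_const (a := a) (L := Fintype.card ι / 2) ha (by omega) (fun l => iv (Φ (2 * l)))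
      (fun l _ => s1_iv_cases _)
      (fun i hi => by
        by_contra h
        exact hcon ⟨i, hi, h⟩)
  have hcard : Fintype.card ((Fin a ⊕ Fin a) ⊕ Fin (2 * i)) ≤ Fintype.card ι := by
    simp only [Fintype.card_sum, Fintype.card_fin]
    omega
  obtain ⟨e⟩ := Function.Embedding.nonempty_of_card_le hcard
  have key : ∀ z : Fin a ⊕ Fin a → ZMod 2,
      wt ((∑ j, (Pi.single (e (Sum.inr j)) (1 : ZMod 2) : ι → ZMod 2)) +
        ∑ s, z s • (Pi.single (e (Sum.inl s)) (1 : ZMod 2) : ι → ZMod 2)) = 2 * i + wt z := by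
    intro z
    have h1 := s1_wt e (Sum.elim z (fun _ : Fin (2 * i) => (1 : ZMod 2)))
    rw [s1_wt_sum, Fintype.sum_sum_type] at h1
    simp only [Sum.elim_inl, Sum.elim_inr, one_smul, Fintype.card_fin] at h1
    rw [← h1, add_comm]
  have h2 := sp_pairs (a := a)
    (fun z => F ((∑ j, (Pi.single (e (Sum.inr j)) (1 : ZMod 2) : ι → ZMod 2)) +
        ∑ s, z s • (Pi.single (e (Sum.inl s)) (1 : ZMod 2) : ι → ZMod 2)))
    (fun w => Φ (2 * i + w)) (fun z => by rw [hF, key]) (by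
      intro h
      apply hsum
      rw [← h]
      apply Finset.sum_congr rfl
      intro l _
      rw [mul_add])
  exact h2.trans (sp_pull F _ _)

end Pool.Agent.XLR.SY
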