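import Pool.Agent.Work.MP_218513_lc.SY.PB

/-!
# SY/SP (M): a symmetric function of `2 a` bits with nonzero top difference

PROOF. Let `b i : Fin a ⊕ Fin a → ZMod 2` be `1` at `inl i` and `inr i`, `0` elsewhere. For `y : Fin a → ZMod 2` the vector
`0 + ∑ i, y i • b i = Sum.elim y y` has weight `2 * wt y`, so `F (...) = Φ (2 * wt y)`. With `β = 1` (all ones),
`1 ⬝ᵥ y = wt y` in `ZMod 2`, `sg (1 ⬝ᵥ y) = (-1) ^ wt y`, and
`WF (fun y => F (0 + ∑ i, y i • b i)) 1 = ∑ y, iv (Φ (2 * wt y)) * (-1) ^ wt y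
 = ∑ l ∈ range (a+1), choose a l * (-1) ^ l * iv (Φ (2 * l)) ≠ 0` (group by the weight: there are `choose a l` vectors
of weight `l`; vectors `y` correspond to subsets of `Fin a`, `Finset.sum_powerset`-type lemmas,
`Finset.card_powersetCard`, `Finset.sum_fiberwise`). By `exists_pull` there is `α` with `WF F α ≠ 0` and
`α (inl i) + α (inr i) = 1` for all `i`.
For `J : Fin a → ZMod 2` let `α_J = α + Sum.elim J J`: this is `α ∘ σ_J`, where `σ_J` exchanges `inl i` and `inr i` for all `i` with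
`J i = 1` (as `α (inr i) = α (inl i) + 1`). `F (z ∘ σ) = F z` (`wt (z ∘ σ) = wt z`), so `WF F (α ∘ σ_J) = WF F α ≠ 0`
(`Equiv.sum_comp`, `(α ∘ σ) ⬝ᵥ x = α ⬝ᵥ (x ∘ σ⁻¹)`). The `2 ^ a` vectors `α_J` are different: `J ↦ α_J` is injective.
(Instead of `σ_J` one may exchange one pair at a time and use induction.)
-/

set_option autoImplicit false
set_option linter.unusedSectionVars false

namespace Pool.Agent.XLR.SY

open Pool.Agent.XLR

private lemma wt_eq {κ : Type} [Fintype κ] [DecidableEq κ] (z : κ → ZMod 2) :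
    wt z = ∑ s, if z s = 1 then 1 else 0 := by
  unfold wt
  rw [Finset.card_filter]

private lemma wt_elim {a : ℕ} (y : Fin a → ZMod 2) : wt (Sum.elim y y) = 2 * wt y := by
  rw [wt_eq, wt_eq, Fintype.sum_sum_type, two_mul]
  rfl

private lemma wt_comp {κ : Type} [Fintype κ] [DecidableEq κ] (z : κ → ZMod 2)
    (σ : Equiv.Perm κ) : wt (z ∘ σ) = wt z := by
  rw [wt_eq, wt_eq]
  exact Equiv.sum_comp σ (fun s => if z s = 1 then 1 else 0)

private lemma sg_cast (k : ℕ) : sg (k : ZMod 2) = (-1) ^ k := by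
  induction k with
  | zero => simp [sg]
  | succ k ih => rw [Nat.cast_succ, sg_add, ih, pow_succ]; simp [sg]

private lemma zm2 (x : ZMod 2) : x = if x = 1 then 1 else 0 := by
  revert x
  decide

private lemma one_dot {a : ℕ} (y : Fin a → ZMod 2) :
    (1 : Fin a → ZMod 2) ⬝ᵥ y = ((wt y : ℕ) : ZMod 2) := by
  rw [wt_eq]
  push_cast
  unfold dotProduct
  refine Finset.sum_congr rfl fun i _ => ?_
  rw [Pi.one_apply, one_mul]
  exact zm2 (y i)

private lemma sum_wt {a : ℕ} (g : ℕ → ℤ) :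
    ∑ y : Fin a → ZMod 2, g (wt y) = ∑ l ∈ Finset.range (a + 1), (a.choose l : ℤ) * g l := by
  have h1 := Finset.sum_powerset_apply_card g (x := (Finset.univ : Finset (Fin a)))
  rw [Finset.card_univ, Fintype.card_fin] at h1
  have h2 : ∑ y : Fin a → ZMod 2, g (wt y) =
      ∑ m ∈ (Finset.univ : Finset (Fin a)).powerset, g m.card := by
    refine Finset.sum_bij' (fun y _ => Finset.univ.filter fun i => y i = 1)
      (fun m _ => fun i => if i ∈ m then 1 else 0) ?_ ?_ ?_ ?_ ?_
    · intro y _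
      rw [Finset.mem_powerset]
      exact Finset.subset_univ _
    · intro m _
      exact Finset.mem_univ _
    · intro y _
      funext i
      simp only [Finset.mem_filter, Finset.mem_univ, true_and]
      exact (zm2 (y i)).symm
    · intro m _
      ext i
      simp only [Finset.mem_filter, Finset.mem_univ, true_and]
      by_cases hi : i ∈ m
      · simp [hi]
      · simp [hi]
    · intro y _
      rfl
  rw [h2, h1]
  refine Finset.sum_congr rfl fun l _ => ?_
  rw [nsmul_eq_mul]

theorem sp_pairs {a : ℕ} (F : ((Fin a ⊕ Fin a) → ZMod 2) → ZMod 2) (Φ : ℕ → ZMod 2)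
    (hF : ∀ z, F z = Φ (wt z))
    (h : ∑ l ∈ Finset.range (a + 1), (-1) ^ l * (a.choose l : ℤ) * iv (Φ (2 * l)) ≠ 0) :
    2 ^ a ≤ sp F := by
  classical
  obtain ⟨b, hb⟩ : ∃ b : Fin a → (Fin a ⊕ Fin a) → ZMod 2,
      ∀ i, b i = Sum.elim (Pi.single i 1) (Pi.single i 1) := ⟨_, fun _ => rfl⟩
  have hsum : ∀ y : Fin a → ZMod 2, (0 : (Fin a ⊕ Fin a) → ZMod 2) + ∑ i, y i • b i =
      Sum.elim y y := by
    intro y
    rw [zero_add]
    funext s
    rw [Finset.sum_apply]
    rcases s with j | j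
    · rw [Finset.sum_eq_single j]
      · rw [Pi.smul_apply, hb, Sum.elim_inl, Sum.elim_inl, Pi.single_eq_same, smul_eq_mul, mul_one]
      · intro i _ hij
        rw [Pi.smul_apply, hb, Sum.elim_inl, Pi.single_eq_of_ne hij.symm, smul_zero]
      · intro hj
        exact absurd (Finset.mem_univ j) hj
    · rw [Finset.sum_eq_single j]
      · rw [Pi.smul_apply, hb, Sum.elim_inr, Sum.elim_inr, Pi.single_eq_same, smul_eq_mul, mul_one]
      · intro i _ hij
        rw [Pi.smul_apply, hb, Sum.elim_inr, Pi.single_eq_of_ne hij.symm, smul_zero]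
      · intro hj
        exact absurd (Finset.mem_univ j) hj
  have hWF : WF (fun y : Fin a → ZMod 2 => F (0 + ∑ i, y i • b i)) 1 ≠ 0 := by
    have h1 : WF (fun y : Fin a → ZMod 2 => F (0 + ∑ i, y i • b i)) 1 =
        ∑ y : Fin a → ZMod 2, (fun l => iv (Φ (2 * l)) * (-1) ^ l) (wt y) := by
      unfold WF
      refine Finset.sum_congr rfl fun y _ => ?_
      dsimp only
      rw [hsum y, hF, wt_elim, one_dot, sg_cast]
    rw [h1, sum_wt (a := a) (fun l => iv (Φ (2 * l)) * (-1) ^ l)]
    intro h2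
    apply h
    rw [← h2]
    refine Finset.sum_congr rfl fun l _ => ?_
    ring
  obtain ⟨α, hα, hα1⟩ := exists_pull F 0 b 1 hWF
  have hpair : ∀ i, α (Sum.inl i) + α (Sum.inr i) = 1 := by
    intro i
    have h1 := hα1 i
    rw [Pi.one_apply, hb] at h1
    rw [← h1]
    unfold dotProduct
    rw [Fintype.sum_sum_type]
    simp only [Sum.elim_inl, Sum.elim_inr]
    rw [Finset.sum_eq_single i, Finset.sum_eq_single i]
    · rw [Pi.single_eq_same, mul_one, mul_one]
    · intro j _ hj
      rw [Pi.single_eq_of_ne hj, mul_zero]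
    · intro hj
      exact absurd (Finset.mem_univ i) hj
    · intro j _ hj
      rw [Pi.single_eq_of_ne hj, mul_zero]
    · intro hj
      exact absurd (Finset.mem_univ i) hj
  have hJ : ∀ J : Fin a → ZMod 2, WF F (α + Sum.elim J J) ≠ 0 := by
    intro J
    obtain ⟨f, hf⟩ : ∃ f : (Fin a ⊕ Fin a) → (Fin a ⊕ Fin a),
        (∀ i, f (Sum.inl i) = if J i = 1 then Sum.inr i else Sum.inl i) ∧
        (∀ i, f (Sum.inr i) = if J i = 1 then Sum.inl i else Sum.inr i) :=
      ⟨Sum.elim (fun i => if J i = 1 then Sum.inr i else Sum.inl i)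
        (fun i => if J i = 1 then Sum.inl i else Sum.inr i), fun _ => rfl, fun _ => rfl⟩
    have hinv : Function.Involutive f := by
      rintro (i | i)
      · by_cases hi : J i = 1
        · rw [hf.1, if_pos hi, hf.2, if_pos hi]
        · rw [hf.1, if_neg hi, hf.1, if_neg hi]
      · by_cases hi : J i = 1
        · rw [hf.2, if_pos hi, hf.1, if_pos hi]
        · rw [hf.2, if_neg hi, hf.2, if_neg hi]
    obtain ⟨σ, hσ⟩ : ∃ σ : Equiv.Perm (Fin a ⊕ Fin a), ∀ s, σ s = f s :=
      ⟨hinv.toPerm, fun _ => rfl⟩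
    have hne : ∀ x y z : ZMod 2, x + y = 1 → (if z = 1 then y else x) = x + z ∧
        (if z = 1 then x else y) = y + z := by decide
    have hcomp : α + Sum.elim J J = α ∘ σ := by
      funext s
      rcases s with i | i
      · rw [Pi.add_apply, Sum.elim_inl, Function.comp_apply, hσ, hf.1,
          ← (hne _ _ (J i) (hpair i)).1]
        split_ifs <;> rfl
      · rw [Pi.add_apply, Sum.elim_inr, Function.comp_apply, hσ, hf.2,
          ← (hne _ _ (J i) (hpair i)).2]
        split_ifs <;> rfl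
    rw [hcomp]
    have h1 : WF F (α ∘ σ) = WF F α := by
      unfold WF
      rw [← Equiv.sum_comp (σ.symm.arrowCongr (Equiv.refl (ZMod 2)))]
      refine Finset.sum_congr rfl fun x _ => ?_
      have h2 : (σ.symm.arrowCongr (Equiv.refl (ZMod 2))) x = x ∘ σ := rfl
      rw [h2]
      have h3 : (α ∘ σ) ⬝ᵥ (x ∘ σ) = α ⬝ᵥ x := by
        unfold dotProduct
        exact Equiv.sum_comp σ (fun s => α s * x s)
      rw [h3, hF, hF, wt_comp]
    rw [h1]
    exact hα
  have hcard : Fintype.card (Fin a → ZMod 2) = 2 ^ a := by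
    rw [Fintype.card_fun, ZMod.card, Fintype.card_fin]
  rw [← hcard, ← Finset.card_univ]
  unfold sp
  refine Finset.card_le_card_of_injOn (fun J => α + Sum.elim J J) ?_ ?_
  · intro J _
    rw [Finset.mem_coe, Finset.mem_filter]
    exact ⟨Finset.mem_univ _, hJ J⟩
  · intro J _ J' _ hJJ
    have h1 : α + Sum.elim J J = α + Sum.elim J' J' := hJJ
    have h2 := add_left_cancel h1
    funext i
    exact congrFun h2 (Sum.inl i)

end Pool.Agent.XLR.SY
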